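import Mathlib

/-!
# Ka: from a function which is almost constant on cells to a step function multiple of `S`

All sums are over `d' ∈ Icc 1 H`, `d ∈ (Icc 1 H).erase d'`. For a pair of classes `(a, b)` which contains a pair `(e', e)` with `e', e ∈ Icc 1 H`, `e ≠ e'`, `c e' = a`, `c e = b`, choose one and put `P_ab = P e' e`, `s_ab = s e' e ≥ 0`; `κ a b = 0` if `s_ab = 0`, otherwise `κ a b = min 16 (max 0 (P_ab/s_ab))`; `κ a b = 0` for
the other `(a, b)`. Then `0 ≤ κ ≤ 16`. For `(d', d)` in the cell: `|P d' d - P_ab| ≤ η`, `s d' d = s_ab`. Write `T, P, S, s` for the values at `(d', d)`, `κ = κ a b`.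
* `|P_ab - κ s| ≤ η + |T - P| + max 0 (T - 16 S) + 16 |S - s|`: if `s = 0` then the left side is `|P_ab| ≤ η + |P - T| + T` and `T ≤ max 0 (T - 16 S) + 16 S`, `S ≤ |S - s|`. If `s > 0` and `0 ≤ P_ab/s ≤ 16` it is `0`; if `P_ab > 16 s` it is `P_ab - 16 s ≤ η + |P - T| + (T - 16 S) + 16 (S - s)`; if `P_ab < 0` then it is
  `-P_ab ≤ η - P ≤ η + |T - P|` since `T ≥ 0`.
* `|T - κ S| ≤ |T - P| + |P - P_ab| + |P_ab - κ s| + κ |s - S| ≤ 2 |T - P| + 2 η + max 0 (T - 16 S) + 32 |S - s|`.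
Sum over all pairs: `≤ (2 η + 2 η + η + 32 η) H² = 37 η H²`.
-/

set_option autoImplicit false

namespace Pool.Agent.H39.AE

open Finset

/-- The multiplier attached to one cell with values `Q`, `s`. -/
noncomputable def Ka_kap (Q s : ℝ) : ℝ := if s ≤ 0 then 0 else min 16 (max 0 (Q / s))

theorem Ka_kap_nonneg (Q s : ℝ) : 0 ≤ Ka_kap Q s ∧ Ka_kap Q s ≤ 16 := by
  unfold Ka_kap
  split_ifs with h
  · norm_num
  · exact ⟨le_min (by norm_num) (le_max_left _ _), min_le_left _ _⟩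

theorem Ka_pt (T P S s Q η : ℝ) (hη : 0 ≤ η) (hT : 0 ≤ T) (hs : 0 ≤ s) (hPQ : |P - Q| ≤ η) :
    |T - Ka_kap Q s * S| ≤ 2 * |T - P| + 2 * η + max 0 (T - 16 * S) + 32 * |S - s| := by
  have a1 : 0 ≤ |T - P| := abs_nonneg _
  have a2 : T - P ≤ |T - P| := le_abs_self _
  have a2' : -(T - P) ≤ |T - P| := neg_le_abs _
  have a3 : 0 ≤ |S - s| := abs_nonneg _
  have a4 : S - s ≤ |S - s| := le_abs_self _
  have a5 : -(S - s) ≤ |S - s| := neg_le_abs _
  have a6 : 0 ≤ max 0 (T - 16 * S) := le_max_left _ _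
  have a7 : T - 16 * S ≤ max 0 (T - 16 * S) := le_max_right _ _
  have a8 := abs_le.mp hPQ
  by_cases h0 : s ≤ 0
  · have hs0 : s = 0 := le_antisymm h0 hs
    have hk : Ka_kap Q s = 0 := by unfold Ka_kap; rw [if_pos h0]
    rw [hk, zero_mul, sub_zero, abs_of_nonneg hT]
    subst hs0
    linarith
  · have hsp : 0 < s := not_le.mp h0
    have hk : Ka_kap Q s = min 16 (max 0 (Q / s)) := by unfold Ka_kap; rw [if_neg h0]
    rcases le_total Q 0 with hQ | hQ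
    · have : Q / s ≤ 0 := div_nonpos_of_nonpos_of_nonneg hQ hs
      have hk0 : Ka_kap Q s = 0 := by
        rw [hk, max_eq_left this]; norm_num
      rw [hk0, zero_mul, sub_zero, abs_of_nonneg hT]
      linarith [a8.1, a8.2]
    · have hQs : 0 ≤ Q / s := div_nonneg hQ hs
      rcases le_total (Q / s) 16 with hle | hge
      · have hk1 : Ka_kap Q s = Q / s := by
          rw [hk, max_eq_right hQs, min_eq_right hle]
        rw [hk1]
        have hid : T - Q / s * S = (T - P) + (P - Q) + (-(Q / s * (S - s))) := by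
          have : Q / s * s = Q := by field_simp
          linear_combination (-1 : ℝ) * this
        rw [hid]
        have t1 := abs_add_le ((T - P) + (P - Q)) (-(Q / s * (S - s)))
        have t2 := abs_add_le (T - P) (P - Q)
        have t3 : |-(Q / s * (S - s))| ≤ 16 * |S - s| := by
          rw [abs_neg, abs_mul, abs_of_nonneg hQs]
          exact mul_le_mul_of_nonneg_right hle a3
        linarith
      · have hk1 : Ka_kap Q s = 16 := by
          rw [hk, max_eq_right hQs, min_eq_left hge]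
        have hQ16 : 16 * s ≤ Q := by
          rwa [le_div_iff₀ hsp] at hge
        rw [hk1]
        apply abs_le.mpr
        constructor
        · linarith [a8.1, a8.2]
        · linarith [a8.1, a8.2]

theorem Ka (H M : ℕ) (c : ℕ → Fin M) (η : ℝ) (hη : 0 ≤ η) (T P S s : ℕ → ℕ → ℝ) (hT : ∀ d' d, 0 ≤ T d' d) (hS : ∀ d' d, 0 ≤ S d' d)
    (hs : ∀ d' d, 0 ≤ s d' d)
    (h1 : ∑ d' ∈ Finset.Icc 1 H, ∑ d ∈ (Finset.Icc 1 H).erase d', |T d' d - P d' d| ≤ η * (H : ℝ) ^ 2)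
    (h2 : ∑ d' ∈ Finset.Icc 1 H, ∑ d ∈ (Finset.Icc 1 H).erase d', max 0 (T d' d - 16 * S d' d) ≤ η * (H : ℝ) ^ 2)
    (h3 : ∑ d' ∈ Finset.Icc 1 H, ∑ d ∈ (Finset.Icc 1 H).erase d', |S d' d - s d' d| ≤ η * (H : ℝ) ^ 2)
    (h4 : ∀ d' ∈ Finset.Icc 1 H, ∀ d ∈ (Finset.Icc 1 H).erase d', ∀ e' ∈ Finset.Icc 1 H, ∀ e ∈ (Finset.Icc 1 H).erase e',
      c d' = c e' → c d = c e → |P d' d - P e' e| ≤ η ∧ s d' d = s e' e) :
    ∃ κ : Fin M → Fin M → ℝ, (∀ a b, 0 ≤ κ a b ∧ κ a b ≤ 16) ∧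
      ∑ d' ∈ Finset.Icc 1 H, ∑ d ∈ (Finset.Icc 1 H).erase d', |T d' d - κ (c d') (c d) * S d' d| ≤ 40 * η * (H : ℝ) ^ 2 := by
  have hch : ∀ a b : Fin M, ∃ Q t : ℝ, ∀ d' ∈ Finset.Icc 1 H, ∀ d ∈ (Finset.Icc 1 H).erase d',
      c d' = a → c d = b → |P d' d - Q| ≤ η ∧ s d' d = t := by
    intro a b
    by_cases hex : ∃ e' ∈ Finset.Icc 1 H, ∃ e ∈ (Finset.Icc 1 H).erase e', c e' = a ∧ c e = b
    · obtain ⟨e', he', e, he, ha, hb⟩ := hex
      refine ⟨P e' e, s e' e, ?_⟩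
      intro d' hd' d hd h5 h6
      exact h4 d' hd' d hd e' he' e he (by rw [h5, ha]) (by rw [h6, hb])
    · refine ⟨0, 0, ?_⟩
      intro d' hd' d hd h5 h6
      exact absurd ⟨d', hd', d, hd, h5, h6⟩ hex
  choose Q t hQt using hch
  refine ⟨fun a b => Ka_kap (Q a b) (t a b), fun a b => Ka_kap_nonneg _ _, ?_⟩
  have hpt : ∀ d' ∈ Finset.Icc 1 H, ∀ d ∈ (Finset.Icc 1 H).erase d',
      |T d' d - Ka_kap (Q (c d') (c d)) (t (c d') (c d)) * S d' d| ≤
        2 * |T d' d - P d' d| + 2 * η + max 0 (T d' d - 16 * S d' d) + 32 * |S d' d - s d' d| := by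
    intro d' hd' d hd
    obtain ⟨g1, g2⟩ := hQt (c d') (c d) d' hd' d hd rfl rfl
    rw [← g2]
    exact Ka_pt _ _ _ _ _ η hη (hT d' d) (hs d' d) g1
  have hsum : ∑ d' ∈ Finset.Icc 1 H, ∑ d ∈ (Finset.Icc 1 H).erase d',
      |T d' d - Ka_kap (Q (c d') (c d)) (t (c d') (c d)) * S d' d| ≤
      ∑ d' ∈ Finset.Icc 1 H, ∑ d ∈ (Finset.Icc 1 H).erase d',
        (2 * |T d' d - P d' d| + 2 * η + max 0 (T d' d - 16 * S d' d) + 32 * |S d' d - s d' d|) :=
    Finset.sum_le_sum fun d' hd' => Finset.sum_le_sum fun d hd => hpt d' hd' d hd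
  have hcard : ∑ d' ∈ Finset.Icc 1 H, ∑ d ∈ (Finset.Icc 1 H).erase d', (2 * η) ≤ 2 * η * (H : ℝ) ^ 2 := by
    have : ∀ d' ∈ Finset.Icc 1 H, ∑ d ∈ (Finset.Icc 1 H).erase d', (2 * η) ≤ (H : ℝ) * (2 * η) := by
      intro d' hd'
      rw [Finset.sum_const, nsmul_eq_mul]
      apply mul_le_mul_of_nonneg_right _ (by linarith)
      have h5 : ((Finset.Icc 1 H).erase d').card ≤ (Finset.Icc 1 H).card := Finset.card_erase_le
      rw [Nat.card_Icc, Nat.add_sub_cancel] at h5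
      exact_mod_cast h5
    calc ∑ d' ∈ Finset.Icc 1 H, ∑ d ∈ (Finset.Icc 1 H).erase d', (2 * η)
        ≤ ∑ d' ∈ Finset.Icc 1 H, (H : ℝ) * (2 * η) := Finset.sum_le_sum this
      _ = 2 * η * (H : ℝ) ^ 2 := by
          rw [Finset.sum_const, nsmul_eq_mul, Nat.card_Icc, Nat.add_sub_cancel]; ring
  have hsplit : ∑ d' ∈ Finset.Icc 1 H, ∑ d ∈ (Finset.Icc 1 H).erase d',
        (2 * |T d' d - P d' d| + 2 * η + max 0 (T d' d - 16 * S d' d) + 32 * |S d' d - s d' d|) =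
      2 * (∑ d' ∈ Finset.Icc 1 H, ∑ d ∈ (Finset.Icc 1 H).erase d', |T d' d - P d' d|) +
      (∑ d' ∈ Finset.Icc 1 H, ∑ d ∈ (Finset.Icc 1 H).erase d', (2 * η)) +
      (∑ d' ∈ Finset.Icc 1 H, ∑ d ∈ (Finset.Icc 1 H).erase d', max 0 (T d' d - 16 * S d' d)) +
      32 * (∑ d' ∈ Finset.Icc 1 H, ∑ d ∈ (Finset.Icc 1 H).erase d', |S d' d - s d' d|) := by
    simp only [Finset.sum_add_distrib, Finset.mul_sum]
  have hH : 0 ≤ η * (H : ℝ) ^ 2 := by positivity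
  calc ∑ d' ∈ Finset.Icc 1 H, ∑ d ∈ (Finset.Icc 1 H).erase d',
        |T d' d - Ka_kap (Q (c d') (c d)) (t (c d') (c d)) * S d' d|
      ≤ _ := hsum
    _ = _ := hsplit
    _ ≤ 40 * η * (H : ℝ) ^ 2 := by nlinarith [h1, h2, h3, hcard, hH]

end Pool.Agent.H39.AE
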