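import Pool.Agent.H96.EQ.QM
import Pool.Agent.H96.EQ.QJ
import Pool.Agent.H12.DM.Fin
import Pool.Agent.H12.DM.Mp

/-!
# Lo: the number of triples in a set of primes is at least the cube of the density, at all but boundedly many scales
-/

set_option autoImplicit false

namespace Pool.Agent.H39.AE

open Finset Pool.Agent.H17 Pool.Agent.H6.MF Pool.Agent.H12.DM Pool.Agent.H96.EQ

private lemma Lo_growth : ∀ᶠ x : ℝ in Filter.atTop,
    1 ≤ x ∧ 1 ≤ Real.log x ∧ (x ^ (1 / 4 : ℝ) + (Real.log x) ^ 2 + 1) * (Real.log x) ^ 2 ≤ x := by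
  have h := (isLittleO_log_rpow_rpow_atTop (2 : ℝ) (by norm_num : (0 : ℝ) < 1 / 4)).def
    (c := 1) one_pos
  have h2 : Filter.Tendsto (fun x : ℝ => x ^ (1 / 4 : ℝ)) Filter.atTop Filter.atTop :=
    tendsto_rpow_atTop (by norm_num)
  filter_upwards [h, Filter.eventually_ge_atTop (1 : ℝ),
    Real.tendsto_log_atTop.eventually_ge_atTop 1, h2.eventually_ge_atTop 4] with x h1 hx hL hy
  refine ⟨hx, hL, ?_⟩
  have hx0 : 0 ≤ x := by linarith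
  obtain ⟨y, hyd⟩ : ∃ y : ℝ, y = x ^ (1 / 4 : ℝ) := ⟨_, rfl⟩
  have hy4 : y ^ 4 = x := by
    rw [hyd, ← Real.rpow_natCast (x ^ (1 / 4 : ℝ)) 4, ← Real.rpow_mul hx0]
    norm_num
  have hL2 : (Real.log x) ^ 2 ≤ y := by
    rw [one_mul, Real.norm_eq_abs, Real.norm_eq_abs, ← hyd] at h1
    rw [abs_of_nonneg (show 0 ≤ y by rw [hyd]; positivity)] at h1
    have h3 : (Real.log x) ^ (2 : ℝ) = (Real.log x) ^ 2 := by
      rw [← Real.rpow_natCast]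
      norm_num
    rw [← h3]
    exact (le_abs_self _).trans h1
  rw [← hyd] at hy ⊢
  have hL0 : 0 ≤ (Real.log x) ^ 2 := sq_nonneg _
  calc (y + (Real.log x) ^ 2 + 1) * (Real.log x) ^ 2 ≤ (y + y + 1) * y :=
        mul_le_mul (by linarith) hL2 hL0 (by linarith)
    _ ≤ y ^ 4 := by
        have h5 : y + y + 1 ≤ 3 * y := by linarith
        have h6 : (y + y + 1) * y ≤ 3 * y * y := mul_le_mul_of_nonneg_right h5 (by linarith)
        have h7 : 3 * y * y ≤ y ^ 4 := by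
          have : (16 : ℝ) ≤ y ^ 2 := by nlinarith
          nlinarith [sq_nonneg y, mul_nonneg (sq_nonneg y) (show 0 ≤ y ^ 2 - 3 by linarith)]
        linarith
    _ = x := hy4

private lemma Lo_pc {x : ℝ} (hx : 1 ≤ x) {Q : Finset ℕ} (hQ : ∀ p ∈ Q, p.Prime ∧ (p : ℝ) ≤ x)
    (a : ℕ) : (pc Q a : ℝ) * (Real.log x) ^ 2 ≤
      ∑ n ∈ Finset.range (⌊x⌋₊ + 1), La x (n : ℤ) * La x ((n : ℤ) - (a : ℤ)) +
        (x ^ (1 / 4 : ℝ) + a + 1) * (Real.log x) ^ 2 := by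
  classical
  have hx0 : 0 ≤ x := by linarith
  have hL0 : 0 ≤ (Real.log x) ^ 2 := sq_nonneg _
  have hy0 : 0 ≤ x ^ (1 / 4 : ℝ) := by positivity
  have h1 : (pc Q a : ℝ) * (Real.log x) ^ 2 =
      ∑ p ∈ Q, (if p - a ∈ Q then (Real.log x) ^ 2 else 0) := by
    unfold pc
    rw [← Finset.sum_filter, Finset.sum_const, nsmul_eq_mul]
  have h2 : ∀ p ∈ Q, (if p - a ∈ Q then (Real.log x) ^ 2 else 0) ≤
      La x (p : ℤ) * La x ((p : ℤ) - (a : ℤ)) +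
        (if (p : ℝ) ≤ x ^ (1 / 4 : ℝ) + a then (Real.log x) ^ 2 else 0) := by
    intro p hp
    have hn : 0 ≤ La x (p : ℤ) * La x ((p : ℤ) - (a : ℤ)) :=
      mul_nonneg (La_nonneg hx _) (La_nonneg hx _)
    by_cases hpa : p - a ∈ Q
    · rw [if_pos hpa]
      by_cases hle : (p : ℝ) ≤ x ^ (1 / 4 : ℝ) + a
      · rw [if_pos hle]
        linarith
      · rw [if_neg hle, add_zero]
        rw [not_le] at hle
        have hpr := (hQ _ hpa).1.two_le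
        have hap : a ≤ p := by omega
        have e1 : (p : ℤ) - (a : ℤ) = ((p - a : ℕ) : ℤ) := by
          rw [Nat.cast_sub hap]
        have e2 : La x (p : ℤ) = Real.log x := by
          unfold La
          rw [if_pos]
          refine ⟨(hQ p hp).1, ?_, ?_⟩
          · push_cast
            have : (0 : ℝ) ≤ a := Nat.cast_nonneg a
            linarith
          · push_cast
            exact (hQ p hp).2
        have e3 : La x ((p : ℤ) - (a : ℤ)) = Real.log x := by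
          rw [e1]
          unfold La
          rw [if_pos]
          refine ⟨(hQ _ hpa).1, ?_, ?_⟩
          · have : ((((p - a : ℕ) : ℤ)) : ℝ) = (p : ℝ) - a := by
              rw [← e1]
              push_cast
              ring
            rw [this]
            linarith
          · push_cast
            exact (hQ _ hpa).2
        rw [e2, e3]
        exact le_of_eq (sq _)
    · rw [if_neg hpa]
      have : 0 ≤ (if (p : ℝ) ≤ x ^ (1 / 4 : ℝ) + a then (Real.log x) ^ 2 else 0) := by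
        split_ifs
        · exact hL0
        · exact le_rfl
      linarith
  rw [h1]
  refine (Finset.sum_le_sum h2).trans ?_
  rw [Finset.sum_add_distrib]
  refine add_le_add ?_ ?_
  · refine Finset.sum_le_sum_of_subset_of_nonneg ?_ (fun n _ _ =>
      mul_nonneg (La_nonneg hx _) (La_nonneg hx _))
    intro p hp
    rw [Finset.mem_range]
    have := Nat.le_floor (hQ p hp).2
    omega
  · rw [← Finset.sum_filter, Finset.sum_const, nsmul_eq_mul]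
    refine mul_le_mul_of_nonneg_right ?_ hL0
    have h3 : Q.filter (fun p : ℕ => (p : ℝ) ≤ x ^ (1 / 4 : ℝ) + a) ⊆
        Finset.range (⌊x ^ (1 / 4 : ℝ) + a⌋₊ + 1) := by
      intro p hp
      rw [Finset.mem_filter] at hp
      rw [Finset.mem_range]
      have := Nat.le_floor hp.2
      omega
    have h4 := Finset.card_le_card h3
    rw [Finset.card_range] at h4
    have h5 : ((Q.filter (fun p : ℕ => (p : ℝ) ≤ x ^ (1 / 4 : ℝ) + a)).card : ℝ) ≤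
        (⌊x ^ (1 / 4 : ℝ) + a⌋₊ : ℝ) + 1 := by exact_mod_cast h4
    have h6 := Nat.floor_le (show 0 ≤ x ^ (1 / 4 : ℝ) + a by positivity)
    linarith

private lemma Lo_nf (x : ℝ) (D : ℕ) (n : ℤ) :
    ∑ a ∈ Finset.Icc 1 D, La x (n - (a : ℤ)) = nf (Finset.Icc 1 (D : ℤ)) (La x) n := by
  unfold nf
  refine Finset.sum_nbij' (fun b : ℕ => (b : ℤ)) (fun b : ℤ => b.toNat) ?_ ?_ ?_ ?_ ?_
  · intro b hb
    rw [Finset.mem_Icc] at hb ⊢
    constructor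
    · exact_mod_cast hb.1
    · exact_mod_cast hb.2
  · intro b hb
    rw [Finset.mem_Icc] at hb ⊢
    omega
  · intro b _
    simp
  · intro b hb
    rw [Finset.mem_Icc] at hb
    exact Int.toNat_of_nonneg (by omega)
  · intro b _
    rfl

private lemma Lo_pair : ∃ C X : ℝ, 0 < C ∧ ∀ x : ℝ, X ≤ x → ∀ D : ℕ, Real.log x ≤ (D : ℝ) →
    (D : ℝ) ≤ (Real.log x) ^ 2 → ∀ Q : Finset ℕ, (∀ p ∈ Q, p.Prime ∧ (p : ℝ) ≤ x) →
    ∑ a ∈ Finset.Icc 1 D, (pc Q a : ℝ) * (Real.log x) ^ 2 ≤ C * x * D := by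
  obtain ⟨C, X1, hC, h3⟩ := Mo3
  obtain ⟨X2, h1⟩ := Mo1
  obtain ⟨X3, hg⟩ := Filter.eventually_atTop.1 Lo_growth
  refine ⟨2 * C + 3 + 2, max X1 (max X2 X3), by positivity, fun x hx D hD1 hD2 Q hQ => ?_⟩
  have hx1 : X1 ≤ x := (le_max_left _ _).trans hx
  have hx2 : X2 ≤ x := (le_max_left _ _).trans ((le_max_right _ _).trans hx)
  have hx3 : X3 ≤ x := (le_max_right _ _).trans ((le_max_right _ _).trans hx)
  obtain ⟨hx, hL, hgr⟩ := hg x hx3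
  have hx0 : 0 ≤ x := by linarith
  have hD0 : (0 : ℝ) < D := by linarith
  have hL2 : 0 ≤ (Real.log x) ^ 2 := sq_nonneg _
  have b3 := h3 x hx1 D hD1 hD2
  have b1 := h1 x hx2
  have hN : (⌊x⌋₊ : ℝ) + 1 ≤ 2 * x := by
    have := Nat.floor_le hx0
    linarith
  have hN0 : (0 : ℝ) ≤ (⌊x⌋₊ : ℝ) + 1 := by positivity
  -- the sum of La * nf
  have hmain : ∑ n ∈ Finset.range (⌊x⌋₊ + 1), La x (n : ℤ) *
      nf (Finset.Icc 1 (D : ℤ)) (La x) (n : ℤ) ≤ (2 * C + 4) * x * D := by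
    have h4 : ∀ n : ℤ, La x n * nf (Finset.Icc 1 (D : ℤ)) (La x) n ≤
        (D : ℝ) * La x n + (1 / (D : ℝ)) * (La x n * (nf (Finset.Icc 1 (D : ℤ)) (La x) n) ^ 2) := by
      intro n
      obtain ⟨u, hu⟩ : ∃ u : ℝ, u = nf (Finset.Icc 1 (D : ℤ)) (La x) n := ⟨_, rfl⟩
      rw [← hu]
      have h5 : u ≤ D + (1 / (D : ℝ)) * u ^ 2 := by
        have h6 : (1 / (D : ℝ)) * u ^ 2 = u ^ 2 / D := by ring
        rw [h6, ← sub_nonneg]
        have h7 : (D : ℝ) + u ^ 2 / D - u = ((D : ℝ) ^ 2 + u ^ 2 - u * D) / D := by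
          field_simp
        rw [h7]
        refine div_nonneg ?_ hD0.le
        nlinarith [sq_nonneg (u - D), sq_nonneg u, sq_nonneg (D : ℝ)]
      have h6 := mul_le_mul_of_nonneg_left h5 (La_nonneg hx n)
      linarith
    have h5 := Finset.sum_le_sum (s := Finset.range (⌊x⌋₊ + 1)) fun n _ => h4 (n : ℤ)
    rw [Finset.sum_add_distrib, ← Finset.mul_sum, ← Finset.mul_sum] at h5
    have h6 : (D : ℝ) * ∑ n ∈ Finset.range (⌊x⌋₊ + 1), La x (n : ℤ) ≤ D * (2 * (2 * x)) :=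
      mul_le_mul_of_nonneg_left (by linarith) hD0.le
    have h7 : (1 / (D : ℝ)) * ∑ n ∈ Finset.range (⌊x⌋₊ + 1), La x (n : ℤ) *
        (nf (Finset.Icc 1 (D : ℤ)) (La x) (n : ℤ)) ^ 2 ≤ (1 / (D : ℝ)) *
          (C * (2 * x) * (D : ℝ) ^ 2) := by
      refine mul_le_mul_of_nonneg_left (b3.trans ?_) (by positivity)
      exact mul_le_mul_of_nonneg_right (mul_le_mul_of_nonneg_left hN hC.le) (by positivity)
    have h8 : (1 / (D : ℝ)) * (C * (2 * x) * (D : ℝ) ^ 2) = 2 * C * x * D := by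
      field_simp
    rw [h8] at h7
    linarith
  have hsum := Finset.sum_le_sum (s := Finset.Icc 1 D) fun a _ => Lo_pc hx hQ a
  rw [Finset.sum_add_distrib, Finset.sum_comm] at hsum
  have h9 : ∑ n ∈ Finset.range (⌊x⌋₊ + 1), ∑ a ∈ Finset.Icc 1 D,
      La x (n : ℤ) * La x ((n : ℤ) - (a : ℤ)) =
      ∑ n ∈ Finset.range (⌊x⌋₊ + 1), La x (n : ℤ) *
        nf (Finset.Icc 1 (D : ℤ)) (La x) (n : ℤ) := by
    refine Finset.sum_congr rfl fun n _ => ?_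
    rw [← Finset.mul_sum, Lo_nf]
  rw [h9] at hsum
  have h10 : ∑ a ∈ Finset.Icc 1 D, (x ^ (1 / 4 : ℝ) + (a : ℝ) + 1) * (Real.log x) ^ 2 ≤
      ∑ _a ∈ Finset.Icc 1 D, x := by
    refine Finset.sum_le_sum fun a ha => ?_
    rw [Finset.mem_Icc] at ha
    have h11 : (a : ℝ) ≤ D := by exact_mod_cast ha.2
    have h12 : (x ^ (1 / 4 : ℝ) + (a : ℝ) + 1) * (Real.log x) ^ 2 ≤
        (x ^ (1 / 4 : ℝ) + (Real.log x) ^ 2 + 1) * (Real.log x) ^ 2 :=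
      mul_le_mul_of_nonneg_right (by linarith) hL2
    linarith
  rw [Finset.sum_const, Nat.card_Icc, nsmul_eq_mul] at h10
  have h13 : ((D + 1 - 1 : ℕ) : ℝ) = D := by
    rw [Nat.add_sub_cancel]
  rw [h13] at h10
  have h14 : 0 ≤ x * D := by positivity
  linarith

private lemma Lo_q3 {x : ℝ} {Q : Finset ℕ} (hQ : ∀ p ∈ Q, p.Prime ∧ (p : ℝ) ≤ x) {Q' : Set ℤ}
    (hQ' : ∀ n : ℤ, n ∈ Q' ↔ 0 ≤ n ∧ n.toNat ∈ Q) {a b : ℕ} (ha : 1 ≤ a) (hb : 1 ≤ b) :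
    q3 x Q' Q' Q' a b = (tc Q a b : ℝ) := by
  classical
  unfold q3 tc
  congr 2
  ext n
  have e : ∀ c : ℕ, 1 ≤ c → ((n : ℤ) - (c : ℤ) ∈ Q' ↔ n - c ∈ Q) := by
    intro c hc
    have e1 : ((n : ℤ) - (c : ℤ)).toNat = n - c := by omega
    rw [hQ', e1]
    constructor
    · exact fun h => h.2
    · intro h
      have := (hQ _ h).1.two_le
      exact ⟨by omega, h⟩
  have e0 : (n : ℤ) ∈ Q' ↔ n ∈ Q := by
    rw [hQ', Int.toNat_natCast]
    exact ⟨fun h => h.2, fun h => ⟨by omega, h⟩⟩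
  rw [Finset.mem_filter, Finset.mem_filter, Finset.mem_range, e a ha, e b hb, e0]
  constructor
  · rintro ⟨_, h1, h2, h3⟩
    exact ⟨h1, h2, h3⟩
  · rintro ⟨h1, h2, h3⟩
    have := Nat.le_floor (hQ n h1).2
    exact ⟨by omega, h1, h2, h3⟩

private lemma Lo_dq {x : ℝ} {Q : Finset ℕ} (hQ : ∀ p ∈ Q, p.Prime ∧ (p : ℝ) ≤ x) {Q' : Set ℤ}
    (hQ' : ∀ n : ℤ, n ∈ Q' ↔ 0 ≤ n ∧ n.toNat ∈ Q) :
    dq x Q' = (Q.card : ℝ) * Real.log x / x := by
  classical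
  unfold dq
  congr 4
  ext n
  have e0 : (n : ℤ) ∈ Q' ↔ n ∈ Q := by
    rw [hQ', Int.toNat_natCast]
    exact ⟨fun h => h.2, fun h => ⟨by omega, h⟩⟩
  rw [Finset.mem_filter, Finset.mem_range, e0]
  constructor
  · exact fun h => h.2
  · intro h
    have := Nat.le_floor (hQ n h).2
    exact ⟨by omega, h⟩

theorem Lo (ε : ℝ) (hε : 0 < ε) : ∃ (M : ℕ) (K X : ℝ), ∀ x : ℝ, X ≤ x → ∀ Q : Finset ℕ, (∀ p ∈ Q, p.Prime ∧ (p : ℝ) ≤ x) →
    ∃ bad : Finset ℕ, bad.card ≤ M ∧ ∀ i : ℕ, i ∉ bad → K * Real.log x ≤ ((2 ^ i : ℕ) : ℝ) → ((2 ^ i : ℕ) : ℝ) ≤ (Real.log x) ^ 2 →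
      (((Q.card : ℝ) * Real.log x / x) ^ 3 - ε) * ((2 ^ i : ℕ) : ℝ) ^ 2 ≤
        ∑ d' ∈ Finset.Icc 1 (2 ^ i), ∑ d ∈ (Finset.Icc 1 (2 ^ i)).erase d', (tc Q d' d : ℝ) * (Real.log x) ^ 3 / x := by
  classical
  obtain ⟨M, X1, hM⟩ := QMX (ε / 4) (by positivity)
  obtain ⟨X2, hkq⟩ := kq_ge (ε / 4) (by positivity)
  obtain ⟨C, X3, hC, hpair⟩ := Lo_pair
  refine ⟨M, max 1 (2 * C / ε), max (max X1 X2) (max X3 (Real.exp 1)), fun x hx Q hQ => ?_⟩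
  have hx1 : X1 ≤ x := ((le_max_left _ _).trans (le_max_left _ _)).trans hx
  have hx2 : X2 ≤ x := ((le_max_right _ _).trans (le_max_left _ _)).trans hx
  have hx3 : X3 ≤ x := ((le_max_left _ _).trans (le_max_right _ _)).trans hx
  have hxe : Real.exp 1 ≤ x := ((le_max_right _ _).trans (le_max_right _ _)).trans hx
  have hx0 : 0 < x := lt_of_lt_of_le (Real.exp_pos 1) hxe
  have hL : 1 ≤ Real.log x := (Real.le_log_iff_exp_le hx0).2 hxe
  have hL0 : 0 < Real.log x := by linarith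
  obtain ⟨Q', hQ'⟩ : ∃ Q' : Set ℤ, ∀ n : ℤ, n ∈ Q' ↔ 0 ≤ n ∧ n.toNat ∈ Q :=
    ⟨{n : ℤ | 0 ≤ n ∧ n.toNat ∈ Q}, fun _ => Iff.rfl⟩
  have hPQ : PQ Q' := by
    intro n hn
    rw [hQ'] at hn
    exact (hQ _ hn.2).1
  obtain ⟨i0, hi0⟩ : ∃ i0 : ℕ, i0 = Nat.clog 2 ⌈Real.log x⌉₊ := ⟨_, rfl⟩
  have hg : Real.log x ≤ ((2 ^ i0 : ℕ) : ℝ) := by
    have h1 : ⌈Real.log x⌉₊ ≤ 2 ^ i0 := by
      rw [hi0]
      exact Nat.le_pow_clog (by norm_num) _
    exact (Nat.le_ceil _).trans (by exact_mod_cast h1)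
  obtain ⟨S, hS⟩ : ∃ S : Finset ℕ, S = (Finset.range (⌊(Real.log x) ^ 2⌋₊ + 1)).filter
      (fun i => ((2 ^ i * 2 ^ i0 : ℕ) : ℝ) ≤ (Real.log x) ^ 2 ∧
        ¬ (BoxF (q3 x Q' Q' Q') x (ε / 4) (kq x Q' Q' Q' (2 ^ i * 2 ^ i0)) (2 ^ i * 2 ^ i0) ∧
          AlmF (q3 x Q' Q' Q') x (ε / 4) (2 ^ i * 2 ^ i0))) := ⟨_, rfl⟩
  refine ⟨S.image (fun j => i0 + j), ?_, ?_⟩
  · refine Finset.card_image_le.trans ?_
    refine hM x hx1 Q' Q' Q' hPQ hPQ hPQ (2 ^ i0) hg S fun i hi => ?_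
    rw [hS, Finset.mem_filter] at hi
    exact hi.2
  intro i hi hKi hi2
  have hK1 : Real.log x ≤ ((2 ^ i : ℕ) : ℝ) := by
    refine le_trans ?_ hKi
    exact le_mul_of_one_le_left hL0.le (le_max_left _ _)
  have hi0i : i0 ≤ i := by
    rw [hi0]
    refine (Nat.clog_le_iff_le_pow (by norm_num)).2 ?_
    exact Nat.ceil_le.2 hK1
  obtain ⟨j, rfl⟩ := Nat.exists_eq_add_of_le hi0i
  have hpow : 2 ^ (i0 + j) = 2 ^ j * 2 ^ i0 := by
    rw [pow_add, mul_comm]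
  have hjS : j ∉ S := fun h => hi (Finset.mem_image.2 ⟨j, h, rfl⟩)
  obtain ⟨D, hD⟩ : ∃ D : ℕ, D = 2 ^ (i0 + j) := ⟨_, rfl⟩
  have hbox : BoxF (q3 x Q' Q' Q') x (ε / 4) (kq x Q' Q' Q' D) D := by
    rw [hD, hpow]
    by_contra hcon
    refine hjS ?_
    rw [hS, Finset.mem_filter, Finset.mem_range]
    rw [hpow] at hi2
    refine ⟨?_, hi2, fun h => hcon h.1⟩
    have h1 : j < 2 ^ j := Nat.lt_two_pow_self
    have h2 : 2 ^ j * 1 ≤ 2 ^ j * 2 ^ i0 := Nat.mul_le_mul_left _ Nat.one_le_two_pow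
    have h3 : 2 ^ j * 2 ^ i0 ≤ ⌊(Real.log x) ^ 2⌋₊ := Nat.le_floor hi2
    omega
  rw [← hD] at hKi hi2 hK1 ⊢
  have hD1 : 1 ≤ D := by
    rw [hD]
    exact Nat.one_le_two_pow
  have hD0 : (0 : ℝ) < D := by exact_mod_cast hD1
  have hk := hkq x hx2 Q' hPQ D hD1 (hi2.trans (pow_le_pow_right₀ hL (by norm_num)))
  have hdq : dq x Q' = (Q.card : ℝ) * Real.log x / x := Lo_dq hQ hQ'
  rw [hdq] at hk
  have hb := hbox 0 D 0 D (Nat.zero_le _) le_rfl (Nat.zero_le _) le_rfl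
  have hbl := (abs_le.1 hb).1
  rw [Nat.cast_zero, sub_zero] at hbl
  have hIoc : Finset.Ioc 0 D = Finset.Icc 1 D := by
    ext a
    rw [Finset.mem_Ioc, Finset.mem_Icc]
    omega
  have hq3 : ∑ a ∈ Finset.Ioc 0 D, ∑ b ∈ Finset.Ioc 0 D, q3 x Q' Q' Q' a b =
      ∑ a ∈ Finset.Icc 1 D, ∑ b ∈ Finset.Icc 1 D, (tc Q a b : ℝ) := by
    rw [hIoc]
    exact Finset.sum_congr rfl fun a ha => Finset.sum_congr rfl fun b hb =>
      Lo_q3 hQ hQ' (Finset.mem_Icc.1 ha).1 (Finset.mem_Icc.1 hb).1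
  rw [hq3] at hbl
  have hp := hpair x hx3 D hK1 hi2 Q hQ
  have hsplit : ∑ a ∈ Finset.Icc 1 D, ∑ b ∈ Finset.Icc 1 D, (tc Q a b : ℝ) =
      ∑ a ∈ Finset.Icc 1 D, ∑ b ∈ (Finset.Icc 1 D).erase a, (tc Q a b : ℝ) +
        ∑ a ∈ Finset.Icc 1 D, (pc Q a : ℝ) := by
    rw [← Finset.sum_add_distrib]
    refine Finset.sum_congr rfl fun a ha => ?_
    rw [← Finset.add_sum_erase _ _ ha, add_comm]
    congr 2
    unfold tc pc
    congr 1
    ext p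
    rw [Finset.mem_filter, Finset.mem_filter, and_self]
  have hgoal : ∑ d' ∈ Finset.Icc 1 D, ∑ d ∈ (Finset.Icc 1 D).erase d',
      (tc Q d' d : ℝ) * (Real.log x) ^ 3 / x =
      (∑ a ∈ Finset.Icc 1 D, ∑ b ∈ (Finset.Icc 1 D).erase a, (tc Q a b : ℝ)) *
        ((Real.log x) ^ 3 / x) := by
    rw [Finset.sum_mul]
    refine Finset.sum_congr rfl fun a _ => ?_
    rw [Finset.sum_mul]
    refine Finset.sum_congr rfl fun b _ => ?_
    ring
  rw [hgoal]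
  obtain ⟨Z, hZ⟩ : ∃ Z : ℝ, Z = (Real.log x) ^ 3 / x := ⟨_, rfl⟩
  have hZ0 : 0 < Z := by rw [hZ]; positivity
  have hZi : x / (Real.log x) ^ 3 * Z = 1 := by
    rw [hZ]
    field_simp
  rw [← hZ]
  obtain ⟨T, hT⟩ : ∃ T : ℝ, T = ∑ a ∈ Finset.Icc 1 D, ∑ b ∈ (Finset.Icc 1 D).erase a,
      (tc Q a b : ℝ) := ⟨_, rfl⟩
  obtain ⟨P, hP⟩ : ∃ P : ℝ, P = ∑ a ∈ Finset.Icc 1 D, (pc Q a : ℝ) := ⟨_, rfl⟩
  rw [hsplit, ← hT, ← hP] at hbl
  rw [← hT]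
  -- the diagonal
  have hPZ : P * Z ≤ ε / 2 * (D : ℝ) ^ 2 := by
    rw [← Finset.sum_mul, ← hP] at hp
    have h1 : P * Z = P * (Real.log x) ^ 2 * (Real.log x / x) := by
      rw [hZ]
      ring
    have h2 : P * (Real.log x) ^ 2 * (Real.log x / x) ≤ C * x * D * (Real.log x / x) :=
      mul_le_mul_of_nonneg_right hp (by positivity)
    have h3 : C * x * D * (Real.log x / x) = C * Real.log x * D := by
      field_simp
    have h4 : 2 * C / ε * Real.log x ≤ D :=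
      (mul_le_mul_of_nonneg_right (le_max_right _ _) hL0.le).trans hKi
    have h5 : C * Real.log x ≤ ε / 2 * D := by
      rw [div_mul_eq_mul_div, div_le_iff₀ hε] at h4
      linarith
    have h6 := mul_le_mul_of_nonneg_right h5 hD0.le
    rw [h1]
    refine h2.trans ?_
    rw [h3]
    refine h6.trans (le_of_eq (by ring))
  have h7 := mul_le_mul_of_nonneg_right hbl hZ0.le
  have h8 : -(ε / 4 * (D : ℝ) ^ 2 * (x / (Real.log x) ^ 3)) * Z = -(ε / 4 * (D : ℝ) ^ 2) := by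
    calc -(ε / 4 * (D : ℝ) ^ 2 * (x / (Real.log x) ^ 3)) * Z =
        -(ε / 4 * (D : ℝ) ^ 2) * (x / (Real.log x) ^ 3 * Z) := by ring
      _ = -(ε / 4 * (D : ℝ) ^ 2) := by rw [hZi, mul_one]
  have h9 : (T + P - kq x Q' Q' Q' D * (D : ℝ) * (D : ℝ) * (x / (Real.log x) ^ 3)) * Z =
      T * Z + P * Z - kq x Q' Q' Q' D * (D : ℝ) ^ 2 := by
    calc (T + P - kq x Q' Q' Q' D * (D : ℝ) * (D : ℝ) * (x / (Real.log x) ^ 3)) * Z =
        T * Z + P * Z - kq x Q' Q' Q' D * (D : ℝ) ^ 2 * (x / (Real.log x) ^ 3 * Z) := by ring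
      _ = _ := by rw [hZi, mul_one]
  rw [h8, h9] at h7
  have h10 : (((Q.card : ℝ) * Real.log x / x) ^ 3 - ε / 4) * (D : ℝ) ^ 2 ≤
      kq x Q' Q' Q' D * (D : ℝ) ^ 2 := mul_le_mul_of_nonneg_right hk (by positivity)
  have h11 : (((Q.card : ℝ) * Real.log x / x) ^ 3 - ε) * (D : ℝ) ^ 2 =
      (((Q.card : ℝ) * Real.log x / x) ^ 3 - ε / 4) * (D : ℝ) ^ 2 - 3 / 4 * (ε * (D : ℝ) ^ 2) := by
    ring
  rw [h11]
  linarith

end Pool.Agent.H39.AE
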