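import Pool.Agent.H39.AE.Prd

/-!
# Prd2: a product set of positive proportion on which the ratio is almost constant and equal to its essential supremum

Notation of `Prd` (`Pool/Agent/H39/AE/Prd.lean`). Call `(a, b)` good if `H² ≤ m S_ab` and `E_ab ≤ ε S_ab`. By `Prd` there is a good pair with `κ a b ≥ t - ε`; take a good pair `(a, b)` with the largest `κ a b`. For every pair of classes `(a', b')`: if it is good then `κ a' b' ≤ κ a b`, so `T - κ a b S ≤ T - κ a' b' S ≤ |T - κ a' b' S|` on the cell; if it is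
not good then `T - κ a b S ≤ T ≤ |T - κ a' b' S| + 16 S`, and the sum of `S` over the cells which are not good is at most `M² H²/m + (1/ε) (ε²/100) H² ≤ (ε/64 + ε/100) H²`. So `∑ max 0 (T - κ a b S) ≤ (ε²/100 + 16 (ε/64 + ε/100)) H² ≤ ε H²`.
-/

set_option autoImplicit false

namespace Pool.Agent.H39.AE

open Finset

theorem Prd2 (ε : ℝ) (hε : 0 < ε) (hε1 : ε ≤ 1) (H M m : ℕ) (hH : 1 ≤ H) (hM : 64 * (M : ℝ) ^ 2 ≤ ε * m) (c : ℕ → Fin M) (T S : ℕ → ℕ → ℝ)
    (hS : ∀ d' d, 0 ≤ S d' d) (κ : Fin M → Fin M → ℝ) (hκ : ∀ a b, 0 ≤ κ a b ∧ κ a b ≤ 16) (t : ℝ) (ht0 : 0 ≤ t) (ht : t ≤ 2)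
    (h1 : ∑ d' ∈ Finset.Icc 1 H, ∑ d ∈ (Finset.Icc 1 H).erase d', |T d' d - κ (c d') (c d) * S d' d| ≤ ε ^ 2 / 100 * (H : ℝ) ^ 2)
    (h2 : |∑ d' ∈ Finset.Icc 1 H, ∑ d ∈ (Finset.Icc 1 H).erase d', S d' d - (H : ℝ) ^ 2| ≤ ε ^ 2 / 100 * (H : ℝ) ^ 2)
    (h3 : (t - ε ^ 2 / 100) * (H : ℝ) ^ 2 ≤ ∑ d' ∈ Finset.Icc 1 H, ∑ d ∈ (Finset.Icc 1 H).erase d', κ (c d') (c d) * S d' d) :
    ∃ a b : Fin M, t - ε ≤ κ a b ∧
      ∑ d' ∈ Finset.Icc 1 H, ∑ d ∈ (Finset.Icc 1 H).erase d', max 0 (T d' d - κ a b * S d' d) ≤ ε * (H : ℝ) ^ 2 ∧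
      (H : ℝ) ^ 2 ≤ m * ∑ d' ∈ (Finset.Icc 1 H).filter (fun d => c d = a), ∑ d ∈ ((Finset.Icc 1 H).erase d').filter (fun d => c d = b), S d' d ∧
      ∑ d' ∈ (Finset.Icc 1 H).filter (fun d => c d = a), ∑ d ∈ ((Finset.Icc 1 H).erase d').filter (fun d => c d = b), |T d' d - κ a b * S d' d|
        ≤ ε * ∑ d' ∈ (Finset.Icc 1 H).filter (fun d => c d = a), ∑ d ∈ ((Finset.Icc 1 H).erase d').filter (fun d => c d = b), S d' d := by
  classical
  obtain ⟨a0, b0, hk0, hs0, he0⟩ := Prd ε hε hε1 H M m hH hM c T S hS κ hκ t ht0 ht h1 h2 h3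
  obtain ⟨SS, hSS⟩ : ∃ SS : Fin M → Fin M → ℝ, SS = fun a b => ∑ d' ∈ (Finset.Icc 1 H).filter (fun d => c d = a),
      ∑ d ∈ ((Finset.Icc 1 H).erase d').filter (fun d => c d = b), S d' d := ⟨_, rfl⟩
  obtain ⟨EE, hEE⟩ : ∃ EE : Fin M → Fin M → ℝ, EE = fun a b => ∑ d' ∈ (Finset.Icc 1 H).filter (fun d => c d = a),
      ∑ d ∈ ((Finset.Icc 1 H).erase d').filter (fun d => c d = b), |T d' d - κ a b * S d' d| := ⟨_, rfl⟩
  have hSSa : ∀ a b, SS a b = ∑ d' ∈ (Finset.Icc 1 H).filter (fun d => c d = a),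
      ∑ d ∈ ((Finset.Icc 1 H).erase d').filter (fun d => c d = b), S d' d := fun a b => by rw [hSS]
  have hEEa : ∀ a b, EE a b = ∑ d' ∈ (Finset.Icc 1 H).filter (fun d => c d = a),
      ∑ d ∈ ((Finset.Icc 1 H).erase d').filter (fun d => c d = b), |T d' d - κ a b * S d' d| := fun a b => by rw [hEE]
  have hSS0 : ∀ a b, 0 ≤ SS a b := by
    intro a b
    rw [hSSa]
    exact Finset.sum_nonneg fun _ _ => Finset.sum_nonneg fun _ _ => hS _ _
  have hEE0 : ∀ a b, 0 ≤ EE a b := by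
    intro a b
    rw [hEEa]
    exact Finset.sum_nonneg fun _ _ => Finset.sum_nonneg fun _ _ => abs_nonneg _
  have hsumE : ∑ a, ∑ b, EE a b = ∑ d' ∈ Finset.Icc 1 H, ∑ d ∈ (Finset.Icc 1 H).erase d', |T d' d - κ (c d') (c d) * S d' d| := by
    rw [hEE, ← Prd_fib H M c (fun d' d => |T d' d - κ (c d') (c d) * S d' d|)]
    refine Finset.sum_congr rfl fun a _ => Finset.sum_congr rfl fun b _ => Finset.sum_congr rfl fun d' hd' =>
      Finset.sum_congr rfl fun d hd => ?_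
    rw [(Finset.mem_filter.1 hd').2, (Finset.mem_filter.1 hd).2]
  have hM1 : (1 : ℝ) ≤ M := by
    have : 0 < M := Fin.pos (c 0)
    exact_mod_cast this
  have hm : (0 : ℝ) < m := by
    have h4 : (64 : ℝ) ≤ 64 * (M : ℝ) ^ 2 := by nlinarith
    have h5 : 0 < ε * m := by linarith
    exact pos_of_mul_pos_right h5 hε.le
  obtain ⟨R, hR⟩ : ∃ R : ℝ, R = (H : ℝ) ^ 2 := ⟨_, rfl⟩
  have hR0 : 0 ≤ R := by rw [hR]; positivity
  -- the best good cell
  obtain ⟨z, hz, hmax⟩ := Finset.exists_max_image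
    ((Finset.univ : Finset (Fin M × Fin M)).filter (fun z => R ≤ m * SS z.1 z.2 ∧ EE z.1 z.2 ≤ ε * SS z.1 z.2)) (fun z => κ z.1 z.2)
    ⟨(a0, b0), by
      rw [Finset.mem_filter]
      refine ⟨Finset.mem_univ _, ?_, ?_⟩
      · rw [hR, hSSa]; exact hs0
      · rw [hSSa, hEEa]; exact he0⟩
  rw [Finset.mem_filter] at hz
  have hk : κ a0 b0 ≤ κ z.1 z.2 := hmax (a0, b0) (by
      rw [Finset.mem_filter]
      refine ⟨Finset.mem_univ _, ?_, ?_⟩
      · rw [hR, hSSa]; exact hs0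
      · rw [hSSa, hEEa]; exact he0)
  refine ⟨z.1, z.2, hk0.trans hk, ?_, ?_, ?_⟩
  · rw [← hR] at h1 ⊢
    have hcard : ∑ _a : Fin M, ∑ _b : Fin M, R / m ≤ ε / 64 * R := by
      rw [Finset.sum_const, Finset.sum_const, Finset.card_univ, Fintype.card_fin, nsmul_eq_mul, nsmul_eq_mul]
      rw [← mul_assoc, ← mul_div_assoc, div_le_iff₀ hm]
      nlinarith
    have key : ∀ a b, ∑ d' ∈ (Finset.Icc 1 H).filter (fun d => c d = a), ∑ d ∈ ((Finset.Icc 1 H).erase d').filter (fun d => c d = b),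
        max 0 (T d' d - κ z.1 z.2 * S d' d) ≤ EE a b + 16 * (R / m) + 16 / ε * EE a b := by
      intro a b
      have e1 := hSS0 a b
      have e2 := hEE0 a b
      have e5 : 0 ≤ R / m := by positivity
      have e6 : 0 ≤ 16 / ε * EE a b := by positivity
      have gen : ∀ θ : ℝ, 0 ≤ θ → κ a b ≤ κ z.1 z.2 + θ →
          ∑ d' ∈ (Finset.Icc 1 H).filter (fun d => c d = a), ∑ d ∈ ((Finset.Icc 1 H).erase d').filter (fun d => c d = b),
            max 0 (T d' d - κ z.1 z.2 * S d' d) ≤ EE a b + θ * SS a b := by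
        intro θ hθ hle
        rw [hSSa, hEEa, Finset.mul_sum, ← Finset.sum_add_distrib]
        refine Finset.sum_le_sum fun d' _ => ?_
        rw [Finset.mul_sum, ← Finset.sum_add_distrib]
        refine Finset.sum_le_sum fun d _ => ?_
        have g1 := hS d' d
        have g2 := le_abs_self (T d' d - κ a b * S d' d)
        have g3 := abs_nonneg (T d' d - κ a b * S d' d)
        have g4 : κ a b * S d' d ≤ (κ z.1 z.2 + θ) * S d' d := mul_le_mul_of_nonneg_right hle g1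
        have g5 : 0 ≤ θ * S d' d := mul_nonneg hθ g1
        apply max_le
        · linarith
        · linarith
      by_cases hg : R ≤ m * SS a b ∧ EE a b ≤ ε * SS a b
      · have h6 : κ a b ≤ κ z.1 z.2 := hmax (a, b) (by
          rw [Finset.mem_filter]
          exact ⟨Finset.mem_univ _, hg⟩)
        have h7 := gen 0 le_rfl (by linarith)
        linarith
      · have h7 := gen 16 (by norm_num) (by linarith [(hκ a b).2, (hκ z.1 z.2).1])
        rw [not_and_or, not_le, not_le] at hg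
        rcases hg with h' | h'
        · have h6 : SS a b ≤ R / m := by
            rw [le_div_iff₀ hm]
            linarith
          linarith
        · have h8 : 16 * SS a b ≤ 16 / ε * EE a b := by
            rw [div_mul_eq_mul_div, le_div_iff₀ hε]
            linarith
          linarith
    rw [← Prd_fib H M c (fun d' d => max 0 (T d' d - κ z.1 z.2 * S d' d))]
    have key2 : ∑ a : Fin M, ∑ b : Fin M, ∑ d' ∈ (Finset.Icc 1 H).filter (fun d => c d = a),
        ∑ d ∈ ((Finset.Icc 1 H).erase d').filter (fun d => c d = b), max 0 (T d' d - κ z.1 z.2 * S d' d) ≤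
        ∑ a, ∑ b, EE a b + 16 * ∑ _a : Fin M, ∑ _b : Fin M, R / m + 16 / ε * ∑ a, ∑ b, EE a b := by
      refine (Finset.sum_le_sum fun a _ => Finset.sum_le_sum fun b _ => key a b).trans (le_of_eq ?_)
      simp only [Finset.sum_add_distrib, ← Finset.mul_sum]
    rw [← hsumE] at h1
    have k2 : 16 / ε * ∑ a, ∑ b, EE a b ≤ 16 / ε * (ε ^ 2 / 100 * R) :=
      mul_le_mul_of_nonneg_left h1 (by positivity)
    have k3 : 16 / ε * (ε ^ 2 / 100 * R) = 16 / 100 * ε * R := by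
      field_simp
    have k5 : 0 ≤ ε * R := by positivity
    have k6 : ε ^ 2 * R ≤ ε * R := by nlinarith
    linarith
  · have := hz.2.1
    rw [hR, hSSa] at this
    exact this
  · have := hz.2.2
    rw [hSSa, hEEa] at this
    exact this

end Pool.Agent.H39.AE
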