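import Pool.Agent.H39.AE.Pw
import Pool.Agent.H12.DM.Bb

/-!
# Sa: the truncated singular series of a pair of differences, and the mean of the singular series

`Sy y s = avgP (WW y) (t ↦ ∏_{h∈s} Mm y (t - h))` (`Pool/Agent/H6/AE/Sgm.lean`), `Y = WW y`, `avgP P G = (∑_{m<P} G m)/P`.
* `Sa_eq`: for `0, d', d` distinct, `∏_{h∈{0,d',d}} Mm y (t-h) = Mm y t * Mm y (t-d') * Mm y (t-d)` (as `Bb_sW3` in `Pool/Agent/H12/DM/Bb.lean`, with `yy x` replaced by `y`).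
* `Sa_res`: `Mm y` is `Y`-periodic (`Mm_period`), so by `Sa_eq` the value depends only on `d' % Y`, `d % Y`.
* `Sa`: by `Pw_sing (ε/2)` with `y = y₀` it is enough that `|∑_{d'≠d} Sy y₀ {0,d',d} - H²| ≤ (ε/2) H²` for `H ≥ log x`, `x` large (`y₀` is fixed). By `Sa_eq`, `∑_{d'} ∑_{d≠d'} Sy = avgP Y (t ↦ M(t) (A(t)² - ∑_{d≤H} M(t-d)²))`, `M = Mm y₀`, `A(t) = ∑_{1≤d≤H} M(t-d)`,
  `H - Y ≤ A(t) ≤ H + Y` (`Mm_le_sum`, `Mm_ge_sum`, `Ioc 0 H = Icc 1 H`), `0 ≤ ∑ M(t-d)² ≤ wp y₀ * A(t)` (`Mm_le`, `Mm_nonneg`), `avgP Y M = 1` (`Bb_avgM`). So the sum lies between `(H-Y)² - wp y₀ (H+Y)` (if `H ≥ Y`) and `(H+Y)²`.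
-/

set_option autoImplicit false

namespace Pool.Agent.H39.AE

open Finset Pool.Agent.H17 Pool.Agent.H6.MF Pool.Agent.H6.MB Pool.Agent.H12.DM Pool.Agent.H12.DN Pool.Agent.H96.AE Pool.Agent.H6.AE

theorem Sa_eq (y : ℕ) {d' d : ℤ} (h1 : d' ≠ 0) (h2 : d ≠ 0) (h : d' ≠ d) :
    Sy y {0, d', d} = avgP (WW y) (fun t => Mm y t * Mm y (t - d') * Mm y (t - d)) := by
  unfold Sy
  congr 1
  funext m
  rw [Finset.prod_insert (by simp [h1.symm, h2.symm]), Finset.prod_insert (by simpa using h),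
    Finset.prod_singleton, sub_zero]
  ring

lemma Sa_per (y : ℕ) {d e : ℕ} (hr : d % WW y = e % WW y) (t : ℤ) :
    Mm y (t - (d : ℤ)) = Mm y (t - (e : ℤ)) := by
  have h1 : ((e : ℤ)) ≡ (d : ℤ) [ZMOD (WW y : ℤ)] := by
    exact (Int.natCast_modEq_iff.2 hr).symm
  obtain ⟨k, hk⟩ := h1.dvd
  have h2 : t - (e : ℤ) = (t - (d : ℤ)) + k * (WW y : ℤ) := by
    have h3 : (d : ℤ) - e = k * (WW y : ℤ) := by rw [hk, mul_comm]
    linarith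
  rw [h2, Mm_period]

theorem Sa_res (y : ℕ) {d' d e' e : ℕ} (h1 : 1 ≤ d') (h2 : 1 ≤ d) (h : d ≠ d') (h1' : 1 ≤ e') (h2' : 1 ≤ e) (h' : e ≠ e')
    (hr' : d' % WW y = e' % WW y) (hr : d % WW y = e % WW y) :
    Sy y {0, (d' : ℤ), (d : ℤ)} = Sy y {0, (e' : ℤ), (e : ℤ)} := by
  rw [Sa_eq y (by omega) (by omega) (by omega), Sa_eq y (by omega) (by omega) (by omega)]
  congr 1
  funext t
  rw [Sa_per y hr' t, Sa_per y hr t]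

lemma Sa_cast (H : ℕ) (f : ℤ → ℝ) :
    ∑ d ∈ Finset.Icc 1 H, f (d : ℤ) = ∑ d ∈ Finset.Icc 1 (H : ℤ), f d := by
  refine Finset.sum_nbij' (fun d : ℕ => (d : ℤ)) (fun a : ℤ => a.toNat) ?_ ?_ ?_ ?_ ?_
  · intro a ha
    rw [Finset.mem_Icc] at ha ⊢
    omega
  · intro a ha
    rw [Finset.mem_Icc] at ha ⊢
    omega
  · intro a _
    simp
  · intro a ha
    rw [Finset.mem_Icc] at ha
    omega
  · intro a _
    rfl

lemma Sa_inner (y H : ℕ) (t : ℤ) :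
    ∑ d' ∈ Finset.Icc 1 H, ∑ d ∈ (Finset.Icc 1 H).erase d', Mm y t * Mm y (t - (d' : ℤ)) * Mm y (t - (d : ℤ))
      = Mm y t * ((∑ d ∈ Finset.Icc 1 H, Mm y (t - (d : ℤ))) ^ 2
        - ∑ d ∈ Finset.Icc 1 H, Mm y (t - (d : ℤ)) ^ 2) := by
  have h1 : ∀ d' ∈ Finset.Icc 1 H, ∑ d ∈ (Finset.Icc 1 H).erase d',
      Mm y t * Mm y (t - (d' : ℤ)) * Mm y (t - (d : ℤ)) =
      Mm y t * (Mm y (t - (d' : ℤ)) * (∑ d ∈ Finset.Icc 1 H, Mm y (t - (d : ℤ))) - Mm y (t - (d' : ℤ)) ^ 2) := by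
    intro d' hd'
    rw [← Finset.mul_sum, ← Finset.sum_erase_add _ _ hd']
    ring
  rw [Finset.sum_congr rfl h1, ← Finset.mul_sum, Finset.sum_sub_distrib, ← Finset.sum_mul, sq]

lemma Sa_bd (y H : ℕ) (t : ℤ) (hY : (WW y : ℝ) ≤ H) (hH : (1 : ℝ) ≤ H) :
    |((∑ d ∈ Finset.Icc 1 H, Mm y (t - (d : ℤ))) ^ 2
        - ∑ d ∈ Finset.Icc 1 H, Mm y (t - (d : ℤ)) ^ 2) - (H : ℝ) ^ 2|
      ≤ (2 * (WW y : ℝ) + wp y + (WW y : ℝ) ^ 2 + wp y * (WW y : ℝ)) * H := by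
  have hA := Bb_win y H t
  rw [← Sa_cast H (fun d => Mm y (t - d))] at hA
  obtain ⟨A, hAd⟩ : ∃ A : ℝ, A = ∑ d ∈ Finset.Icc 1 H, Mm y (t - (d : ℤ)) := ⟨_, rfl⟩
  obtain ⟨B, hBd⟩ : ∃ B : ℝ, B = ∑ d ∈ Finset.Icc 1 H, Mm y (t - (d : ℤ)) ^ 2 := ⟨_, rfl⟩
  rw [← hAd] at hA
  rw [← hAd, ← hBd]
  have hB0 : 0 ≤ B := by
    rw [hBd]
    exact Finset.sum_nonneg fun d _ => sq_nonneg _
  have hB1 : B ≤ wp y * A := by
    rw [hBd, hAd, Finset.mul_sum]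
    refine Finset.sum_le_sum fun d _ => ?_
    rw [sq]
    exact mul_le_mul_of_nonneg_right (Mm_le y _) (Mm_nonneg y _)
  rw [abs_le] at hA
  have hY0 : 0 ≤ (WW y : ℝ) := (WW_pos_real y).le
  have hw0 : 0 ≤ wp y := (wp_pos y).le
  have hA0 : 0 ≤ A := by linarith
  have h1 : B ≤ wp y * (H + (WW y : ℝ)) := by
    refine hB1.trans (mul_le_mul_of_nonneg_left (by linarith) hw0)
  have h2 : A ^ 2 ≤ (H + (WW y : ℝ)) ^ 2 := by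
    apply pow_le_pow_left₀ hA0
    linarith
  have h3 : ((H : ℝ) - (WW y : ℝ)) ^ 2 ≤ A ^ 2 := by
    apply pow_le_pow_left₀ (by linarith)
    linarith
  have h4 : (WW y : ℝ) ^ 2 ≤ (WW y : ℝ) ^ 2 * H := le_mul_of_one_le_right (sq_nonneg _) hH
  have h5 : wp y * (WW y : ℝ) ≤ wp y * (WW y : ℝ) * H := le_mul_of_one_le_right (by positivity) hH
  rw [abs_le]
  constructor
  · nlinarith
  · nlinarith

theorem Sa (ε : ℝ) (hε : 0 < ε) : ∃ X : ℝ, ∀ x : ℝ, X ≤ x → ∀ H : ℕ, Real.log x ≤ (H : ℝ) → (H : ℝ) ≤ (Real.log x) ^ 2 →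
    |∑ d' ∈ Finset.Icc 1 H, ∑ d ∈ (Finset.Icc 1 H).erase d', sing {0, (d' : ℤ), (d : ℤ)} - (H : ℝ) ^ 2| ≤ ε * (H : ℝ) ^ 2 := by
  obtain ⟨y, X₀, hy1, hX₀⟩ := Pw_sing (ε / 2) (by positivity)
  obtain ⟨c, hc⟩ : ∃ c : ℝ, c = 2 * (WW y : ℝ) + wp y + (WW y : ℝ) ^ 2 + wp y * (WW y : ℝ) := ⟨_, rfl⟩
  have hY0 : 0 < (WW y : ℝ) := WW_pos_real y
  have hw0 : 0 < wp y := wp_pos y
  have hc0 : 0 < c := by rw [hc]; positivity
  refine ⟨max X₀ (Real.exp (2 * c / ε + (WW y : ℝ) + 1)), fun x hx H hH1 hH2 => ?_⟩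
  have hlog : 2 * c / ε + (WW y : ℝ) + 1 ≤ Real.log x := by
    have h1 : Real.exp (2 * c / ε + (WW y : ℝ) + 1) ≤ x := le_trans (le_max_right _ _) hx
    have h2 := Real.log_le_log (Real.exp_pos _) h1
    rwa [Real.log_exp] at h2
  have hcε : 0 < 2 * c / ε := by positivity
  have hHY : (WW y : ℝ) ≤ H := by linarith
  have hH1' : (1 : ℝ) ≤ H := by linarith
  have hHc : 2 * c / ε ≤ H := by linarith
  have h1 := hX₀ x (le_trans (le_max_left _ _) hx) H hH1 hH2 y le_rfl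
  have h2 : |∑ d' ∈ Finset.Icc 1 H, ∑ d ∈ (Finset.Icc 1 H).erase d', Sy y {0, (d' : ℤ), (d : ℤ)} - (H : ℝ) ^ 2|
      ≤ ε / 2 * (H : ℝ) ^ 2 := by
    have e1 : ∑ d' ∈ Finset.Icc 1 H, ∑ d ∈ (Finset.Icc 1 H).erase d', Sy y {0, (d' : ℤ), (d : ℤ)}
        = avgP (WW y) (fun t => ∑ d' ∈ Finset.Icc 1 H, ∑ d ∈ (Finset.Icc 1 H).erase d',
            Mm y t * Mm y (t - (d' : ℤ)) * Mm y (t - (d : ℤ))) := by
      rw [← Bb_avg_sum]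
      refine Finset.sum_congr rfl fun d' hd' => ?_
      rw [← Bb_avg_sum]
      refine Finset.sum_congr rfl fun d hd => ?_
      rw [Finset.mem_Icc] at hd'
      rw [Finset.mem_erase, Finset.mem_Icc] at hd
      exact Sa_eq y (by omega) (by omega) (by omega)
    have e2 : (H : ℝ) ^ 2 = avgP (WW y) (fun t => Mm y t * (H : ℝ) ^ 2) := by
      rw [Bb_avg_smul, Bb_avgM, one_mul]
    rw [e1, e2, Bb_avg_sub]
    have e3 : avgP (WW y) (fun t => Mm y t * (c * H)) ≤ ε / 2 * (H : ℝ) ^ 2 := by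
      rw [Bb_avg_smul, Bb_avgM, one_mul]
      rw [div_le_iff₀ hε] at hHc
      nlinarith
    rw [← e2]
    refine le_trans (Bb_avg_abs _ (fun t => Mm y t * (c * H)) fun t => ?_) e3
    rw [Sa_inner, ← mul_sub, abs_mul, abs_of_nonneg (Mm_nonneg y t), hc]
    exact mul_le_mul_of_nonneg_left (Sa_bd y H t hHY hH1') (Mm_nonneg y t)
  have h3 : |∑ d' ∈ Finset.Icc 1 H, ∑ d ∈ (Finset.Icc 1 H).erase d', sing {0, (d' : ℤ), (d : ℤ)}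
      - ∑ d' ∈ Finset.Icc 1 H, ∑ d ∈ (Finset.Icc 1 H).erase d', Sy y {0, (d' : ℤ), (d : ℤ)}|
      ≤ ε / 2 * (H : ℝ) ^ 2 := by
    rw [← Finset.sum_sub_distrib]
    refine (Finset.abs_sum_le_sum_abs _ _).trans (le_trans ?_ h1)
    refine Finset.sum_le_sum fun d' _ => ?_
    rw [← Finset.sum_sub_distrib]
    exact Finset.abs_sum_le_sum_abs _ _
  have h4 := abs_sub_le (∑ d' ∈ Finset.Icc 1 H, ∑ d ∈ (Finset.Icc 1 H).erase d', sing {0, (d' : ℤ), (d : ℤ)})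
    (∑ d' ∈ Finset.Icc 1 H, ∑ d ∈ (Finset.Icc 1 H).erase d', Sy y {0, (d' : ℤ), (d : ℤ)}) ((H : ℝ) ^ 2)
  linarith

end Pool.Agent.H39.AE
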