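import Pool.Agent.H12.DN.Qh1

/-!
# St: a trigonometric polynomial is almost constant on cells

`R = ⌈40 m³/ε⌉₊ + 1`. `M = Y * R^m` (`m ≥ n`). For `d : ℕ` let the cell of `d` be `(d % Y, (⌊R * Int.fract (α j * d)⌋₊)_{j < n})`, with `⌊R * fract⌋₊ < R`; for `j ≥ n` put `0`. The set of cells is `Fin Y × (Fin m → Fin R)`, of cardinality `Y R^m`; `c` = composition with an equivalence of it with `Fin M`
(`Fintype.equivFinOfCardEq`, or `finProdFinEquiv` / `finFunctionFinEquiv`).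
If `c d = c e` then `d % Y = e % Y` and for each `j` the numbers `α j * d` and `α j * e` differ by an integer plus a number `θ_j(d, e)` with `|θ_j| ≤ 1/R`. So if `c d' = c e'` and `c d = c e` then the arguments `α j d' + α l d` and `α j e' + α l e` differ by an integer plus a number of absolute value `≤ 2/R`, hence
the cosines and sines of `2π` times them differ by at most `4π/R ≤ 13/R` (`Qf2_cos`, `Qf2_sin` in `Pool/Agent/H12/DN/Qf2.lean` may be copied; or `Real.cos_add_int_mul_two_pi`, `|cos a - cos b| ≤ |a - b|`). There are at most `m²` pairs `(j, l)`, each contributes at most `2 m * 13/R`: total `26 m³/R ≤ ε`.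
(For `m = 0`: `S3 = 0`.)
-/

set_option autoImplicit false

namespace Pool.Agent.H39.AE

open Finset Pool.Agent.H12.DN

lemma St_cos (a c : ℝ) (z : ℤ) :
    |Real.cos (2 * Real.pi * a) - Real.cos (2 * Real.pi * c)| ≤ 8 * |a - c - z| := by
  have h1 : Real.cos (2 * Real.pi * a) = Real.cos (2 * Real.pi * a - z * (2 * Real.pi)) :=
    (Real.cos_sub_int_mul_two_pi _ z).symm
  rw [h1]
  refine (Real.abs_cos_sub_cos_le _ _).trans ?_
  have h2 : 2 * Real.pi * a - z * (2 * Real.pi) - 2 * Real.pi * c = 2 * Real.pi * (a - c - z) := by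
    ring
  rw [h2, abs_mul, abs_of_pos (by positivity : 0 < 2 * Real.pi)]
  refine mul_le_mul_of_nonneg_right ?_ (abs_nonneg _)
  linarith [Real.pi_le_four]

lemma St_sin (a c : ℝ) (z : ℤ) :
    |Real.sin (2 * Real.pi * a) - Real.sin (2 * Real.pi * c)| ≤ 8 * |a - c - z| := by
  have h1 : Real.sin (2 * Real.pi * a) = Real.sin (2 * Real.pi * a - z * (2 * Real.pi)) :=
    (Real.sin_sub_int_mul_two_pi _ z).symm
  rw [h1]
  refine (Real.abs_sin_sub_sin_le _ _).trans ?_
  have h2 : 2 * Real.pi * a - z * (2 * Real.pi) - 2 * Real.pi * c = 2 * Real.pi * (a - c - z) := by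
    ring
  rw [h2, abs_mul, abs_of_pos (by positivity : 0 < 2 * Real.pi)]
  refine mul_le_mul_of_nonneg_right ?_ (abs_nonneg _)
  linarith [Real.pi_le_four]

lemma St_fl {R : ℕ} (hR : 0 < R) (s : ℝ) : ⌊(R : ℝ) * Int.fract s⌋₊ < R := by
  have hR' : (0 : ℝ) < R := by exact_mod_cast hR
  rw [Nat.floor_lt (mul_nonneg hR'.le (Int.fract_nonneg s))]
  calc (R : ℝ) * Int.fract s < R * 1 := mul_lt_mul_of_pos_left (Int.fract_lt_one s) hR'
    _ = R := mul_one _

lemma St_close {R : ℕ} (hR : 0 < R) (s t : ℝ) (h : ⌊(R : ℝ) * Int.fract s⌋₊ = ⌊(R : ℝ) * Int.fract t⌋₊) :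
    |s - t - ((⌊s⌋ - ⌊t⌋ : ℤ) : ℝ)| ≤ 1 / R := by
  have hR' : (0 : ℝ) < R := by exact_mod_cast hR
  have e1 : s - t - ((⌊s⌋ - ⌊t⌋ : ℤ) : ℝ) = Int.fract s - Int.fract t := by
    rw [Int.fract, Int.fract]
    push_cast
    ring
  rw [e1]
  have a1 := Nat.floor_le (mul_nonneg hR'.le (Int.fract_nonneg s))
  have a2 := Nat.lt_floor_add_one ((R : ℝ) * Int.fract s)
  have b1 := Nat.floor_le (mul_nonneg hR'.le (Int.fract_nonneg t))
  have b2 := Nat.lt_floor_add_one ((R : ℝ) * Int.fract t)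
  rw [h] at a1 a2
  rw [le_div_iff₀ hR', ← abs_of_pos hR', ← abs_mul, abs_le]
  constructor <;> nlinarith

theorem St (ε : ℝ) (hε : 0 < ε) (m Y : ℕ) (hY : 1 ≤ Y) : ∃ M : ℕ, 1 ≤ M ∧ ∀ (n : ℕ) (α : Fin n → ℝ), n ≤ m →
    ∃ c : ℕ → Fin M, (∀ d e, c d = c e → d % Y = e % Y) ∧
      ∀ (p q : Fin n → Fin n → ℝ), (∀ j l, |p j l| ≤ m ∧ |q j l| ≤ m) → ∀ d' d e' e : ℕ, c d' = c e' → c d = c e →
        |S3 α p q d' d - S3 α p q e' e| ≤ ε := by
  obtain ⟨R, hRd⟩ : ∃ R : ℕ, R = ⌈40 * (m : ℝ) ^ 3 / ε⌉₊ + 1 := ⟨_, rfl⟩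
  have hR : 0 < R := by omega
  have hR' : (0 : ℝ) < R := by exact_mod_cast hR
  have hRb : 40 * (m : ℝ) ^ 3 / ε ≤ R := by
    rw [hRd]
    push_cast
    linarith [Nat.le_ceil (40 * (m : ℝ) ^ 3 / ε)]
  have hcard : Fintype.card (Fin Y × (Fin m → Fin R)) = Y * R ^ m := by simp
  obtain ⟨E⟩ : Nonempty ((Fin Y × (Fin m → Fin R)) ≃ Fin (Y * R ^ m)) := ⟨Fintype.equivFinOfCardEq hcard⟩
  refine ⟨Y * R ^ m, Nat.mul_pos hY (pow_pos hR m), fun n α hn => ?_⟩
  obtain ⟨g, hg⟩ : ∃ g : ℕ → Fin Y × (Fin m → Fin R), g = (fun d : ℕ => ((⟨d % Y, Nat.mod_lt _ hY⟩ : Fin Y),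
      fun j : Fin m => if h : (j : ℕ) < n then (⟨⌊(R : ℝ) * Int.fract (α ⟨j, h⟩ * d)⌋₊, St_fl hR _⟩ : Fin R)
        else ⟨0, hR⟩)) := ⟨_, rfl⟩
  refine ⟨fun d => E (g d), ?_, ?_⟩
  · intro d e h
    have h1 : g d = g e := E.injective h
    rw [hg] at h1
    have h2 := congrArg (fun z : Fin Y × (Fin m → Fin R) => (z.1 : ℕ)) h1
    simpa using h2
  · intro p q hpq d' d e' e h' h
    have key : ∀ a b : ℕ, E (g a) = E (g b) → ∀ j : Fin n,
        |α j * a - α j * b - ((⌊α j * a⌋ - ⌊α j * b⌋ : ℤ) : ℝ)| ≤ 1 / R := by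
      intro a b hab j
      have h1 : g a = g b := E.injective hab
      rw [hg] at h1
      have h2 := congrArg (fun z : Fin Y × (Fin m → Fin R) => (z.2 ⟨j, lt_of_lt_of_le j.2 hn⟩ : ℕ)) h1
      simp only [Fin.is_lt, dite_true, Fin.eta] at h2
      exact St_close hR _ _ h2
    have k' := key d' e' h'
    have k := key d e h
    unfold S3
    rw [← Finset.sum_sub_distrib]
    have hn' : (n : ℝ) ≤ m := by exact_mod_cast hn
    have hm0 : (0 : ℝ) ≤ m := Nat.cast_nonneg m
    have hn0 : (0 : ℝ) ≤ n := Nat.cast_nonneg n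
    have hone : ∀ j l : Fin n,
        |(p j l * Real.cos (2 * Real.pi * (α j * d' + α l * d)) + q j l * Real.sin (2 * Real.pi * (α j * d' + α l * d))) -
          (p j l * Real.cos (2 * Real.pi * (α j * e' + α l * e)) + q j l * Real.sin (2 * Real.pi * (α j * e' + α l * e)))|
          ≤ m * (32 / R) := by
      intro j l
      have c1 := St_cos (α j * d' + α l * d) (α j * e' + α l * e)
        ((⌊α j * d'⌋ - ⌊α j * e'⌋) + (⌊α l * d⌋ - ⌊α l * e⌋))
      have s1 := St_sin (α j * d' + α l * d) (α j * e' + α l * e)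
        ((⌊α j * d'⌋ - ⌊α j * e'⌋) + (⌊α l * d⌋ - ⌊α l * e⌋))
      have z1 : |α j * d' + α l * d - (α j * e' + α l * e) -
          (((⌊α j * d'⌋ - ⌊α j * e'⌋) + (⌊α l * d⌋ - ⌊α l * e⌋) : ℤ) : ℝ)| ≤ 2 / R := by
        have e1 : α j * d' + α l * d - (α j * e' + α l * e) -
          (((⌊α j * d'⌋ - ⌊α j * e'⌋) + (⌊α l * d⌋ - ⌊α l * e⌋) : ℤ) : ℝ) =
          (α j * d' - α j * e' - ((⌊α j * d'⌋ - ⌊α j * e'⌋ : ℤ) : ℝ)) +
          (α l * d - α l * e - ((⌊α l * d⌋ - ⌊α l * e⌋ : ℤ) : ℝ)) := by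
          push_cast
          ring
        rw [e1]
        refine (abs_add_le _ _).trans ?_
        have := k' j
        have := k l
        have e2 : (2 : ℝ) / R = 1 / R + 1 / R := by ring
        rw [e2]
        linarith
      have c2 : |Real.cos (2 * Real.pi * (α j * d' + α l * d)) - Real.cos (2 * Real.pi * (α j * e' + α l * e))| ≤ 16 / R := by
        have e2 : (16 : ℝ) / R = 8 * (2 / R) := by ring
        rw [e2]
        linarith
      have s2 : |Real.sin (2 * Real.pi * (α j * d' + α l * d)) - Real.sin (2 * Real.pi * (α j * e' + α l * e))| ≤ 16 / R := by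
        have e2 : (16 : ℝ) / R = 8 * (2 / R) := by ring
        rw [e2]
        linarith
      have e3 : (p j l * Real.cos (2 * Real.pi * (α j * d' + α l * d)) + q j l * Real.sin (2 * Real.pi * (α j * d' + α l * d))) -
          (p j l * Real.cos (2 * Real.pi * (α j * e' + α l * e)) + q j l * Real.sin (2 * Real.pi * (α j * e' + α l * e))) =
          p j l * (Real.cos (2 * Real.pi * (α j * d' + α l * d)) - Real.cos (2 * Real.pi * (α j * e' + α l * e))) +
          q j l * (Real.sin (2 * Real.pi * (α j * d' + α l * d)) - Real.sin (2 * Real.pi * (α j * e' + α l * e))) := by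
        ring
      rw [e3]
      refine (abs_add_le _ _).trans ?_
      rw [abs_mul, abs_mul]
      have m1 := mul_le_mul (hpq j l).1 c2 (abs_nonneg _) hm0
      have m2 := mul_le_mul (hpq j l).2 s2 (abs_nonneg _) hm0
      have e4 : (m : ℝ) * (32 / R) = m * (16 / R) + m * (16 / R) := by ring
      rw [e4]
      exact add_le_add m1 m2
    have hrow : ∀ j : Fin n, |∑ l, (p j l * Real.cos (2 * Real.pi * (α j * d' + α l * d)) + q j l * Real.sin (2 * Real.pi * (α j * d' + α l * d))) -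
          ∑ l, (p j l * Real.cos (2 * Real.pi * (α j * e' + α l * e)) + q j l * Real.sin (2 * Real.pi * (α j * e' + α l * e)))|
          ≤ n * (m * (32 / R)) := by
      intro j
      rw [← Finset.sum_sub_distrib]
      refine (Finset.abs_sum_le_sum_abs _ _).trans ?_
      refine (Finset.sum_le_sum fun l _ => hone j l).trans ?_
      simp
    refine (Finset.abs_sum_le_sum_abs _ _).trans ?_
    refine (Finset.sum_le_sum fun j _ => hrow j).trans ?_
    rw [Finset.sum_const, Finset.card_univ, Fintype.card_fin, nsmul_eq_mul]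
    have hx : 0 ≤ 32 / (R : ℝ) := by positivity
    calc (n : ℝ) * (n * (m * (32 / R))) ≤ m * (m * (m * (32 / R))) := by
          have h1 : (n : ℝ) * (m * (32 / R)) ≤ m * (m * (32 / R)) :=
            mul_le_mul_of_nonneg_right hn' (mul_nonneg hm0 hx)
          exact mul_le_mul hn' h1 (mul_nonneg hn0 (mul_nonneg hm0 hx)) hm0
      _ = 32 * (m : ℝ) ^ 3 / R := by ring
      _ ≤ ε := by
          rw [div_le_iff₀ hR']
          have h2 : 40 * (m : ℝ) ^ 3 ≤ R * ε := by
            rw [div_le_iff₀ hε] at hRb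
            exact hRb
          have h3 : (0 : ℝ) ≤ (m : ℝ) ^ 3 := by positivity
          nlinarith

end Pool.Agent.H39.AE
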