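import Pool.Agent.H39.AE.Qi3
import Pool.Agent.H39.AE.Sa
import Pool.Agent.H39.AE.St
import Pool.Agent.H39.AE.Ka
import Pool.Agent.H39.AE.Prd2
import Pool.Agent.H39.AE.Lo

/-!
# Fi3: the final theorem of part T3

Let `e = min ε 1`, `η = e²/8000`, `t = (|Q| L/x)³`, `L = log x`, `H = 2^i`. All sums over `d' ∈ Icc 1 H`, `d ∈ (Icc 1 H).erase d'`.
* `m₀, Y` from `Qi3 η`; `y₀ ≥ 1` from `Pw_sing η`; `M₀` from `St η m₀ (WW y₀)`; `m = max m₀ (max M₀ ⌈64 M₀²/e⌉₊)`. Given `δ`: `J₁` from `Qi3`, `M₂` from `Lo (e²/200)`, `J = J₁ + M₂`, `K`, `X` = maxima of all constants (`K ≥ 1`; also `Pw_up η`, `Sa (e²/100)`), and `X` so large that `t ≤ 2` for every set `Q` of primes `≤ x`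
  (`|Q| ≤ π(⌊x⌋₊)` and `pi_tendsto`, see `Mo1` in `Pool/Agent/H12/DM/Mp.lean`: the number of primes `≤ x` times `L/x` tends to `1`, so `|Q| L/x ≤ 6/5`, `(6/5)³ ≤ 2`). `bad = bad₁ ∪ bad₂`.
* For `i ∉ bad`: `n, α, τ, p, q` from `Qi3` (bounds `≤ m₀ ≤ m`; all errors `η ≤ ε`). `c : ℕ → Fin M₀` from `St` for this `α`. `Ka` with `M = M₀`, `T d' d = tc Q d' d * L³/x`, `P = S3 α p q`, `S d' d = sing {0, d', d}` (`≥ 0`: `sing_nonneg`), `s d' d = Sy y₀ {0, d', d}` (`≥ 0`: `Sy_nonneg`):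
  `h1` = `Qi3`, `h2` = `Pw_up`, `h3` = `Pw_sing`, `h4` = `St` and `Sa_res` (`c d = c e` implies `d % WW y₀ = e % WW y₀`). It gives `κ` with `∑ |T - κ S| ≤ 40 η H² = (e²/200) H²`.
* `∑ κ(c d')(c d) S ≥ ∑ T - (e²/200) H² ≥ (t - e²/100) H²` (`Lo (e²/200)`).
* `Prd e` with `M = M₀`, `m`, `h2` = `Sa (e²/100)`: `a, b`. Put `B' = (Icc 1 H).filter (c · = a)`, `B = (Icc 1 H).filter (c · = b)`, `k = κ a b` (`((Icc 1 H).erase d').filter _ = B.erase d'`: `Finset.erase_filter`/`Finset.filter_erase`).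
* Replace the classes `Fin M₀` by `Fin m` (`M₀ ≤ m`): `c' d = Fin.castLE _ (c d)`, `κ' a b = if h : a.val < M₀ ∧ b.val < M₀ then κ ⟨a.val, h.1⟩ ⟨b.val, h.2⟩ else 0`.
-/

set_option autoImplicit false

namespace Pool.Agent.H39.AE

open Finset Pool.Agent.H17 Pool.Agent.H6.MF Pool.Agent.H6.MB Pool.Agent.H12.DM Pool.Agent.H12.DN Pool.Agent.H96.AE Pool.Agent.H6.AE

/-- for a set `Q` of primes up to `x` the cube of `|Q| log x / x` is at most `2` -/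
lemma Fi3_t : ∃ X : ℝ, ∀ x : ℝ, X ≤ x → ∀ Q : Finset ℕ, (∀ p ∈ Q, p.Prime ∧ (p : ℝ) ≤ x) →
    0 ≤ ((Q.card : ℝ) * Real.log x / x) ^ 3 ∧ ((Q.card : ℝ) * Real.log x / x) ^ 3 ≤ 2 := by
  have e1 := pi_tendsto.eventually_le_const (show (1 : ℝ) < 6 / 5 by norm_num)
  obtain ⟨X, hX⟩ := Filter.eventually_atTop.mp e1
  refine ⟨max X 1, fun x hx Q hQ => ?_⟩
  have hxX : X ≤ x := (le_max_left _ _).trans hx
  have hx1 : 1 ≤ x := (le_max_right _ _).trans hx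
  have hx0 : 0 < x := by linarith
  have hL : 0 ≤ Real.log x := Real.log_nonneg hx1
  have h1 := hX x hxX
  have h2 : Q.card ≤ Nat.primeCounting ⌊x⌋₊ := by
    have h3 : ((Finset.range (⌊x⌋₊ + 1)).filter (fun n => n.Prime)).card = Nat.primeCounting ⌊x⌋₊ := by
      unfold Nat.primeCounting Nat.primeCounting'
      rw [Nat.count_eq_card_filter_range]
    rw [← h3]
    refine Finset.card_le_card fun p hp => ?_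
    rw [Finset.mem_filter, Finset.mem_range]
    exact ⟨Nat.lt_succ_of_le (Nat.le_floor (hQ p hp).2), (hQ p hp).1⟩
  have h4 : 0 ≤ (Q.card : ℝ) * Real.log x / x := by positivity
  have h5 : (Q.card : ℝ) * Real.log x / x ≤ 6 / 5 := by
    refine le_trans ?_ h1
    have : (Q.card : ℝ) ≤ (Nat.primeCounting ⌊x⌋₊ : ℝ) := by exact_mod_cast h2
    gcongr
  refine ⟨pow_nonneg h4 3, ?_⟩
  calc ((Q.card : ℝ) * Real.log x / x) ^ 3 ≤ (6 / 5 : ℝ) ^ 3 := pow_le_pow_left₀ h4 h5 3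
    _ ≤ 2 := by norm_num

/-- the classes `Fin M` seen as classes `Fin m` for `M ≤ m` -/
lemma Fi3_ext {M m : ℕ} (hMm : M ≤ m) (c : ℕ → Fin M) (κ : Fin M → Fin M → ℝ) (hκ : ∀ a b, 0 ≤ κ a b ∧ κ a b ≤ 16) :
    ∃ (c' : ℕ → Fin m) (κ' : Fin m → Fin m → ℝ), (∀ a b, 0 ≤ κ' a b ∧ κ' a b ≤ 16) ∧
      ∀ d' d, κ' (c' d') (c' d) = κ (c d') (c d) := by
  refine ⟨fun d => Fin.castLE hMm (c d),
    fun a b => if h : a.val < M ∧ b.val < M then κ ⟨a.val, h.1⟩ ⟨b.val, h.2⟩ else 0, fun a b => ?_, fun d' d => ?_⟩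
  · dsimp only
    split_ifs with h
    · exact hκ _ _
    · norm_num
  · dsimp only
    rw [dif_pos ⟨by simp, by simp⟩]
    rfl

lemma Fi3_core (e : ℝ) (he : 0 < e) (he1 : e ≤ 1) (H M m : ℕ) (hH : 1 ≤ H) (hMm : M ≤ m)
    (hM : 64 * (M : ℝ) ^ 2 ≤ e * m) (c : ℕ → Fin M) (T P S s : ℕ → ℕ → ℝ) (hT : ∀ d' d, 0 ≤ T d' d)
    (hS : ∀ d' d, 0 ≤ S d' d) (hs : ∀ d' d, 0 ≤ s d' d) (t : ℝ) (ht0 : 0 ≤ t) (ht : t ≤ 2)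
    (h1 : ∑ d' ∈ Finset.Icc 1 H, ∑ d ∈ (Finset.Icc 1 H).erase d', |T d' d - P d' d| ≤ e ^ 2 / 8000 * (H : ℝ) ^ 2)
    (h2 : ∑ d' ∈ Finset.Icc 1 H, ∑ d ∈ (Finset.Icc 1 H).erase d', max 0 (T d' d - 16 * S d' d) ≤ e ^ 2 / 8000 * (H : ℝ) ^ 2)
    (h3 : ∑ d' ∈ Finset.Icc 1 H, ∑ d ∈ (Finset.Icc 1 H).erase d', |S d' d - s d' d| ≤ e ^ 2 / 8000 * (H : ℝ) ^ 2)
    (h4 : ∀ d' ∈ Finset.Icc 1 H, ∀ d ∈ (Finset.Icc 1 H).erase d', ∀ e' ∈ Finset.Icc 1 H, ∀ e₁ ∈ (Finset.Icc 1 H).erase e',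
      c d' = c e' → c d = c e₁ → |P d' d - P e' e₁| ≤ e ^ 2 / 8000 ∧ s d' d = s e' e₁)
    (h5 : |∑ d' ∈ Finset.Icc 1 H, ∑ d ∈ (Finset.Icc 1 H).erase d', S d' d - (H : ℝ) ^ 2| ≤ e ^ 2 / 100 * (H : ℝ) ^ 2)
    (h6 : (t - e ^ 2 / 200) * (H : ℝ) ^ 2 ≤ ∑ d' ∈ Finset.Icc 1 H, ∑ d ∈ (Finset.Icc 1 H).erase d', T d' d) :
    ∃ (c' : ℕ → Fin m) (κ' : Fin m → Fin m → ℝ), (∀ a b, 0 ≤ κ' a b ∧ κ' a b ≤ 16) ∧
      (∑ d' ∈ Finset.Icc 1 H, ∑ d ∈ (Finset.Icc 1 H).erase d', |T d' d - κ' (c' d') (c' d) * S d' d| ≤ e * (H : ℝ) ^ 2) ∧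
      ((t - e) * (H : ℝ) ^ 2 ≤ ∑ d' ∈ Finset.Icc 1 H, ∑ d ∈ (Finset.Icc 1 H).erase d', κ' (c' d') (c' d) * S d' d) ∧
      (∃ (B' B : Finset ℕ) (k : ℝ), B' ⊆ Finset.Icc 1 H ∧ B ⊆ Finset.Icc 1 H ∧ t - e ≤ k ∧ k ≤ 16 ∧
        (∑ d' ∈ Finset.Icc 1 H, ∑ d ∈ (Finset.Icc 1 H).erase d', max 0 (T d' d - k * S d' d) ≤ e * (H : ℝ) ^ 2) ∧
        (H : ℝ) ^ 2 ≤ m * ∑ d' ∈ B', ∑ d ∈ B.erase d', S d' d ∧
        ∑ d' ∈ B', ∑ d ∈ B.erase d', |T d' d - k * S d' d| ≤ e * ∑ d' ∈ B', ∑ d ∈ B.erase d', S d' d) := by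
  have hH2 : 0 ≤ (H : ℝ) ^ 2 := by positivity
  have hee : e ^ 2 ≤ e := by nlinarith
  obtain ⟨κ, hκ, hκs⟩ := Ka H M c (e ^ 2 / 8000) (by positivity) T P S s hT hS hs h1 h2 h3 h4
  have h7 : ∑ d' ∈ Finset.Icc 1 H, ∑ d ∈ (Finset.Icc 1 H).erase d', |T d' d - κ (c d') (c d) * S d' d|
      ≤ e ^ 2 / 200 * (H : ℝ) ^ 2 := hκs.trans (le_of_eq (by ring))
  have h8 : ∑ d' ∈ Finset.Icc 1 H, ∑ d ∈ (Finset.Icc 1 H).erase d', T d' d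
      - ∑ d' ∈ Finset.Icc 1 H, ∑ d ∈ (Finset.Icc 1 H).erase d', κ (c d') (c d) * S d' d
      ≤ e ^ 2 / 200 * (H : ℝ) ^ 2 := by
    refine le_trans ?_ h7
    rw [← Finset.sum_sub_distrib]
    refine Finset.sum_le_sum fun d' _ => ?_
    rw [← Finset.sum_sub_distrib]
    exact Finset.sum_le_sum fun d _ => le_abs_self _
  have h9 : (t - e ^ 2 / 100) * (H : ℝ) ^ 2
      ≤ ∑ d' ∈ Finset.Icc 1 H, ∑ d ∈ (Finset.Icc 1 H).erase d', κ (c d') (c d) * S d' d := by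
    have : (t - e ^ 2 / 100) * (H : ℝ) ^ 2 = (t - e ^ 2 / 200) * (H : ℝ) ^ 2 - e ^ 2 / 200 * (H : ℝ) ^ 2 := by ring
    rw [this]
    linarith
  have h7' : ∑ d' ∈ Finset.Icc 1 H, ∑ d ∈ (Finset.Icc 1 H).erase d', |T d' d - κ (c d') (c d) * S d' d|
      ≤ e ^ 2 / 100 * (H : ℝ) ^ 2 := h7.trans (mul_le_mul_of_nonneg_right (by nlinarith [sq_nonneg e]) hH2)
  obtain ⟨a, b, hk, hmax, hbig, hab⟩ := Prd2 e he he1 H M m hH hM c T S hS κ hκ t ht0 ht h7' h5 h9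
  obtain ⟨c', κ', hκ', hcκ⟩ := Fi3_ext hMm c κ hκ
  have hfe : ∀ d' : ℕ, ((Finset.Icc 1 H).erase d').filter (fun d => c d = b)
      = ((Finset.Icc 1 H).filter (fun d => c d = b)).erase d' := by
    intro d'
    ext d
    simp only [Finset.mem_filter, Finset.mem_erase]
    tauto
  simp only [hfe] at hbig hab
  refine ⟨c', κ', hκ', ?_, ?_, (Finset.Icc 1 H).filter (fun d => c d = a), (Finset.Icc 1 H).filter (fun d => c d = b),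
    κ a b, Finset.filter_subset _ _, Finset.filter_subset _ _, hk, (hκ a b).2, hmax, hbig, hab⟩
  · simp only [hcκ]
    exact h7.trans (mul_le_mul_of_nonneg_right (by nlinarith) hH2)
  · simp only [hcκ]
    exact le_trans (mul_le_mul_of_nonneg_right (by nlinarith) hH2) h9

theorem Fi3 (ε : ℝ) (hε : 0 < ε) : ∃ m Y : ℕ, 1 ≤ Y ∧ ∀ δ : ℝ, 0 < δ → ∃ (J : ℕ) (K X : ℝ), ∀ x : ℝ, X ≤ x →
    ∀ Q : Finset ℕ, (∀ p ∈ Q, p.Prime ∧ (p : ℝ) ≤ x) →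
    ∃ bad : Finset ℕ, bad.card ≤ J ∧ ∀ i : ℕ, i ∉ bad → K * Real.log x ≤ ((2 ^ i : ℕ) : ℝ) →
      ((2 ^ i : ℕ) : ℝ) ≤ (Real.log x) ^ 2 →
    ∃ (n : ℕ) (α τ : Fin n → ℝ) (p q : Fin n → Fin n → ℝ) (c : ℕ → Fin m) (κ : Fin m → Fin m → ℝ), n ≤ m ∧
      (∀ j, 0 ≤ τ j ∧ τ j ≤ m) ∧ (∀ j l, |p j l| ≤ m ∧ |q j l| ≤ m) ∧ (∀ a b, 0 ≤ κ a b ∧ κ a b ≤ 16) ∧ NF Y (2 ^ i) δ α ∧
      (∑ d ∈ Finset.Icc 1 (2 ^ i), |(pc Q d : ℝ) * (Real.log x) ^ 2 / x - S2 α τ d| ≤ ε * ((2 ^ i : ℕ) : ℝ)) ∧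
      (∑ d' ∈ Finset.Icc 1 (2 ^ i), ∑ d ∈ (Finset.Icc 1 (2 ^ i)).erase d',
        |(tc Q d' d : ℝ) * (Real.log x) ^ 3 / x - S3 α p q d' d| ≤ ε * ((2 ^ i : ℕ) : ℝ) ^ 2) ∧
      (∑ d' ∈ Finset.Icc 1 (2 ^ i), ∑ d ∈ (Finset.Icc 1 (2 ^ i)).erase d',
        |(tc Q d' d : ℝ) * (Real.log x) ^ 3 / x - κ (c d') (c d) * sing {0, (d' : ℤ), (d : ℤ)}| ≤ ε * ((2 ^ i : ℕ) : ℝ) ^ 2) ∧
      ((((Q.card : ℝ) * Real.log x / x) ^ 3 - ε) * ((2 ^ i : ℕ) : ℝ) ^ 2 ≤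
        ∑ d' ∈ Finset.Icc 1 (2 ^ i), ∑ d ∈ (Finset.Icc 1 (2 ^ i)).erase d', κ (c d') (c d) * sing {0, (d' : ℤ), (d : ℤ)}) ∧
      (∃ (B' B : Finset ℕ) (k : ℝ), B' ⊆ Finset.Icc 1 (2 ^ i) ∧ B ⊆ Finset.Icc 1 (2 ^ i) ∧
        ((Q.card : ℝ) * Real.log x / x) ^ 3 - ε ≤ k ∧ k ≤ 16 ∧
        (∑ d' ∈ Finset.Icc 1 (2 ^ i), ∑ d ∈ (Finset.Icc 1 (2 ^ i)).erase d',
          max 0 ((tc Q d' d : ℝ) * (Real.log x) ^ 3 / x - k * sing {0, (d' : ℤ), (d : ℤ)}) ≤ ε * ((2 ^ i : ℕ) : ℝ) ^ 2) ∧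
        ((2 ^ i : ℕ) : ℝ) ^ 2 ≤ m * ∑ d' ∈ B', ∑ d ∈ B.erase d', sing {0, (d' : ℤ), (d : ℤ)} ∧
        ∑ d' ∈ B', ∑ d ∈ B.erase d', |(tc Q d' d : ℝ) * (Real.log x) ^ 3 / x - k * sing {0, (d' : ℤ), (d : ℤ)}| ≤
          ε * ∑ d' ∈ B', ∑ d ∈ B.erase d', sing {0, (d' : ℤ), (d : ℤ)}) ∧
      ((∀ p : ℕ, p.Prime → (p : ℝ) ≤ x → p ∈ Q) → ∃ τ' : Fin n → ℝ, (∀ j, 0 ≤ τ' j ∧ τ' j ≤ τ j) ∧
        ∑ d ∈ Finset.Icc 1 (2 ^ i), |(pc Q d : ℝ) * (Real.log x) ^ 2 / x - sing {0, (d : ℤ)} - S2 α τ' d|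
          ≤ ε * ((2 ^ i : ℕ) : ℝ)) := by
  set e : ℝ := min ε 1 with hedef
  have he : 0 < e := lt_min hε one_pos
  have he1 : e ≤ 1 := min_le_right _ _
  have heε : e ≤ ε := min_le_left _ _
  have hη : 0 < e ^ 2 / 8000 := by positivity
  have hηε : e ^ 2 / 8000 ≤ ε := by nlinarith
  obtain ⟨m₀, Y, hY, hQi⟩ := Qi3 (e ^ 2 / 8000) hη
  obtain ⟨y₀, Xs, hy₀, hsing⟩ := Pw_sing (e ^ 2 / 8000) hη
  obtain ⟨M₀, hM₀, hSt⟩ := St (e ^ 2 / 8000) hη m₀ (WW y₀) (WW_pos y₀)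
  obtain ⟨m₁, hm₁⟩ := exists_nat_ge (64 * (M₀ : ℝ) ^ 2 / e)
  obtain ⟨m, hm0, hmM, hm1⟩ : ∃ m : ℕ, m₀ ≤ m ∧ M₀ ≤ m ∧ m₁ ≤ m :=
    ⟨max m₀ (max M₀ m₁), le_max_left _ _, (le_max_left _ _).trans (le_max_right _ _),
      (le_max_right _ _).trans (le_max_right _ _)⟩
  have hm0' : (m₀ : ℝ) ≤ m := by exact_mod_cast hm0
  have hM64 : 64 * (M₀ : ℝ) ^ 2 ≤ e * m := by
    have h1 : (m₁ : ℝ) ≤ m := by exact_mod_cast hm1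
    rw [div_le_iff₀ he] at hm₁
    nlinarith
  refine ⟨m, Y, hY, fun δ hδ => ?_⟩
  obtain ⟨J₁, K₁, X₁, hQ1⟩ := hQi δ hδ
  obtain ⟨M₂, K₂, X₂, hLo⟩ := Lo (e ^ 2 / 200) (by positivity)
  obtain ⟨K₃, X₃, hup⟩ := Pw_up (e ^ 2 / 8000) hη
  obtain ⟨X₄, hSa⟩ := Sa (e ^ 2 / 100) (by positivity)
  obtain ⟨X₅, ht⟩ := Fi3_t
  refine ⟨J₁ + M₂, max 1 (max K₁ (max K₂ K₃)), max 1 (max Xs (max X₁ (max X₂ (max X₃ (max X₄ X₅))))),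
    fun x hx Q hQ => ?_⟩
  simp only [max_le_iff] at hx
  obtain ⟨hx1, hxs, hxX1, hxX2, hxX3, hxX4, hxX5⟩ := hx
  have hx0 : 0 < x := by linarith
  have hL : 0 ≤ Real.log x := Real.log_nonneg hx1
  obtain ⟨ht0, ht2⟩ := ht x hxX5 Q hQ
  obtain ⟨bad₁, hb1, hgood1⟩ := hQ1 x hxX1 Q hQ
  obtain ⟨bad₂, hb2, hgood2⟩ := hLo x hxX2 Q hQ
  refine ⟨bad₁ ∪ bad₂, (Finset.card_union_le _ _).trans (Nat.add_le_add hb1 hb2), fun i hi hKi hiL => ?_⟩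
  rw [Finset.mem_union, not_or] at hi
  have hK : ∀ K' : ℝ, K' ≤ max 1 (max K₁ (max K₂ K₃)) → K' * Real.log x ≤ ((2 ^ i : ℕ) : ℝ) := fun K' hK' =>
    (mul_le_mul_of_nonneg_right hK' hL).trans hKi
  have hK1 := hK K₁ ((le_max_left _ _).trans (le_max_right _ _))
  have hK2 := hK K₂ ((le_max_left _ _).trans ((le_max_right _ _).trans (le_max_right _ _)))
  have hK3 := hK K₃ ((le_max_right _ _).trans ((le_max_right _ _).trans (le_max_right _ _)))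
  have hK0 : Real.log x ≤ ((2 ^ i : ℕ) : ℝ) := by
    have := hK 1 (le_max_left _ _)
    rwa [one_mul] at this
  obtain ⟨n, α, τ, p, q, hn, hτ, hpq, hNF, hpc, htc, hall⟩ := hgood1 i hi.1 hK1 hiL
  have hlo := hgood2 i hi.2 hK2 hiL
  obtain ⟨c, hcr, hcS⟩ := hSt n α hn
  have hH1 : 1 ≤ 2 ^ i := Nat.one_le_two_pow
  have hH2 : 0 ≤ ((2 ^ i : ℕ) : ℝ) ^ 2 := by positivity
  obtain ⟨c', κ', hκ', hr1, hr2, B', B, k, hB', hB, hk1, hk2, hk3, hk4, hk5⟩ :=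
    Fi3_core e he he1 (2 ^ i) M₀ m hH1 hmM hM64 c
      (fun d' d => (tc Q d' d : ℝ) * (Real.log x) ^ 3 / x) (fun d' d => S3 α p q d' d)
      (fun d' d => sing {0, (d' : ℤ), (d : ℤ)}) (fun d' d => Sy y₀ {0, (d' : ℤ), (d : ℤ)})
      (fun d' d => by positivity) (fun d' d => sing_nonneg _) (fun d' d => Sy_nonneg _ _)
      (((Q.card : ℝ) * Real.log x / x) ^ 3) ht0 ht2 htc
      (hup x hxX3 Q hQ (2 ^ i) hK3 hiL) (hsing x hxs (2 ^ i) hK0 hiL y₀ le_rfl)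
      (by
        intro d' hd' d hd e' he' e₁ he₁ h1 h2
        rw [Finset.mem_erase] at hd he₁
        rw [Finset.mem_Icc] at hd' he'
        have hd2 := Finset.mem_Icc.mp hd.2
        have he2 := Finset.mem_Icc.mp he₁.2
        exact ⟨hcS p q hpq d' d e' e₁ h1 h2,
          Sa_res y₀ hd'.1 hd2.1 hd.1 he'.1 he2.1 he₁.1 (hcr _ _ h1) (hcr _ _ h2)⟩)
      (hSa x hxX4 (2 ^ i) hK0 hiL) hlo
  refine ⟨n, α, τ, p, q, c', κ', hn.trans hm0, fun j => ⟨(hτ j).1, (hτ j).2.trans hm0'⟩,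
    fun j l => ⟨(hpq j l).1.trans hm0', (hpq j l).2.trans hm0'⟩, hκ', hNF, ?_, ?_, ?_, ?_,
    ⟨B', B, k, hB', hB, ?_, hk2, ?_, hk4, ?_⟩, fun h => ?_⟩
  · exact hpc.trans (mul_le_mul_of_nonneg_right hηε (by positivity))
  · exact htc.trans (mul_le_mul_of_nonneg_right hηε hH2)
  · exact hr1.trans (mul_le_mul_of_nonneg_right heε hH2)
  · exact le_trans (mul_le_mul_of_nonneg_right (by linarith) hH2) hr2
  · linarith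
  · exact hk3.trans (mul_le_mul_of_nonneg_right heε hH2)
  · refine hk5.trans (mul_le_mul_of_nonneg_right heε ?_)
    exact Finset.sum_nonneg fun d' _ => Finset.sum_nonneg fun d _ => sing_nonneg _
  · obtain ⟨τ', hτ', hle⟩ := hall h
    exact ⟨τ', hτ', hle.trans (mul_le_mul_of_nonneg_right hηε (by positivity))⟩

end Pool.Agent.H39.AE
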