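import Pool.Agent.H12.DN.T8w
import Pool.Agent.H12.DN.Qi
import Pool.Agent.H6.AE.T1a

/-!
# In: two inputs of part T3 (from the theorems `L1` and `T1a`) and a definition
-/

set_option autoImplicit false

namespace Pool.Agent.H39.AE

open Finset Pool.Agent.H17 Pool.Agent.H6.MF Pool.Agent.H6.MB Pool.Agent.H12.DM Pool.Agent.H12.DN Pool.Agent.H96.AE

/-- the core theorem (helper96, `L1`), `j = k - 1` shifts -/
theorem L1_in (j : ℕ) (hj : 1 ≤ j) (ε : ℝ) (hε : 0 < ε) : ∃ (y₁ : ℕ) (δ K : ℝ), 0 < δ ∧ ∀ y : ℕ, y₁ ≤ y → ∃ X : ℝ, ∀ x : ℝ, X ≤ x → ∀ f g : ℤ → ℝ,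
    (∀ n, |f n| ≤ Bm y x n) → (∀ n, |g n| ≤ Bm y x n) → Sp x f → Sp x g → ∀ H : ℕ, K * Real.log x ≤ (H : ℝ) →
    (H : ℝ) ≤ (Real.log x) ^ 2 → Win x H δ f g →
    ∑ D ∈ Finset.powersetCard j (Finset.Icc 1 (H : ℤ)), |cf x f D - cf x g D| ≤ ε * ((⌊x⌋₊ : ℝ) + 1) * (H : ℝ) ^ j := by
  obtain ⟨i, rfl⟩ : ∃ i, j = i + 1 := ⟨j - 1, by omega⟩
  obtain ⟨y₀, δ, K, hδ, _, h⟩ := L1 i ε hε
  refine ⟨y₀, δ, K, hδ, fun y hy => ?_⟩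
  obtain ⟨X, hX⟩ := h y hy
  exact ⟨X, fun x hx f g hf hg hfs hgs H h1 h2 hw => hX x hx H h1 h2 f g hf hg hfs hgs hw⟩

/-- the upper bound for almost all pairs of differences, in `L¹` form (helper6, `T1a` with `j = 1`) -/
theorem UP_in (ε : ℝ) (hε : 0 < ε) : ∃ K X : ℝ, ∀ x : ℝ, X ≤ x → ∀ H : ℕ, K * Real.log x ≤ (H : ℝ) → (H : ℝ) ≤ (Real.log x) ^ 2 →
    ∑ D ∈ Finset.powersetCard 2 (Finset.Icc 1 (H : ℤ)),
      max 0 ((cnt x (insert 0 D) : ℝ) * (Real.log x) ^ 3 / x - 16 * sing (insert 0 D)) ≤ ε * (H : ℝ) ^ 2 := by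
  obtain ⟨K, X, _, h⟩ := Pool.Agent.H6.AE.T1a 1 ε hε
  refine ⟨K, X, fun x hx H h1 h2 => ?_⟩
  have h3 := h x hx H h1 h2
  have h4 : ∀ D : Finset ℤ, (cnt x (insert 0 D) : ℝ) * (Real.log x) ^ 3 / x - 16 * sing (insert 0 D) =
      (Real.log x) ^ (1 + 2) * (cnt x (insert 0 D) : ℝ) / x - 4 ^ (1 + 1) * sing (insert 0 D) := by
    intro D
    rw [mul_comm (cnt x (insert 0 D) : ℝ)]
    norm_num
  simpa only [h4] using h3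

/-- the triples of elements of `Q` with differences `d' ≠ d`, `d', d ≤ 2^i`, are described by `p, q, α` up to `ε` in `L¹` mean over all pairs `(d', d)` -/
def TripL (x : ℝ) (Q : Finset ℕ) (i : ℕ) (ε : ℝ) {n : ℕ} (α : Fin n → ℝ) (p q : Fin n → Fin n → ℝ) : Prop :=
  ∑ d' ∈ Finset.Icc 1 (2 ^ i), ∑ d ∈ (Finset.Icc 1 (2 ^ i)).erase d', |(tc Q d' d : ℝ) * (Real.log x) ^ 3 / x - S3 α p q d' d|
    ≤ ε * ((2 ^ i : ℕ) : ℝ) ^ 2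

end Pool.Agent.H39.AE
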