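import Pool.Agent.H12.DN.Pc

/-!
# Pc3: from approximations of the windows to triple correlations, in `L¹` over all pairs of differences

Write `S d n = ∑_{c∈Jset} ee(-(α c * d)) * u c n` (complex). Hypothesis `h`: for every weight `|w| ≤ 1` the function
`n ↦ wf H w b n - ∑_c Fw H w (α c) u c n = ∑_{d∈I} w d (b (n-d) - S d n)` (`I = Icc 1 H`; definition of `Fw`: `Fw H w θ = ∑_d w d ee(-(θ d))`) has
`L²`-norm `≤ ρ H` (norm `‖v‖² = (1/Q) ∑_{n<Q} ‖v n‖²`), hence `L¹`-norm `≤ ρ H` (`Pc_cs`, `Pool/Agent/H12/DN/Pc.lean`).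
Hypothesis `hE` (with `z c = ee(-(α c * d))`, `‖z c‖ = 1`): `‖S d‖ ≤ B` for every `d`.
`A(d',d) = (1/Q) ∑_n b(n) b(n-d') b(n-d)`, `M(d',d) = Re (1/Q) ∑_n b(n) b(n-d') S d n`, `P(d',d) = Re (1/Q) ∑_n b(n) S d' n S d n`.
* Step 1. Fix `d' ∈ I`. Let `σ d = sign (A(d',d) - M(d',d))` (`1`, `-1` or `0`; as a function of `d ∈ ℤ`). `∑_{d∈I} |A - M| = ∑_d σ d (A - M) = Re (1/Q) ∑_n b(n) b(n-d') ∑_d σ d (b(n-d) - S d n)
  ≤ (1/Q) ∑_n B² ‖∑_d σ d (b(n-d) - S d n)‖ ≤ B² ρ H`. Summed over `d'`: `≤ B² ρ H²`.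
* Step 2. Fix `d ∈ I`, `σ d' = sign (M(d',d) - P(d',d))`. `∑_{d'} |M - P| = Re (1/Q) ∑_n b(n) S d n ∑_{d'} σ d' (b(n-d') - S d' n) ≤ B ‖S d‖ ‖∑_{d'} σ d' (…)‖ ≤ B * B * (ρ H)` (Cauchy-Schwarz for the mean over `n < Q`:
  `(1/Q) ∑ X Y ≤ ((1/Q) ∑ X²)^{1/2} ((1/Q) ∑ Y²)^{1/2}`, e.g. from `X Y ≤ (t X² + Y²/t)/2` or `Finset.sum_mul_sq_le_sq_mul_sq`). Summed over `d`: `≤ B² ρ H²`.
* `P(d',d) = Re ∑_{c,c'} ee(-(α c d')) ee(-(α c' d)) (1/Q) ∑_n b u_c u_c'` (expand).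
-/

set_option autoImplicit false

namespace Pool.Agent.H39.AE

open Finset Pool.Agent.H12.DM Pool.Agent.H12.DN

lemma Pc3_swap (H : ℕ) (w b : ℤ → ℝ) (J : Finset ℕ) (α : ℕ → ℝ) (u : ℕ → ℕ → ℂ) (n : ℕ) :
    ((wf H w b (n : ℤ) : ℝ) : ℂ) - ∑ c ∈ J, Fw H w (α c) * u c n
      = ∑ d ∈ Finset.Icc 1 (H : ℤ), (w d : ℂ) * ((b ((n : ℤ) - d) : ℂ)
        - ∑ c ∈ J, Pool.Agent.H12.DN.ee (-(α c * (d : ℝ))) * u c n) := by
  unfold wf Fw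
  push_cast
  simp only [mul_sub, Finset.sum_sub_distrib, Finset.sum_mul, Finset.mul_sum]
  congr 1
  rw [Finset.sum_comm]
  refine Finset.sum_congr rfl fun d _ => Finset.sum_congr rfl fun c _ => ?_
  ring

lemma Pc3_cs {Q : ℕ} (hQ : 0 < Q) (X Y : ℕ → ℝ) {G s : ℝ} (hG : 0 ≤ G) (hs : 0 ≤ s)
    (hX : (1 / (Q : ℝ)) * ∑ n ∈ Finset.range Q, X n ^ 2 ≤ G ^ 2)
    (hY : (1 / (Q : ℝ)) * ∑ n ∈ Finset.range Q, Y n ^ 2 ≤ s ^ 2) :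
    (1 / (Q : ℝ)) * ∑ n ∈ Finset.range Q, X n * Y n ≤ G * s := by
  have hQ' : (0 : ℝ) < Q := by exact_mod_cast hQ
  have h1 := Finset.sum_mul_sq_le_sq_mul_sq (Finset.range Q) X Y
  have h2 : ((1 / (Q : ℝ)) * ∑ n ∈ Finset.range Q, X n * Y n) ^ 2 ≤ (G * s) ^ 2 := by
    have hX0 : 0 ≤ (1 / (Q : ℝ)) * ∑ n ∈ Finset.range Q, X n ^ 2 :=
      mul_nonneg (by positivity) (Finset.sum_nonneg fun n _ => sq_nonneg _)
    have hY0 : 0 ≤ (1 / (Q : ℝ)) * ∑ n ∈ Finset.range Q, Y n ^ 2 :=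
      mul_nonneg (by positivity) (Finset.sum_nonneg fun n _ => sq_nonneg _)
    calc ((1 / (Q : ℝ)) * ∑ n ∈ Finset.range Q, X n * Y n) ^ 2
        = (1 / (Q : ℝ)) ^ 2 * (∑ n ∈ Finset.range Q, X n * Y n) ^ 2 := by rw [mul_pow]
      _ ≤ (1 / (Q : ℝ)) ^ 2 * ((∑ n ∈ Finset.range Q, X n ^ 2) *
          ∑ n ∈ Finset.range Q, Y n ^ 2) := by gcongr
      _ = ((1 / (Q : ℝ)) * ∑ n ∈ Finset.range Q, X n ^ 2) *
          ((1 / (Q : ℝ)) * ∑ n ∈ Finset.range Q, Y n ^ 2) := by ring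
      _ ≤ G ^ 2 * s ^ 2 := mul_le_mul hX hY hY0 (sq_nonneg _)
      _ = (G * s) ^ 2 := by ring
  exact (le_abs_self _).trans (abs_le_of_sq_le_sq h2 (mul_nonneg hG hs))

lemma Pc3_step (Q H : ℕ) (hQ : 0 < Q) (b : ℤ → ℝ) (ρ G : ℝ) (hρ : 0 ≤ ρ) (hG : 0 ≤ G)
    (J : Finset ℕ) (α : ℕ → ℝ) (u : ℕ → ℕ → ℂ)
    (h : ∀ w : ℤ → ℝ, (∀ d, |w d| ≤ 1) → (1 / (Q : ℝ)) * ∑ n ∈ Finset.range Q,
      ‖((wf H w b (n : ℤ) : ℝ) : ℂ) - ∑ c ∈ J, Fw H w (α c) * u c n‖ ^ 2 ≤ ρ ^ 2 * (H : ℝ) ^ 2)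
    (g : ℕ → ℂ) (hg : (1 / (Q : ℝ)) * ∑ n ∈ Finset.range Q, ‖g n‖ ^ 2 ≤ G ^ 2)
    (X : ℤ → ℝ)
    (hX : ∀ d, X d = ((1 / (Q : ℂ)) * ∑ n ∈ Finset.range Q, g n * ((b ((n : ℤ) - d) : ℂ)
        - ∑ c ∈ J, Pool.Agent.H12.DN.ee (-(α c * (d : ℝ))) * u c n)).re) :
    ∑ d ∈ Finset.Icc 1 (H : ℤ), |X d| ≤ G * (ρ * H) := by
  have hH : (0 : ℝ) ≤ H := Nat.cast_nonneg _
  obtain ⟨w, hw⟩ : ∃ w : ℤ → ℝ, ∀ d, w d = ((SignType.sign (X d) : SignType) : ℝ) :=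
    ⟨_, fun _ => rfl⟩
  have hw1 : ∀ d, |w d| ≤ 1 := by
    intro d
    rw [hw]
    rcases lt_trichotomy (X d) 0 with h0 | h0 | h0
    · rw [sign_neg h0]; simp
    · rw [h0]; simp
    · rw [sign_pos h0]; simp
  have hw2 : ∀ d, |X d| = w d * X d := by
    intro d
    rw [hw, sign_mul_self]
  have e1 : ∑ d ∈ Finset.Icc 1 (H : ℤ), |X d| = ((1 / (Q : ℂ)) * ∑ n ∈ Finset.range Q,
      g n * (((wf H w b (n : ℤ) : ℝ) : ℂ) - ∑ c ∈ J, Fw H w (α c) * u c n)).re := by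
    have e2 : ∀ d ∈ Finset.Icc 1 (H : ℤ), |X d| = ((1 / (Q : ℂ)) * ∑ n ∈ Finset.range Q,
        g n * ((w d : ℂ) * ((b ((n : ℤ) - d) : ℂ)
        - ∑ c ∈ J, Pool.Agent.H12.DN.ee (-(α c * (d : ℝ))) * u c n))).re := by
      intro d _
      rw [hw2, hX, ← Complex.re_ofReal_mul]
      congr 1
      rw [Finset.mul_sum, Finset.mul_sum, Finset.mul_sum]
      refine Finset.sum_congr rfl fun n _ => ?_
      ring
    rw [Finset.sum_congr rfl e2, ← Complex.re_sum, ← Finset.mul_sum, Finset.sum_comm]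
    congr 2
    refine Finset.sum_congr rfl fun n _ => ?_
    rw [Pc3_swap, Finset.mul_sum]
  rw [e1]
  refine (Complex.re_le_norm _).trans ?_
  rw [norm_mul, norm_div, norm_one, Complex.norm_natCast]
  calc 1 / (Q : ℝ) * ‖∑ n ∈ Finset.range Q,
        g n * (((wf H w b (n : ℤ) : ℝ) : ℂ) - ∑ c ∈ J, Fw H w (α c) * u c n)‖
      ≤ 1 / (Q : ℝ) * ∑ n ∈ Finset.range Q, ‖g n‖ *
        ‖((wf H w b (n : ℤ) : ℝ) : ℂ) - ∑ c ∈ J, Fw H w (α c) * u c n‖ := by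
        gcongr
        refine (norm_sum_le _ _).trans (le_of_eq ?_)
        exact Finset.sum_congr rfl fun n _ => norm_mul _ _
    _ ≤ G * (ρ * H) := by
        refine Pc3_cs hQ _ _ hG (mul_nonneg hρ hH) hg ?_
        rw [mul_pow]
        exact h w hw1

theorem Pc3 (Q H : ℕ) (hQ : 0 < Q) (b : ℤ → ℝ) (B ρ : ℝ) (hρ : 0 ≤ ρ) (hb : ∀ n, |b n| ≤ B) (Jset : Finset ℕ) (α : ℕ → ℝ)
    (u : ℕ → ℕ → ℂ)
    (hE : ∀ z : ℕ → ℂ, (∀ c, ‖z c‖ ≤ 1) → (1 / (Q : ℝ)) * ∑ n ∈ Finset.range Q, ‖∑ c ∈ Jset, z c * u c n‖ ^ 2 ≤ B ^ 2)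
    (h : ∀ w : ℤ → ℝ, (∀ d, |w d| ≤ 1) → (1 / (Q : ℝ)) * ∑ n ∈ Finset.range Q,
      ‖((wf H w b (n : ℤ) : ℝ) : ℂ) - ∑ c ∈ Jset, Fw H w (α c) * u c n‖ ^ 2 ≤ ρ ^ 2 * (H : ℝ) ^ 2) :
    ∑ d' ∈ Finset.Icc 1 (H : ℤ), ∑ d ∈ Finset.Icc 1 (H : ℤ),
      |(1 / (Q : ℝ)) * ∑ n ∈ Finset.range Q, b (n : ℤ) * b ((n : ℤ) - d') * b ((n : ℤ) - d)
        - (∑ c ∈ Jset, ∑ c' ∈ Jset, Pool.Agent.H12.DN.ee (-(α c * (d' : ℝ))) * Pool.Agent.H12.DN.ee (-(α c' * (d : ℝ))) *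
            ((1 / (Q : ℂ)) * ∑ n ∈ Finset.range Q, (b (n : ℤ) : ℂ) * u c n * u c' n)).re|
      ≤ 2 * B ^ 2 * ρ * (H : ℝ) ^ 2 := by
  have hB : 0 ≤ B := (abs_nonneg _).trans (hb 0)
  have hH : (0 : ℝ) ≤ H := Nat.cast_nonneg _
  obtain ⟨S, hS⟩ : ∃ S : ℤ → ℕ → ℂ, ∀ d n,
      S d n = ∑ c ∈ Jset, Pool.Agent.H12.DN.ee (-(α c * (d : ℝ))) * u c n :=
    ⟨fun d n => _, fun d n => rfl⟩
  obtain ⟨A, hA⟩ : ∃ A : ℤ → ℤ → ℝ, ∀ d' d, A d' d =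
      (1 / (Q : ℝ)) * ∑ n ∈ Finset.range Q, b (n : ℤ) * b ((n : ℤ) - d') * b ((n : ℤ) - d) :=
    ⟨fun d' d => _, fun d' d => rfl⟩
  obtain ⟨M, hM⟩ : ∃ M : ℤ → ℤ → ℝ, ∀ d' d, M d' d =
      ((1 / (Q : ℂ)) * ∑ n ∈ Finset.range Q, (b (n : ℤ) : ℂ) * (b ((n : ℤ) - d') : ℂ) * S d n).re :=
    ⟨fun d' d => _, fun d' d => rfl⟩
  obtain ⟨P, hP⟩ : ∃ P : ℤ → ℤ → ℝ, ∀ d' d, P d' d =
      ((1 / (Q : ℂ)) * ∑ n ∈ Finset.range Q, (b (n : ℤ) : ℂ) * S d' n * S d n).re :=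
    ⟨fun d' d => _, fun d' d => rfl⟩
  have hB2 : 0 ≤ B ^ 2 := sq_nonneg _
  have hcard : ((Finset.Icc 1 (H : ℤ)).card : ℝ) = H := by
    rw [Int.card_Icc]
    simp
  have hSn : ∀ d : ℤ, (1 / (Q : ℝ)) * ∑ n ∈ Finset.range Q, ‖S d n‖ ^ 2 ≤ B ^ 2 := by
    intro d
    simp only [hS]
    refine hE (fun c => Pool.Agent.H12.DN.ee (-(α c * (d : ℝ)))) fun c => le_of_eq ?_
    unfold Pool.Agent.H12.DN.ee
    rw [Complex.norm_exp]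
    simp
  have s1 : ∀ d' ∈ Finset.Icc 1 (H : ℤ), ∑ d ∈ Finset.Icc 1 (H : ℤ), |A d' d - M d' d|
      ≤ B ^ 2 * (ρ * H) := by
    intro d' _
    refine Pc3_step Q H hQ b ρ (B ^ 2) hρ hB2 Jset α u h
      (fun n => (b (n : ℤ) : ℂ) * (b ((n : ℤ) - d') : ℂ)) ?_ (fun d => A d' d - M d' d) ?_
    · have h1 : ∀ n ∈ Finset.range Q, ‖(b (n : ℤ) : ℂ) * (b ((n : ℤ) - d') : ℂ)‖ ^ 2
          ≤ (B ^ 2) ^ 2 := by
        intro n _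
        rw [norm_mul, Complex.norm_real, Complex.norm_real, Real.norm_eq_abs, Real.norm_eq_abs]
        have h2 : |b (n : ℤ)| * |b ((n : ℤ) - d')| ≤ B ^ 2 := by
          rw [sq]
          exact mul_le_mul (hb _) (hb _) (abs_nonneg _) hB
        exact pow_le_pow_left₀ (mul_nonneg (abs_nonneg _) (abs_nonneg _)) h2 2
      have hQ' : (0 : ℝ) < Q := by exact_mod_cast hQ
      calc (1 / (Q : ℝ)) * ∑ n ∈ Finset.range Q, ‖(b (n : ℤ) : ℂ) * (b ((n : ℤ) - d') : ℂ)‖ ^ 2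
          ≤ (1 / (Q : ℝ)) * ∑ n ∈ Finset.range Q, (B ^ 2) ^ 2 := by
            exact mul_le_mul_of_nonneg_left (Finset.sum_le_sum h1) (by positivity)
        _ = (B ^ 2) ^ 2 := by
            rw [Finset.sum_const, Finset.card_range, nsmul_eq_mul]
            field_simp
    · intro d
      simp only [hA, hM, ← hS]
      have h3 : (1 / (Q : ℝ)) * ∑ n ∈ Finset.range Q,
          b (n : ℤ) * b ((n : ℤ) - d') * b ((n : ℤ) - d) =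
          ((1 / (Q : ℂ)) * ∑ n ∈ Finset.range Q, (b (n : ℤ) : ℂ) * (b ((n : ℤ) - d') : ℂ) *
            (b ((n : ℤ) - d) : ℂ)).re := by
        have h4 : (1 / (Q : ℂ)) * ∑ n ∈ Finset.range Q, (b (n : ℤ) : ℂ) *
            (b ((n : ℤ) - d') : ℂ) * (b ((n : ℤ) - d) : ℂ) =
            (((1 / (Q : ℝ)) * ∑ n ∈ Finset.range Q,
              b (n : ℤ) * b ((n : ℤ) - d') * b ((n : ℤ) - d) : ℝ) : ℂ) := by
          push_cast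
          rfl
        rw [h4, Complex.ofReal_re]
      rw [h3, ← Complex.sub_re, ← mul_sub, ← Finset.sum_sub_distrib]
      congr 2
      refine Finset.sum_congr rfl fun n _ => ?_
      ring
  have s2 : ∀ d ∈ Finset.Icc 1 (H : ℤ), ∑ d' ∈ Finset.Icc 1 (H : ℤ), |M d' d - P d' d|
      ≤ B ^ 2 * (ρ * H) := by
    intro d _
    refine Pc3_step Q H hQ b ρ (B ^ 2) hρ hB2 Jset α u h
      (fun n => (b (n : ℤ) : ℂ) * S d n) ?_ (fun d' => M d' d - P d' d) ?_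
    · calc (1 / (Q : ℝ)) * ∑ n ∈ Finset.range Q, ‖(b (n : ℤ) : ℂ) * S d n‖ ^ 2
          ≤ (1 / (Q : ℝ)) * ∑ n ∈ Finset.range Q, B ^ 2 * ‖S d n‖ ^ 2 := by
            gcongr with n _
            rw [norm_mul, Complex.norm_real, Real.norm_eq_abs, mul_pow]
            gcongr
            exact hb _
        _ = B ^ 2 * ((1 / (Q : ℝ)) * ∑ n ∈ Finset.range Q, ‖S d n‖ ^ 2) := by
            rw [← Finset.mul_sum]
            ring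
        _ ≤ B ^ 2 * B ^ 2 := mul_le_mul_of_nonneg_left (hSn d) hB2
        _ = (B ^ 2) ^ 2 := by ring
    · intro d'
      simp only [hM, hP, ← hS]
      rw [← Complex.sub_re, ← mul_sub, ← Finset.sum_sub_distrib]
      congr 2
      refine Finset.sum_congr rfl fun n _ => ?_
      ring
  have s3 : ∀ d' d : ℤ, (∑ c ∈ Jset, ∑ c' ∈ Jset, Pool.Agent.H12.DN.ee (-(α c * (d' : ℝ))) *
      Pool.Agent.H12.DN.ee (-(α c' * (d : ℝ))) *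
      ((1 / (Q : ℂ)) * ∑ n ∈ Finset.range Q, (b (n : ℤ) : ℂ) * u c n * u c' n)).re = P d' d := by
    intro d' d
    rw [hP]
    congr 1
    have e3 : ∀ n : ℕ, (b (n : ℤ) : ℂ) * S d' n * S d n = ∑ c ∈ Jset, ∑ c' ∈ Jset,
        Pool.Agent.H12.DN.ee (-(α c * (d' : ℝ))) * Pool.Agent.H12.DN.ee (-(α c' * (d : ℝ))) *
          ((b (n : ℤ) : ℂ) * u c n * u c' n) := by
      intro n
      rw [hS, hS, mul_assoc, Finset.sum_mul_sum, Finset.mul_sum]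
      refine Finset.sum_congr rfl fun c _ => ?_
      rw [Finset.mul_sum]
      refine Finset.sum_congr rfl fun c' _ => ?_
      ring
    have e6 : ∑ n ∈ Finset.range Q, (b (n : ℤ) : ℂ) * S d' n * S d n =
        ∑ c ∈ Jset, ∑ c' ∈ Jset, ∑ n ∈ Finset.range Q,
          Pool.Agent.H12.DN.ee (-(α c * (d' : ℝ))) * Pool.Agent.H12.DN.ee (-(α c' * (d : ℝ))) *
            ((b (n : ℤ) : ℂ) * u c n * u c' n) := by
      rw [Finset.sum_congr rfl fun n _ => e3 n, Finset.sum_comm]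
      exact Finset.sum_congr rfl fun c _ => Finset.sum_comm
    rw [e6, Finset.mul_sum]
    refine Finset.sum_congr rfl fun c _ => ?_
    rw [Finset.mul_sum]
    refine Finset.sum_congr rfl fun c' _ => ?_
    rw [← Finset.mul_sum]
    ring
  calc ∑ d' ∈ Finset.Icc 1 (H : ℤ), ∑ d ∈ Finset.Icc 1 (H : ℤ),
      |(1 / (Q : ℝ)) * ∑ n ∈ Finset.range Q, b (n : ℤ) * b ((n : ℤ) - d') * b ((n : ℤ) - d)
        - (∑ c ∈ Jset, ∑ c' ∈ Jset, Pool.Agent.H12.DN.ee (-(α c * (d' : ℝ))) *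
            Pool.Agent.H12.DN.ee (-(α c' * (d : ℝ))) *
            ((1 / (Q : ℂ)) * ∑ n ∈ Finset.range Q, (b (n : ℤ) : ℂ) * u c n * u c' n)).re|
      = ∑ d' ∈ Finset.Icc 1 (H : ℤ), ∑ d ∈ Finset.Icc 1 (H : ℤ), |A d' d - P d' d| := by
        refine Finset.sum_congr rfl fun d' _ => Finset.sum_congr rfl fun d _ => ?_
        rw [s3, hA]
    _ ≤ ∑ d' ∈ Finset.Icc 1 (H : ℤ), ∑ d ∈ Finset.Icc 1 (H : ℤ),
        (|A d' d - M d' d| + |M d' d - P d' d|) := by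
        refine Finset.sum_le_sum fun d' _ => Finset.sum_le_sum fun d _ => ?_
        exact abs_sub_le _ _ _
    _ = ∑ d' ∈ Finset.Icc 1 (H : ℤ), ∑ d ∈ Finset.Icc 1 (H : ℤ), |A d' d - M d' d| +
        ∑ d ∈ Finset.Icc 1 (H : ℤ), ∑ d' ∈ Finset.Icc 1 (H : ℤ), |M d' d - P d' d| := by
        simp only [Finset.sum_add_distrib]
        congr 1
        exact Finset.sum_comm
    _ ≤ ∑ d' ∈ Finset.Icc 1 (H : ℤ), B ^ 2 * (ρ * H) +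
        ∑ d ∈ Finset.Icc 1 (H : ℤ), B ^ 2 * (ρ * H) :=
        add_le_add (Finset.sum_le_sum s1) (Finset.sum_le_sum s2)
    _ = 2 * B ^ 2 * ρ * (H : ℝ) ^ 2 := by
        rw [Finset.sum_const, nsmul_eq_mul, hcard]
        ring

end Pool.Agent.H39.AE
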