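import Mathlib

/-!
# Prd: a product set of positive proportion on which the ratio is almost constant and not small

All sums over pairs `(d', d)`, `d' ∈ Icc 1 H`, `d ∈ (Icc 1 H).erase d'`; for classes `a, b` let `S_ab = ∑_{c d' = a, c d = b} S`, `E_ab = ∑_{c d' = a, c d = b} |T - κ a b * S|` (so `∑_ab S_ab = ∑ S`, `∑_ab E_ab ≤ ε' H²`, `∑_ab κ a b S_ab = ∑ κ(c d')(c d) S`). `0 < ε ≤ 1`, `ε' = ε²/100`, `m ≥ 64 M²/ε`.
Suppose no pair `(a, b)` satisfies the conclusion: for each `(a,b)` (1) `κ a b < t - ε` or (2) `S_ab < H²/m` or (3) `E_ab > ε S_ab`.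
* If `t ≥ ε`: `(t - ε') H² ≤ ∑_ab κ a b S_ab ≤ (t - ε) ∑_{(1)} S_ab + 16 ∑_{(2)} S_ab + 16 ∑_{(3)} S_ab ≤ (t - ε)(1 + ε') H² + 16 M² H²/m + 16 ε' H²/ε`, so with `t ≤ 2`: `ε ≤ 3 ε' + ε/4 + 16 ε/100 < ε` (`H ≥ 1`), a contradiction. (Here `0 ≤ t - ε`, all `S_ab ≥ 0`.)
* If `t < ε`: (1) never holds (`κ ≥ 0`), so `(1 - ε') H² ≤ ∑ S_ab ≤ M² H²/m + ε' H²/ε ≤ (ε/64 + ε/100) H²`, a contradiction.
-/

set_option autoImplicit false

namespace Pool.Agent.H39.AE

open Finset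

theorem Prd_fib (H M : ℕ) (c : ℕ → Fin M) (f : ℕ → ℕ → ℝ) :
    ∑ a : Fin M, ∑ b : Fin M, ∑ d' ∈ (Finset.Icc 1 H).filter (fun d => c d = a),
      ∑ d ∈ ((Finset.Icc 1 H).erase d').filter (fun d => c d = b), f d' d =
    ∑ d' ∈ Finset.Icc 1 H, ∑ d ∈ (Finset.Icc 1 H).erase d', f d' d := by
  have h1 : ∀ a : Fin M, ∑ b : Fin M, ∑ d' ∈ (Finset.Icc 1 H).filter (fun d => c d = a),
      ∑ d ∈ ((Finset.Icc 1 H).erase d').filter (fun d => c d = b), f d' d =
      ∑ d' ∈ (Finset.Icc 1 H).filter (fun d => c d = a), ∑ d ∈ (Finset.Icc 1 H).erase d', f d' d := by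
    intro a
    rw [Finset.sum_comm]
    refine Finset.sum_congr rfl fun d' _ => ?_
    exact Finset.sum_fiberwise _ _ _
  rw [Finset.sum_congr rfl fun a _ => h1 a]
  exact Finset.sum_fiberwise _ _ _

theorem Prd (ε : ℝ) (hε : 0 < ε) (hε1 : ε ≤ 1) (H M m : ℕ) (hH : 1 ≤ H) (hM : 64 * (M : ℝ) ^ 2 ≤ ε * m) (c : ℕ → Fin M) (T S : ℕ → ℕ → ℝ)
    (hS : ∀ d' d, 0 ≤ S d' d) (κ : Fin M → Fin M → ℝ) (hκ : ∀ a b, 0 ≤ κ a b ∧ κ a b ≤ 16) (t : ℝ) (ht0 : 0 ≤ t) (ht : t ≤ 2)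
    (h1 : ∑ d' ∈ Finset.Icc 1 H, ∑ d ∈ (Finset.Icc 1 H).erase d', |T d' d - κ (c d') (c d) * S d' d| ≤ ε ^ 2 / 100 * (H : ℝ) ^ 2)
    (h2 : |∑ d' ∈ Finset.Icc 1 H, ∑ d ∈ (Finset.Icc 1 H).erase d', S d' d - (H : ℝ) ^ 2| ≤ ε ^ 2 / 100 * (H : ℝ) ^ 2)
    (h3 : (t - ε ^ 2 / 100) * (H : ℝ) ^ 2 ≤ ∑ d' ∈ Finset.Icc 1 H, ∑ d ∈ (Finset.Icc 1 H).erase d', κ (c d') (c d) * S d' d) :
    ∃ a b : Fin M, t - ε ≤ κ a b ∧
      (H : ℝ) ^ 2 ≤ m * ∑ d' ∈ (Finset.Icc 1 H).filter (fun d => c d = a), ∑ d ∈ ((Finset.Icc 1 H).erase d').filter (fun d => c d = b), S d' d ∧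
      ∑ d' ∈ (Finset.Icc 1 H).filter (fun d => c d = a), ∑ d ∈ ((Finset.Icc 1 H).erase d').filter (fun d => c d = b), |T d' d - κ a b * S d' d|
        ≤ ε * ∑ d' ∈ (Finset.Icc 1 H).filter (fun d => c d = a), ∑ d ∈ ((Finset.Icc 1 H).erase d').filter (fun d => c d = b), S d' d := by
  classical
  by_contra hcon
  obtain ⟨SS, hSS⟩ : ∃ SS : Fin M → Fin M → ℝ, SS = fun a b => ∑ d' ∈ (Finset.Icc 1 H).filter (fun d => c d = a),
      ∑ d ∈ ((Finset.Icc 1 H).erase d').filter (fun d => c d = b), S d' d := ⟨_, rfl⟩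
  obtain ⟨EE, hEE⟩ : ∃ EE : Fin M → Fin M → ℝ, EE = fun a b => ∑ d' ∈ (Finset.Icc 1 H).filter (fun d => c d = a),
      ∑ d ∈ ((Finset.Icc 1 H).erase d').filter (fun d => c d = b), |T d' d - κ a b * S d' d| := ⟨_, rfl⟩
  have hcon' : ∀ a b : Fin M, t - ε ≤ κ a b → (H : ℝ) ^ 2 ≤ m * SS a b → EE a b ≤ ε * SS a b → False := by
    intro a b h4 h5 h6
    rw [hSS] at h5 h6
    rw [hEE] at h6
    exact hcon ⟨a, b, h4, h5, h6⟩
  have hSS0 : ∀ a b, 0 ≤ SS a b := by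
    intro a b
    rw [hSS]
    exact Finset.sum_nonneg fun _ _ => Finset.sum_nonneg fun _ _ => hS _ _
  have hEE0 : ∀ a b, 0 ≤ EE a b := by
    intro a b
    rw [hEE]
    exact Finset.sum_nonneg fun _ _ => Finset.sum_nonneg fun _ _ => abs_nonneg _
  have hsumS : ∑ a, ∑ b, SS a b = ∑ d' ∈ Finset.Icc 1 H, ∑ d ∈ (Finset.Icc 1 H).erase d', S d' d := by
    rw [hSS]
    exact Prd_fib H M c S
  have hsumE : ∑ a, ∑ b, EE a b = ∑ d' ∈ Finset.Icc 1 H, ∑ d ∈ (Finset.Icc 1 H).erase d', |T d' d - κ (c d') (c d) * S d' d| := by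
    rw [hEE, ← Prd_fib H M c (fun d' d => |T d' d - κ (c d') (c d) * S d' d|)]
    refine Finset.sum_congr rfl fun a _ => Finset.sum_congr rfl fun b _ => Finset.sum_congr rfl fun d' hd' =>
      Finset.sum_congr rfl fun d hd => ?_
    rw [(Finset.mem_filter.1 hd').2, (Finset.mem_filter.1 hd).2]
  have hsumK : ∑ a, ∑ b, κ a b * SS a b = ∑ d' ∈ Finset.Icc 1 H, ∑ d ∈ (Finset.Icc 1 H).erase d', κ (c d') (c d) * S d' d := by
    rw [hSS, ← Prd_fib H M c (fun d' d => κ (c d') (c d) * S d' d)]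
    refine Finset.sum_congr rfl fun a _ => Finset.sum_congr rfl fun b _ => ?_
    rw [Finset.mul_sum]
    refine Finset.sum_congr rfl fun d' hd' => ?_
    rw [Finset.mul_sum]
    refine Finset.sum_congr rfl fun d hd => ?_
    rw [(Finset.mem_filter.1 hd').2, (Finset.mem_filter.1 hd).2]
  have hM1 : (1 : ℝ) ≤ M := by
    have : 0 < M := Fin.pos (c 0)
    exact_mod_cast this
  have hm : (0 : ℝ) < m := by
    have h4 : (64 : ℝ) ≤ 64 * (M : ℝ) ^ 2 := by nlinarith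
    have h5 : 0 < ε * m := by linarith
    exact pos_of_mul_pos_right h5 hε.le
  have hH1 : (1 : ℝ) ≤ (H : ℝ) ^ 2 := by
    have : (1 : ℝ) ≤ H := by exact_mod_cast hH
    nlinarith
  obtain ⟨R, hR⟩ : ∃ R : ℝ, R = (H : ℝ) ^ 2 := ⟨_, rfl⟩
  rw [← hR] at h1 h2 h3 hH1 hcon'
  have h2' := abs_le.1 h2
  rw [← hsumE] at h1
  rw [← hsumS] at h2'
  rw [← hsumK] at h3
  -- the count
  have hcard : ∑ _a : Fin M, ∑ _b : Fin M, R / m ≤ ε / 64 * R := by
    rw [Finset.sum_const, Finset.sum_const, Finset.card_univ, Fintype.card_fin, nsmul_eq_mul, nsmul_eq_mul]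
    rw [← mul_assoc, ← mul_div_assoc, div_le_iff₀ hm]
    nlinarith
  rcases le_or_gt ε t with hte | hte
  · have key : ∀ a b, κ a b * SS a b ≤ (t - ε) * SS a b + 16 * (R / m) + 16 / ε * EE a b := by
      intro a b
      have e1 := hSS0 a b
      have e2 := hEE0 a b
      have e3 := hκ a b
      have e4 : 0 ≤ (t - ε) * SS a b := mul_nonneg (by linarith) e1
      have e5 : 0 ≤ R / m := by positivity
      have e6 : 0 ≤ 16 / ε * EE a b := by positivity
      rcases lt_or_ge (κ a b) (t - ε) with h | h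
      · have := mul_le_mul_of_nonneg_right h.le e1
        linarith
      rcases lt_or_ge (m * SS a b) R with h' | h'
      · have h6 : SS a b ≤ R / m := by
          rw [le_div_iff₀ hm]
          linarith
        have h7 : κ a b * SS a b ≤ 16 * SS a b := mul_le_mul_of_nonneg_right e3.2 e1
        linarith
      · have h6 : ε * SS a b < EE a b := by
          by_contra hc
          exact hcon' a b h h' (not_lt.1 hc)
        have h7 : κ a b * SS a b ≤ 16 * SS a b := mul_le_mul_of_nonneg_right e3.2 e1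
        have h8 : 16 * SS a b ≤ 16 / ε * EE a b := by
          rw [div_mul_eq_mul_div, le_div_iff₀ hε]
          linarith
        linarith
    have key2 : ∑ a, ∑ b, κ a b * SS a b ≤ (t - ε) * ∑ a, ∑ b, SS a b + 16 * ∑ _a : Fin M, ∑ _b : Fin M, R / m +
        16 / ε * ∑ a, ∑ b, EE a b := by
      refine (Finset.sum_le_sum fun a _ => Finset.sum_le_sum fun b _ => key a b).trans (le_of_eq ?_)
      simp only [Finset.sum_add_distrib, ← Finset.mul_sum]
    have k1 : (t - ε) * ∑ a, ∑ b, SS a b ≤ (t - ε) * (R + ε ^ 2 / 100 * R) :=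
      mul_le_mul_of_nonneg_left (by linarith [h2'.2]) (by linarith)
    have k2 : 16 / ε * ∑ a, ∑ b, EE a b ≤ 16 / ε * (ε ^ 2 / 100 * R) :=
      mul_le_mul_of_nonneg_left h1 (by positivity)
    have k3 : 16 / ε * (ε ^ 2 / 100 * R) = 16 / 100 * ε * R := by
      field_simp
    have k4 : (t - ε ^ 2 / 100) * R ≤ (t - ε) * (R + ε ^ 2 / 100 * R) + 16 * (ε / 64 * R) + 16 / 100 * ε * R := by
      linarith
    have k5 : 0 < ε * R := by positivity
    have k6 : ε ^ 2 * R ≤ ε * R := by nlinarith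
    have k7 : (t - ε) * (ε ^ 2 / 100 * R) ≤ 2 * (ε ^ 2 / 100 * R) :=
      mul_le_mul_of_nonneg_right (by linarith) (by positivity)
    nlinarith
  · have key : ∀ a b, SS a b ≤ R / m + 1 / ε * EE a b := by
      intro a b
      have e1 := hSS0 a b
      have e2 := hEE0 a b
      have e3 := hκ a b
      have e5 : 0 ≤ R / m := by positivity
      have e6 : 0 ≤ 1 / ε * EE a b := by positivity
      rcases lt_or_ge (m * SS a b) R with h' | h'
      · have h6 : SS a b ≤ R / m := by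
          rw [le_div_iff₀ hm]
          linarith
        linarith
      · have h6 : ε * SS a b < EE a b := by
          by_contra hc
          exact hcon' a b (by linarith [e3.1]) h' (not_lt.1 hc)
        have h8 : SS a b ≤ 1 / ε * EE a b := by
          rw [div_mul_eq_mul_div, le_div_iff₀ hε]
          linarith
        linarith
    have key2 : ∑ a, ∑ b, SS a b ≤ ∑ _a : Fin M, ∑ _b : Fin M, R / m + 1 / ε * ∑ a, ∑ b, EE a b := by
      refine (Finset.sum_le_sum fun a _ => Finset.sum_le_sum fun b _ => key a b).trans (le_of_eq ?_)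
      simp only [Finset.sum_add_distrib, ← Finset.mul_sum]
    have k2 : 1 / ε * ∑ a, ∑ b, EE a b ≤ 1 / ε * (ε ^ 2 / 100 * R) :=
      mul_le_mul_of_nonneg_left h1 (by positivity)
    have k3 : 1 / ε * (ε ^ 2 / 100 * R) = 1 / 100 * ε * R := by
      field_simp
    have k5 : 0 < ε * R := by positivity
    have k6 : ε ^ 2 * R ≤ ε * R := by nlinarith
    have k7 : ε * R ≤ R := by nlinarith
    linarith [h2'.1]

end Pool.Agent.H39.AE
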