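import Pool.Agent.H12.DN.Ps2
import Pool.Agent.H39.AE.Pc3

/-!
# Ps3: structure theorem for bounded functions, triples in `L¹` over all pairs of differences

This is `Ps2` (`Pool/Agent/H12/DN/Ps2.lean`) with the last clause replaced: COPY that file (its lemmas are `private`: rename the prefix `Ps2_` to `Ps3_`; drop the imports of `Pb`, … which come with `Ps2`) and modify it as follows.
* `Ps2_main`: `Pc` is still used for the pairs (its first part). For the triples use `Pc3` (`Pool/Agent/H39/AE/Pc3.lean`) with the same `Q = 2^k`, `H = 2^i`, `b`, `B`, `ρ`, `Jset`, `α`, `u c = pj Q b (arc k (i+a) c)`, hypothesis `h = hPb2`; hypothesis `hE`: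
  for `‖z c‖ ≤ 1`: `∑_{c∈Jset} z c * pj Q b (arc c) n = ∑_{r<Q} v r ee(r n/Q)`, `v r = ∑_{c∈Jset, r∈arc c} z c * fc Q b r`; the arcs `arc k (i+a) c`, `c < 2^(i+a)`, are pairwise disjoint (`arc k (i+a) c = Ico (c*2^(k-i-a)) ((c+1)*2^(k-i-a))`), so `‖v r‖ ≤ ‖fc Q b r‖`, and by Parseval
  (`Pf4`) `(1/Q) ∑_n ‖…‖² = ∑_r ‖v r‖² ≤ ∑_r ‖fc Q b r‖² ≤ B²` (`hs` in `Ps2_main`). (Compare `Ps2_L2`.)
* `Ps2_fin`: in place of `htri` (the product form) there is now the conclusion of `Pc3`: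
  `∑_{d',d∈I} |(1/Q) ∑_{n<Q} b b b - Re ∑_{c,c'∈Jset} ee(-(α c d')) ee(-(α c' d)) t c c'| ≤ 2 B² ρ H²`, `t c c' = (1/Q) ∑_{n<Q} b u_c u_c'`. As there, `p j l = R (t (e j) (e l)).re`, `q j l = R (t (e j) (e l)).im`, `R = Q/N`; pointwise for each `(d',d)`:
  `N * ∑_j ∑_l (p cos + q sin) = Q * Re ∑_{c,c'} ee(-(α c d')) ee(-(α c' d)) t c c'` (`Ps2_ee_add`, `Ps2_ee_re`, `Ps2_ee_im`: `Re (ee(-s) t) = t.re cos(2πs) + t.im sin(2πs)`), `∑_{n<Q} b b b = ∑_{n<N} b b b` (`hsumQ`). So the sum in question is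
  `≤ Q * 2 B² ρ H² ≤ 8 N B² ρ H² ≤ ε N H²`, since `100 B² ρ = ε` (`hρB`).
-/

set_option autoImplicit false

namespace Pool.Agent.H39.AE

open Finset Pool.Agent.H12.DM Pool.Agent.H12.DN

private theorem Ps3_idx (S : Finset ℕ) : ∃ e : Fin S.card → ℕ,
    (∀ j, e j ∈ S) ∧ ∀ g : ℕ → ℝ, ∑ c ∈ S, g c = ∑ j, g (e j) := by
  refine ⟨fun j => (S.equivFin.symm j : ℕ), fun j => (S.equivFin.symm j).2, fun g => ?_⟩
  rw [← Finset.sum_coe_sort S g]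
  exact (Equiv.sum_comp S.equivFin.symm (fun x : S => g (x : ℕ))).symm

private theorem Ps3_rng (L n : ℕ) (s : ℕ → ℝ) :
    ∑ j ∈ range n, ∑ r ∈ Ico (j * L) ((j + 1) * L), s r = ∑ r ∈ range (n * L), s r := by
  induction n with
  | zero => simp
  | succ n ih =>
    rw [sum_range_succ, ih, Finset.range_eq_Ico, Finset.range_eq_Ico]
    exact Finset.sum_Ico_consecutive s (Nat.zero_le _) (Nat.mul_le_mul_right L (Nat.le_succ n))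

private theorem Ps3_part (k i : ℕ) (hi : i ≤ k) (s : ℕ → ℝ) :
    ∑ j ∈ range (2 ^ i), ms k i j s = ∑ r ∈ range (2 ^ k), s r := by
  have h := Ps3_rng (2 ^ (k - i)) (2 ^ i) s
  rw [← pow_add, Nat.add_sub_of_le hi] at h
  exact h

private theorem Ps3_sub {k i a j c : ℕ} (hia : i + a ≤ k) (hc : c < 2 ^ a) :
    arc k (i + a) (j * 2 ^ a + c) ⊆ arc k i j := by
  have e : 2 ^ (k - i) = 2 ^ a * 2 ^ (k - (i + a)) := by
    rw [← pow_add]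
    have : k - i = a + (k - (i + a)) := by omega
    rw [this]
  unfold arc
  apply Finset.Ico_subset_Ico
  · rw [e, ← mul_assoc]
    exact Nat.mul_le_mul_right _ (Nat.le_add_right _ _)
  · rw [e, ← mul_assoc]
    apply Nat.mul_le_mul_right
    calc j * 2 ^ a + c + 1 ≤ j * 2 ^ a + 2 ^ a := by omega
      _ = (j + 1) * 2 ^ a := by ring

private theorem Ps3_arc_range {k i c : ℕ} (hi : i ≤ k) (hc : c < 2 ^ i) :
    arc k i c ⊆ range (2 ^ k) := by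
  unfold arc
  intro r hr
  rw [Finset.mem_Ico] at hr
  rw [Finset.mem_range]
  have h1 : (c + 1) * 2 ^ (k - i) ≤ 2 ^ i * 2 ^ (k - i) := Nat.mul_le_mul_right _ hc
  rw [← pow_add, Nat.add_sub_of_le hi] at h1
  exact lt_of_lt_of_le hr.2 h1

private theorem Ps3_Jset (k i a : ℕ) (hia : i + a ≤ k) (s : ℕ → ℝ) (hs : ∀ r, 0 ≤ s r) (ε₁ η C : ℝ)
    (hη : η ≤ 2 * ε₁) (hsum : ∑ r ∈ range (2 ^ k), s r ≤ C)
    (hP : ∀ j : ℕ, j < 2 ^ i → 2 * ε₁ ≤ ms k i j s →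
      ∃ c : ℕ, c < 2 ^ a ∧ ms k i j s - η ≤ ms k (i + a) (j * 2 ^ a + c) s) (hε : 0 < ε₁) :
    ∃ Jset : Finset ℕ, (Jset.card : ℝ) * (2 * ε₁) ≤ C ∧ (∀ c ∈ Jset, c < 2 ^ (i + a)) ∧
      (∀ c ∈ Jset, 2 * ε₁ - η ≤ ms k (i + a) c s) ∧
      ∀ j : ℕ, j < 2 ^ i →
        ms k i j (fun r => if ∃ c ∈ Jset, r ∈ arc k (i + a) c then 0 else s r) ≤ 2 * ε₁ := by
  classical
  choose! c hc using hP
  have hms : ∀ j, 0 ≤ ms k i j s := fun j => Finset.sum_nonneg fun r _ => hs r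
  refine ⟨((range (2 ^ i)).filter (fun j => 2 * ε₁ ≤ ms k i j s)).image (fun j => j * 2 ^ a + c j),
    ?_, ?_, ?_, ?_⟩
  · have h1 : ((((range (2 ^ i)).filter (fun j => 2 * ε₁ ≤ ms k i j s)).image
        (fun j => j * 2 ^ a + c j)).card : ℝ) ≤
        (((range (2 ^ i)).filter (fun j => 2 * ε₁ ≤ ms k i j s)).card : ℝ) := by
      exact_mod_cast Finset.card_image_le
    have h2 : (((range (2 ^ i)).filter (fun j => 2 * ε₁ ≤ ms k i j s)).card : ℝ) * (2 * ε₁) ≤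
        ∑ j ∈ (range (2 ^ i)).filter (fun j => 2 * ε₁ ≤ ms k i j s), ms k i j s := by
      rw [← nsmul_eq_mul]
      exact Finset.card_nsmul_le_sum _ _ _ fun j hj => (Finset.mem_filter.1 hj).2
    have h3 : ∑ j ∈ (range (2 ^ i)).filter (fun j => 2 * ε₁ ≤ ms k i j s), ms k i j s ≤
        ∑ j ∈ range (2 ^ i), ms k i j s :=
      Finset.sum_le_sum_of_subset_of_nonneg (Finset.filter_subset _ _) fun j _ _ => hms j
    rw [Ps3_part k i (by omega) s] at h3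
    calc ((((range (2 ^ i)).filter (fun j => 2 * ε₁ ≤ ms k i j s)).image
        (fun j => j * 2 ^ a + c j)).card : ℝ) * (2 * ε₁) ≤
        (((range (2 ^ i)).filter (fun j => 2 * ε₁ ≤ ms k i j s)).card : ℝ) * (2 * ε₁) :=
          mul_le_mul_of_nonneg_right h1 (by linarith)
      _ ≤ C := h2.trans (h3.trans hsum)
  · intro c' hc'
    rw [Finset.mem_image] at hc'
    obtain ⟨j, hj, rfl⟩ := hc'
    rw [Finset.mem_filter, Finset.mem_range] at hj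
    obtain ⟨h1, -⟩ := hc j hj.1 hj.2
    calc j * 2 ^ a + c j < j * 2 ^ a + 2 ^ a := by omega
      _ = (j + 1) * 2 ^ a := by ring
      _ ≤ 2 ^ i * 2 ^ a := Nat.mul_le_mul_right _ hj.1
      _ = 2 ^ (i + a) := (pow_add 2 i a).symm
  · intro c' hc'
    rw [Finset.mem_image] at hc'
    obtain ⟨j, hj, rfl⟩ := hc'
    rw [Finset.mem_filter, Finset.mem_range] at hj
    obtain ⟨-, h1⟩ := hc j hj.1 hj.2
    have h2 := hj.2
    linarith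
  · intro j hj
    by_cases hh : 2 * ε₁ ≤ ms k i j s
    · obtain ⟨h1, h2⟩ := hc j hj hh
      have hmem : j * 2 ^ a + c j ∈ ((range (2 ^ i)).filter (fun j => 2 * ε₁ ≤ ms k i j s)).image
          (fun j => j * 2 ^ a + c j) :=
        Finset.mem_image_of_mem (fun j => j * 2 ^ a + c j)
          (Finset.mem_filter.2 ⟨Finset.mem_range.2 hj, hh⟩)
      have hsub : arc k (i + a) (j * 2 ^ a + c j) ⊆ arc k i j := Ps3_sub hia h1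
      have h3 : ∑ r ∈ arc k i j \ arc k (i + a) (j * 2 ^ a + c j), s r +
          ∑ r ∈ arc k (i + a) (j * 2 ^ a + c j), s r = ∑ r ∈ arc k i j, s r :=
        Finset.sum_sdiff hsub
      have h4 := Finset.sum_sdiff (f := fun r => if ∃ c' ∈ ((range (2 ^ i)).filter
        (fun j => 2 * ε₁ ≤ ms k i j s)).image (fun j => j * 2 ^ a + c j), r ∈ arc k (i + a) c'
        then 0 else s r) hsub
      have h5 : ∑ r ∈ arc k (i + a) (j * 2 ^ a + c j), (fun r => if ∃ c' ∈ ((range (2 ^ i)).filter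
        (fun j => 2 * ε₁ ≤ ms k i j s)).image (fun j => j * 2 ^ a + c j), r ∈ arc k (i + a) c'
        then 0 else s r) r = 0 := by
        refine Finset.sum_eq_zero fun r hr => ?_
        exact if_pos ⟨_, hmem, hr⟩
      have h6 : ∑ r ∈ arc k i j \ arc k (i + a) (j * 2 ^ a + c j), (fun r => if ∃ c' ∈ ((range (2 ^ i)).filter
        (fun j => 2 * ε₁ ≤ ms k i j s)).image (fun j => j * 2 ^ a + c j), r ∈ arc k (i + a) c'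
        then 0 else s r) r ≤ ∑ r ∈ arc k i j \ arc k (i + a) (j * 2 ^ a + c j), s r := by
        refine Finset.sum_le_sum fun r _ => ?_
        change (if _ then _ else _) ≤ _
        split_ifs
        · exact hs r
        · exact le_rfl
      unfold ms at h2
      rw [h5, add_zero] at h4
      refine (le_of_eq h4.symm).trans ?_
      linarith
    · have h1 : ms k i j (fun r => if ∃ c' ∈ ((range (2 ^ i)).filter
        (fun j => 2 * ε₁ ≤ ms k i j s)).image (fun j => j * 2 ^ a + c j), r ∈ arc k (i + a) c'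
        then 0 else s r) ≤ ms k i j s := by
        refine Finset.sum_le_sum fun r _ => ?_
        change (if _ then _ else _) ≤ _
        split_ifs
        · exact hs r
        · exact le_rfl
      linarith [not_le.1 hh]

private theorem Ps3_L2 (Q : ℕ) (hQ : 0 < Q) (b : ℤ → ℝ) (J : Finset ℕ) (hJ : J ⊆ range Q) :
    (1 / (Q : ℝ)) * ∑ n ∈ range Q, ‖pj Q b J n‖ ^ 2 = ∑ r ∈ J, ‖fc Q b r‖ ^ 2 := by
  classical
  have h := Pf4 Q hQ (fun r => if r ∈ J then fc Q b r else 0)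
  have h1 : ∀ n : ℕ, ∑ r ∈ range Q, (if r ∈ J then fc Q b r else 0) *
      Pool.Agent.H12.DN.ee ((r : ℝ) * (n : ℝ) / (Q : ℝ)) = pj Q b J n := by
    intro n
    unfold pj
    rw [← Finset.sum_subset hJ]
    · exact Finset.sum_congr rfl fun r hr => by rw [if_pos hr]
    · intro r _ hr
      rw [if_neg hr, zero_mul]
  have h2 : ∑ r ∈ range Q, ‖(if r ∈ J then fc Q b r else 0)‖ ^ 2 = ∑ r ∈ J, ‖fc Q b r‖ ^ 2 := by
    rw [← Finset.sum_subset hJ]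
    · exact Finset.sum_congr rfl fun r hr => by rw [if_pos hr]
    · intro r _ hr
      rw [if_neg hr, norm_zero, zero_pow two_ne_zero]
  simp only [h1] at h
  rw [h2] at h
  exact h

private theorem Ps3_tri (Q : ℕ) (hQ : 0 < Q) (b : ℤ → ℝ) (B : ℝ) (hB : 0 ≤ B) (hb : ∀ n, |b n| ≤ B)
    (u u' : ℕ → ℂ) (h1 : (1 / (Q : ℝ)) * ∑ n ∈ range Q, ‖u n‖ ^ 2 ≤ B ^ 2)
    (h2 : (1 / (Q : ℝ)) * ∑ n ∈ range Q, ‖u' n‖ ^ 2 ≤ B ^ 2) :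
    ‖(1 / (Q : ℂ)) * ∑ n ∈ range Q, (b (n : ℤ) : ℂ) * u n * u' n‖ ≤ B ^ 3 := by
  have hQ' : (0 : ℝ) < Q := by exact_mod_cast hQ
  calc ‖(1 / (Q : ℂ)) * ∑ n ∈ range Q, (b (n : ℤ) : ℂ) * u n * u' n‖
      ≤ (1 / (Q : ℝ)) * ∑ n ∈ range Q, ‖(b (n : ℤ) : ℂ) * u n * u' n‖ := by
        rw [norm_mul, norm_div, norm_one, Complex.norm_natCast]
        exact mul_le_mul_of_nonneg_left (norm_sum_le _ _) (by positivity)
    _ ≤ (1 / (Q : ℝ)) * ∑ n ∈ range Q, (B / 2 * ‖u n‖ ^ 2 + B / 2 * ‖u' n‖ ^ 2) := by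
        apply mul_le_mul_of_nonneg_left _ (by positivity)
        apply sum_le_sum
        intro n _
        rw [norm_mul, norm_mul, Complex.norm_real, Real.norm_eq_abs]
        have h3 : |b (n : ℤ)| * ‖u n‖ * ‖u' n‖ ≤ B * ‖u n‖ * ‖u' n‖ := by
          have := hb (n : ℤ)
          gcongr
        have h4 : 0 ≤ B * (‖u n‖ - ‖u' n‖) ^ 2 := by positivity
        nlinarith
    _ = B / 2 * ((1 / (Q : ℝ)) * ∑ n ∈ range Q, ‖u n‖ ^ 2) +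
        B / 2 * ((1 / (Q : ℝ)) * ∑ n ∈ range Q, ‖u' n‖ ^ 2) := by
        rw [sum_add_distrib, ← mul_sum, ← mul_sum]
        ring
    _ ≤ B / 2 * B ^ 2 + B / 2 * B ^ 2 := by gcongr
    _ = B ^ 3 := by ring

private theorem Ps3_ee (t : ℝ) : Pool.Agent.H12.DN.ee t = Complex.exp (((2 * Real.pi * t : ℝ) : ℂ) * Complex.I) := by
  unfold Pool.Agent.H12.DN.ee
  push_cast
  rfl

private theorem Ps3_ee_re (t : ℝ) : (Pool.Agent.H12.DN.ee (-t)).re = Real.cos (2 * Real.pi * t) := by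
  rw [Ps3_ee, Complex.exp_ofReal_mul_I_re, ← Real.cos_neg]
  ring_nf

private theorem Ps3_ee_im (t : ℝ) : (Pool.Agent.H12.DN.ee (-t)).im = - Real.sin (2 * Real.pi * t) := by
  rw [Ps3_ee, Complex.exp_ofReal_mul_I_im, ← Real.sin_neg]
  ring_nf

private theorem Ps3_ee_add (s t : ℝ) : Pool.Agent.H12.DN.ee (-s) * Pool.Agent.H12.DN.ee (-t) = Pool.Agent.H12.DN.ee (-(s + t)) := by
  rw [Ps3_ee, Ps3_ee, Ps3_ee, ← Complex.exp_add]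
  congr 1
  push_cast
  ring

private theorem Ps3_re1 (H : ℕ) (w : ℤ → ℝ) (α τ : ℝ) : (Fw H w α * (τ : ℂ)).re =
    ∑ d ∈ Finset.Icc 1 (H : ℤ), w d * (τ * Real.cos (2 * Real.pi * (α * d))) := by
  unfold Fw
  rw [Finset.sum_mul, Complex.re_sum]
  refine Finset.sum_congr rfl fun d _ => ?_
  rw [mul_assoc, Complex.re_ofReal_mul, Complex.re_mul_ofReal, Ps3_ee_re, mul_comm (Real.cos _) τ]

open scoped Classical in
private theorem Ps3_near (k i a : ℕ) (hia : i + a ≤ k) (s : ℕ → ℝ) (δ η μ β : ℝ) (hδ : 0 < δ)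
    (ha : 2 / δ + 2 ≤ (2 : ℝ) ^ a) (hs : ∀ r, 0 ≤ s r) (hημ : η < μ)
    (hlast : ∑ r ∈ (Finset.range (2 ^ k)).filter (fun r : ℕ =>
          (∀ z : ℤ, 1 / (2 : ℝ) ^ (i + a) ≤ |(r : ℝ) / (2 : ℝ) ^ k - β - z|) ∧
          (∃ z : ℤ, |(r : ℝ) / (2 : ℝ) ^ k - β - z| ≤ (2 : ℝ) ^ a / (2 : ℝ) ^ i)), s r ≤ η)
    (c : ℕ) (hc : c < 2 ^ (i + a)) (hm : μ ≤ ms k (i + a) c s) :
    (∃ z : ℤ, |(c : ℝ) / (2 : ℝ) ^ (i + a) - β - z| ≤ δ / (2 : ℝ) ^ i) ∨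
      (∀ z : ℤ, 1 / (δ * (2 : ℝ) ^ i) ≤ |(c : ℝ) / (2 : ℝ) ^ (i + a) - β - z|) := by
  have hApos : (0 : ℝ) < (2 : ℝ) ^ (i + a) := by positivity
  have hKpos : (0 : ℝ) < (2 : ℝ) ^ k := by positivity
  have hIpos : (0 : ℝ) < (2 : ℝ) ^ i := by positivity
  have hapos : (0 : ℝ) < (2 : ℝ) ^ a := by positivity
  have hDpos : (0 : ℝ) < (2 : ℝ) ^ (k - (i + a)) := by positivity
  have hK : (2 : ℝ) ^ k = (2 : ℝ) ^ (i + a) * (2 : ℝ) ^ (k - (i + a)) := by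
    rw [← pow_add, Nat.add_sub_of_le hia]
  obtain ⟨r, hr, hr2⟩ : ∃ r ∈ arc k (i + a) c, ¬ ((∀ z : ℤ, 1 / (2 : ℝ) ^ (i + a) ≤ |(r : ℝ) / (2 : ℝ) ^ k - β - z|) ∧
          (∃ z : ℤ, |(r : ℝ) / (2 : ℝ) ^ k - β - z| ≤ (2 : ℝ) ^ a / (2 : ℝ) ^ i)) := by
    by_contra hcon
    have hsub : arc k (i + a) c ⊆ (Finset.range (2 ^ k)).filter (fun r : ℕ =>
          (∀ z : ℤ, 1 / (2 : ℝ) ^ (i + a) ≤ |(r : ℝ) / (2 : ℝ) ^ k - β - z|) ∧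
          (∃ z : ℤ, |(r : ℝ) / (2 : ℝ) ^ k - β - z| ≤ (2 : ℝ) ^ a / (2 : ℝ) ^ i)) := by
      intro r hr
      rw [Finset.mem_filter]
      refine ⟨Ps3_arc_range hia hc hr, ?_⟩
      by_contra hno
      exact hcon ⟨r, hr, hno⟩
    have h1 : μ ≤ ∑ r ∈ arc k (i + a) c, s r := hm
    have h2 := Finset.sum_le_sum_of_subset_of_nonneg hsub (f := s) fun r _ _ => hs r
    linarith
  have hlo : (c : ℝ) / (2 : ℝ) ^ (i + a) ≤ (r : ℝ) / (2 : ℝ) ^ k := by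
    have h1 : c * 2 ^ (k - (i + a)) ≤ r := (Finset.mem_Ico.1 hr).1
    have h2 : (c : ℝ) * (2 : ℝ) ^ (k - (i + a)) ≤ (r : ℝ) := by exact_mod_cast h1
    rw [div_le_div_iff₀ hApos hKpos, hK]
    nlinarith
  have hhi : (r : ℝ) / (2 : ℝ) ^ k < (c : ℝ) / (2 : ℝ) ^ (i + a) + 1 / (2 : ℝ) ^ (i + a) := by
    have h1 : r < (c + 1) * 2 ^ (k - (i + a)) := (Finset.mem_Ico.1 hr).2
    have h2 : (r : ℝ) < ((c : ℝ) + 1) * (2 : ℝ) ^ (k - (i + a)) := by exact_mod_cast h1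
    rw [← add_div, div_lt_div_iff₀ hKpos hApos, hK]
    nlinarith
  have hA : 1 / (2 : ℝ) ^ (i + a) = (1 / (2 : ℝ) ^ a) / (2 : ℝ) ^ i := by
    rw [pow_add]
    field_simp
  have h1a : 1 / (2 : ℝ) ^ a ≤ 1 := by
    rw [div_le_one hapos]
    exact one_le_pow₀ (by norm_num)
  have hδa : 2 * (1 / (2 : ℝ) ^ a) ≤ δ := by
    have h1 : 2 / δ ≤ (2 : ℝ) ^ a := by linarith
    rw [div_le_iff₀ hδ] at h1
    rw [mul_one_div, div_le_iff₀ hapos]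
    linarith
  by_cases h1 : ∀ z : ℤ, 1 / (2 : ℝ) ^ (i + a) ≤ |(r : ℝ) / (2 : ℝ) ^ k - β - z|
  · right
    intro z
    have h2 : ¬ |(r : ℝ) / (2 : ℝ) ^ k - β - z| ≤ (2 : ℝ) ^ a / (2 : ℝ) ^ i := fun h => hr2 ⟨h1, z, h⟩
    have h3 := not_le.1 h2
    have h4 : |(r : ℝ) / (2 : ℝ) ^ k - β - z| ≤ |(c : ℝ) / (2 : ℝ) ^ (i + a) - β - z| +
        1 / (2 : ℝ) ^ (i + a) := by
      have h5 : (r : ℝ) / (2 : ℝ) ^ k - β - z = ((c : ℝ) / (2 : ℝ) ^ (i + a) - β - z) +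
        ((r : ℝ) / (2 : ℝ) ^ k - (c : ℝ) / (2 : ℝ) ^ (i + a)) := by ring
      rw [h5]
      refine (abs_add_le _ _).trans ?_
      rw [abs_of_nonneg (by linarith : 0 ≤ (r : ℝ) / (2 : ℝ) ^ k - (c : ℝ) / (2 : ℝ) ^ (i + a))]
      linarith
    have h6 : 1 / (δ * (2 : ℝ) ^ i) ≤ (2 : ℝ) ^ a / (2 : ℝ) ^ i - 1 / (2 : ℝ) ^ (i + a) := by
      rw [hA, ← sub_div, ← div_div]
      apply div_le_div_of_nonneg_right _ hIpos.le
      have h7 : 2 / δ = 2 * (1 / δ) := by ring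
      have h8 : 0 < 1 / δ := by positivity
      linarith
    linarith
  · left
    push Not at h1
    obtain ⟨z, hz⟩ := h1
    refine ⟨z, ?_⟩
    have h4 : |(c : ℝ) / (2 : ℝ) ^ (i + a) - β - z| ≤ |(r : ℝ) / (2 : ℝ) ^ k - β - z| +
        1 / (2 : ℝ) ^ (i + a) := by
      have h5 : (c : ℝ) / (2 : ℝ) ^ (i + a) - β - z = ((r : ℝ) / (2 : ℝ) ^ k - β - z) -
        ((r : ℝ) / (2 : ℝ) ^ k - (c : ℝ) / (2 : ℝ) ^ (i + a)) := by ring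
      rw [h5]
      refine (abs_sub _ _).trans ?_
      rw [abs_of_nonneg (by linarith : 0 ≤ (r : ℝ) / (2 : ℝ) ^ k - (c : ℝ) / (2 : ℝ) ^ (i + a))]
      linarith
    have h6 : 2 * (1 / (2 : ℝ) ^ (i + a)) ≤ δ / (2 : ℝ) ^ i := by
      rw [hA, ← mul_div_assoc]
      exact div_le_div_of_nonneg_right hδa hIpos.le
    linarith

private theorem Ps3_alpha (k i a : ℕ) (hia : i + a ≤ k) (c r : ℕ) (hr : r ∈ arc k (i + a) c) : ∃ z : ℤ,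
      |(r : ℝ) / ((2 ^ k : ℕ) : ℝ) - (c : ℝ) / (2 : ℝ) ^ (i + a) - (z : ℝ)| ≤ 1 / ((2 ^ (i + a) : ℕ) : ℝ) := by
  have hApos : (0 : ℝ) < (2 : ℝ) ^ (i + a) := by positivity
  have hKpos : (0 : ℝ) < (2 : ℝ) ^ k := by positivity
  have hDpos : (0 : ℝ) < (2 : ℝ) ^ (k - (i + a)) := by positivity
  have hK : (2 : ℝ) ^ k = (2 : ℝ) ^ (i + a) * (2 : ℝ) ^ (k - (i + a)) := by
    rw [← pow_add, Nat.add_sub_of_le hia]
  have hlo : (c : ℝ) / (2 : ℝ) ^ (i + a) ≤ (r : ℝ) / (2 : ℝ) ^ k := by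
    have h1 : c * 2 ^ (k - (i + a)) ≤ r := (Finset.mem_Ico.1 hr).1
    have h2 : (c : ℝ) * (2 : ℝ) ^ (k - (i + a)) ≤ (r : ℝ) := by exact_mod_cast h1
    rw [div_le_div_iff₀ hApos hKpos, hK]
    nlinarith
  have hhi : (r : ℝ) / (2 : ℝ) ^ k < (c : ℝ) / (2 : ℝ) ^ (i + a) + 1 / (2 : ℝ) ^ (i + a) := by
    have h1 : r < (c + 1) * 2 ^ (k - (i + a)) := (Finset.mem_Ico.1 hr).2
    have h2 : (r : ℝ) < ((c : ℝ) + 1) * (2 : ℝ) ^ (k - (i + a)) := by exact_mod_cast h1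
    rw [← add_div, div_lt_div_iff₀ hKpos hApos, hK]
    nlinarith
  refine ⟨0, ?_⟩
  push_cast
  rw [sub_zero, abs_of_nonneg (by linarith)]
  linarith

private theorem Ps3_fin (N Q H m : ℕ) (ε B ρ : ℝ) (hN : 0 < N) (_hρ : 0 ≤ ρ)
    (hρ1 : 4 * (B * ρ) ≤ ε) (hρ2 : 8 * (B ^ 2 * ρ) ≤ ε) (hB : 0 ≤ B)
    (hNQ : N ≤ Q) (hQN : Q ≤ 4 * N) (b : ℤ → ℝ) (hbB : ∀ n, |b n| ≤ B)
    (hb : ∀ n : ℤ, n < 0 ∨ (N : ℤ) ≤ n → b n = 0)
    (Jset : Finset ℕ) (n₁ : ℕ) (e : Fin n₁ → ℕ) (he : ∀ j, e j ∈ Jset)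
    (hsum : ∀ g : ℕ → ℝ, ∑ c ∈ Jset, g c = ∑ j, g (e j)) (hm : 8 * (B + 1) ^ 3 ≤ (m : ℝ))
    (A : ℕ → Finset ℕ) (hA : ∀ c ∈ Jset, A c ⊆ range Q)
    (hs : ∑ r ∈ range Q, ‖fc Q b r‖ ^ 2 ≤ B ^ 2)
    (α : ℕ → ℝ)
    (hpair : ∀ w : ℤ → ℝ, (∀ d, |w d| ≤ 1) →
      |(1 / (Q : ℝ)) * ∑ n ∈ Finset.range Q, b (n : ℤ) * wf H w b (n : ℤ)
        - (∑ c ∈ Jset, Fw H w (α c) *
          ((1 / (Q : ℂ)) * ∑ n ∈ Finset.range Q, (b (n : ℤ) : ℂ) * pj Q b (A c) n)).re| ≤ B * ρ * (H : ℝ))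
    (htri : ∑ d' ∈ Finset.Icc 1 (H : ℤ), ∑ d ∈ Finset.Icc 1 (H : ℤ),
      |(1 / (Q : ℝ)) * ∑ n ∈ Finset.range Q, b (n : ℤ) * b ((n : ℤ) - d') * b ((n : ℤ) - d)
        - (∑ c ∈ Jset, ∑ c' ∈ Jset, Pool.Agent.H12.DN.ee (-(α c * (d' : ℝ))) * Pool.Agent.H12.DN.ee (-(α c' * (d : ℝ))) *
            ((1 / (Q : ℂ)) * ∑ n ∈ Finset.range Q, (b (n : ℤ) : ℂ) * pj Q b (A c) n * pj Q b (A c') n)).re|
      ≤ 2 * B ^ 2 * ρ * (H : ℝ) ^ 2) :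
    ∃ (τ : Fin n₁ → ℝ) (p q : Fin n₁ → Fin n₁ → ℝ),
      (∀ j, 0 ≤ τ j ∧ τ j ≤ m) ∧ (∀ j l, |p j l| ≤ m ∧ |q j l| ≤ m) ∧
      (∀ w : ℤ → ℝ, (∀ d, |w d| ≤ 1) →
        |∑ n ∈ Finset.range N, b (n : ℤ) * wf H w b (n : ℤ)
          - (N : ℝ) * ∑ d ∈ Finset.Icc 1 (H : ℤ), w d * ∑ j, τ j * Real.cos (2 * Real.pi * (α (e j) * d))|
          ≤ ε * (N : ℝ) * (H : ℝ)) ∧
      ∑ d' ∈ Finset.Icc 1 (H : ℤ), ∑ d ∈ Finset.Icc 1 (H : ℤ),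
        |∑ n ∈ Finset.range N, b (n : ℤ) * b ((n : ℤ) - d') * b ((n : ℤ) - d)
          - (N : ℝ) * ∑ j, ∑ l, (p j l * Real.cos (2 * Real.pi * (α (e j) * d' + α (e l) * d))
              + q j l * Real.sin (2 * Real.pi * (α (e j) * d' + α (e l) * d)))|
        ≤ ε * (N : ℝ) * (H : ℝ) ^ 2 := by
  have hNr : (0 : ℝ) < N := by exact_mod_cast hN
  have hQpos : 0 < Q := lt_of_lt_of_le hN hNQ
  have hQr : (0 : ℝ) < Q := by exact_mod_cast hQpos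
  have hQ4 : (Q : ℝ) ≤ 4 * N := by exact_mod_cast hQN
  obtain ⟨R, hR⟩ : ∃ R : ℝ, R = (Q : ℝ) / N := ⟨_, rfl⟩
  have hR0 : 0 ≤ R := by rw [hR]; positivity
  have hR4 : R ≤ 4 := by
    rw [hR, div_le_iff₀ hNr]
    exact hQ4
  have hNR : (N : ℝ) * R = Q := by
    rw [hR]
    field_simp
  have hτ1 : ∀ c ∈ Jset, ∑ r ∈ A c, ‖fc Q b r‖ ^ 2 ≤ B ^ 2 := fun c hc =>
    (Finset.sum_le_sum_of_subset_of_nonneg (hA c hc) fun r _ _ => by positivity).trans hs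
  have hτ0 : ∀ c, 0 ≤ ∑ r ∈ A c, ‖fc Q b r‖ ^ 2 := fun c => Finset.sum_nonneg fun r _ => by positivity
  obtain ⟨t, ht⟩ : ∃ t : ℕ → ℕ → ℂ, ∀ c c', t c c' = (1 / (Q : ℂ)) *
      ∑ n ∈ Finset.range Q, (b (n : ℤ) : ℂ) * pj Q b (A c) n * pj Q b (A c') n := ⟨_, fun _ _ => rfl⟩
  have htB : ∀ c ∈ Jset, ∀ c' ∈ Jset, ‖t c c'‖ ≤ B ^ 3 := by
    intro c hc c' hc'
    rw [ht]
    apply Ps3_tri Q hQpos b B hB hbB
    · rw [Ps3_L2 Q hQpos b _ (hA c hc)]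
      exact hτ1 c hc
    · rw [Ps3_L2 Q hQpos b _ (hA c' hc')]
      exact hτ1 c' hc'
  have hm2 : 4 * B ^ 2 ≤ (m : ℝ) := by nlinarith [pow_nonneg hB 3, pow_nonneg hB 2]
  have hm3 : 4 * B ^ 3 ≤ (m : ℝ) := by nlinarith [pow_nonneg hB 3, pow_nonneg hB 2]
  have hm0 : (0 : ℝ) ≤ m := Nat.cast_nonneg m
  have hRt : ∀ y : ℝ, |y| ≤ B ^ 3 → |R * y| ≤ m := by
    intro y hy
    rw [abs_mul, abs_of_nonneg hR0]
    calc R * |y| ≤ 4 * B ^ 3 := mul_le_mul hR4 hy (abs_nonneg y) (by norm_num)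
      _ ≤ m := hm3
  have hsumQ : ∀ f : ℕ → ℝ, ∑ n ∈ range Q, b (n : ℤ) * f n = ∑ n ∈ range N, b (n : ℤ) * f n := by
    intro f
    symm
    apply Finset.sum_subset (Finset.range_subset_range.2 hNQ)
    intro n _ hn
    rw [hb n (Or.inr (by exact_mod_cast not_lt.1 fun h => hn (Finset.mem_range.2 h))), zero_mul]
  refine ⟨fun j => R * ∑ r ∈ A (e j), ‖fc Q b r‖ ^ 2,
    fun j l => R * (t (e j) (e l)).re, fun j l => R * (t (e j) (e l)).im, ?_, ?_, ?_, ?_⟩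
  · intro j
    change 0 ≤ R * ∑ r ∈ A (e j), ‖fc Q b r‖ ^ 2 ∧ R * ∑ r ∈ A (e j), ‖fc Q b r‖ ^ 2 ≤ m
    refine ⟨mul_nonneg hR0 (hτ0 _), ?_⟩
    calc R * ∑ r ∈ A (e j), ‖fc Q b r‖ ^ 2 ≤ 4 * B ^ 2 :=
          mul_le_mul hR4 (hτ1 _ (he j)) (hτ0 _) (by norm_num)
      _ ≤ m := hm2
  · intro j l
    change |R * (t (e j) (e l)).re| ≤ m ∧ |R * (t (e j) (e l)).im| ≤ m
    exact ⟨hRt _ ((Complex.abs_re_le_norm _).trans (htB _ (he j) _ (he l))),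
      hRt _ ((Complex.abs_im_le_norm _).trans (htB _ (he j) _ (he l)))⟩
  · intro w hw
    have h1 := hpair w hw
    have h2 : (∑ c ∈ Jset, Fw H w (α c) * ((1 / (Q : ℂ)) *
        ∑ n ∈ Finset.range Q, (b (n : ℤ) : ℂ) * pj Q b (A c) n)).re =
        ∑ c ∈ Jset, ∑ d ∈ Finset.Icc 1 (H : ℤ), w d *
          ((∑ r ∈ A c, ‖fc Q b r‖ ^ 2) * Real.cos (2 * Real.pi * (α c * d))) := by
      rw [Complex.re_sum]
      refine Finset.sum_congr rfl fun c _ => ?_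
      rw [Pf3, Ps3_re1]
    have h3 : (N : ℝ) * ∑ d ∈ Finset.Icc 1 (H : ℤ), w d *
        ∑ j, (R * ∑ r ∈ A (e j), ‖fc Q b r‖ ^ 2) *
          Real.cos (2 * Real.pi * (α (e j) * d)) =
        Q * ∑ c ∈ Jset, ∑ d ∈ Finset.Icc 1 (H : ℤ), w d *
          ((∑ r ∈ A c, ‖fc Q b r‖ ^ 2) * Real.cos (2 * Real.pi * (α c * d))) := by
      have h4 : ∀ d : ℤ, ∑ j, (R * ∑ r ∈ A (e j), ‖fc Q b r‖ ^ 2) *
          Real.cos (2 * Real.pi * (α (e j) * d)) =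
          ∑ c ∈ Jset, R * ((∑ r ∈ A c, ‖fc Q b r‖ ^ 2) * Real.cos (2 * Real.pi * (α c * d))) := by
        intro d
        rw [hsum]
        refine Finset.sum_congr rfl fun j _ => ?_
        ring
      simp only [h4]
      rw [Finset.sum_comm, ← hNR, mul_assoc]
      congr 1
      rw [Finset.mul_sum]
      refine Finset.sum_congr rfl fun d _ => ?_
      rw [Finset.mul_sum, Finset.mul_sum]
      refine Finset.sum_congr rfl fun c _ => ?_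
      ring
    rw [h2, hsumQ] at h1
    change |∑ n ∈ Finset.range N, b (n : ℤ) * wf H w b (n : ℤ) - (N : ℝ) *
      ∑ d ∈ Finset.Icc 1 (H : ℤ), w d * ∑ j, (R * ∑ r ∈ A (e j), ‖fc Q b r‖ ^ 2) *
          Real.cos (2 * Real.pi * (α (e j) * d))| ≤ ε * (N : ℝ) * (H : ℝ)
    rw [h3]
    generalize (∑ c ∈ Jset, ∑ d ∈ Finset.Icc 1 (H : ℤ), w d *
      ((∑ r ∈ A c, ‖fc Q b r‖ ^ 2) * Real.cos (2 * Real.pi * (α c * d)))) = X at h1 ⊢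
    generalize ∑ n ∈ Finset.range N, b (n : ℤ) * wf H w b (n : ℤ) = S at h1 ⊢
    have h5 : S - Q * X = Q * (1 / (Q : ℝ) * S - X) := by
      field_simp
    rw [h5, abs_mul, abs_of_pos hQr]
    calc (Q : ℝ) * |1 / (Q : ℝ) * S - X| ≤ (4 * N) * (B * ρ * (H : ℝ)) :=
          mul_le_mul hQ4 h1 (abs_nonneg _) (by positivity)
      _ = 4 * (B * ρ) * (N * H) := by ring
      _ ≤ ε * (N * H) := mul_le_mul_of_nonneg_right hρ1 (by positivity)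
      _ = ε * N * H := by ring
  · have hpt : ∀ d' d : ℤ, |∑ n ∈ Finset.range N, b (n : ℤ) * b ((n : ℤ) - d') * b ((n : ℤ) - d)
          - (N : ℝ) * ∑ j, ∑ l, ((R * (t (e j) (e l)).re) *
            Real.cos (2 * Real.pi * (α (e j) * d' + α (e l) * d)) +
          (R * (t (e j) (e l)).im) *
            Real.sin (2 * Real.pi * (α (e j) * d' + α (e l) * d)))| =
        (Q : ℝ) * |(1 / (Q : ℝ)) * ∑ n ∈ Finset.range Q, b (n : ℤ) * b ((n : ℤ) - d') * b ((n : ℤ) - d)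
        - (∑ c ∈ Jset, ∑ c' ∈ Jset, Pool.Agent.H12.DN.ee (-(α c * (d' : ℝ))) * Pool.Agent.H12.DN.ee (-(α c' * (d : ℝ))) *
            ((1 / (Q : ℂ)) * ∑ n ∈ Finset.range Q, (b (n : ℤ) : ℂ) * pj Q b (A c) n * pj Q b (A c') n)).re| := by
      intro d' d
      have h2 : (∑ c ∈ Jset, ∑ c' ∈ Jset, Pool.Agent.H12.DN.ee (-(α c * (d' : ℝ))) * Pool.Agent.H12.DN.ee (-(α c' * (d : ℝ))) *
            ((1 / (Q : ℂ)) * ∑ n ∈ Finset.range Q, (b (n : ℤ) : ℂ) * pj Q b (A c) n * pj Q b (A c') n)).re =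
          ∑ c ∈ Jset, ∑ c' ∈ Jset, ((t c c').re * Real.cos (2 * Real.pi * (α c * d' + α c' * d)) +
            (t c c').im * Real.sin (2 * Real.pi * (α c * d' + α c' * d))) := by
        rw [Complex.re_sum]
        refine Finset.sum_congr rfl fun c _ => ?_
        rw [Complex.re_sum]
        refine Finset.sum_congr rfl fun c' _ => ?_
        rw [← ht, Ps3_ee_add, Complex.mul_re, Ps3_ee_re, Ps3_ee_im]
        ring
      have h4 : ∑ j, ∑ l, ((R * (t (e j) (e l)).re) *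
            Real.cos (2 * Real.pi * (α (e j) * d' + α (e l) * d)) +
          (R * (t (e j) (e l)).im) *
            Real.sin (2 * Real.pi * (α (e j) * d' + α (e l) * d))) =
          ∑ c ∈ Jset, ∑ c' ∈ Jset, R * ((t c c').re * Real.cos (2 * Real.pi * (α c * d' + α c' * d)) +
            (t c c').im * Real.sin (2 * Real.pi * (α c * d' + α c' * d))) := by
        rw [hsum]
        refine Finset.sum_congr rfl fun j _ => ?_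
        rw [hsum]
        refine Finset.sum_congr rfl fun l _ => ?_
        ring
      have h5 : (N : ℝ) * ∑ c ∈ Jset, ∑ c' ∈ Jset, R * ((t c c').re * Real.cos (2 * Real.pi * (α c * d' + α c' * d)) +
            (t c c').im * Real.sin (2 * Real.pi * (α c * d' + α c' * d))) =
          Q * ∑ c ∈ Jset, ∑ c' ∈ Jset, ((t c c').re * Real.cos (2 * Real.pi * (α c * d' + α c' * d)) +
            (t c c').im * Real.sin (2 * Real.pi * (α c * d' + α c' * d))) := by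
        rw [← hNR, mul_assoc]
        congr 1
        rw [Finset.mul_sum]
        refine Finset.sum_congr rfl fun c _ => ?_
        rw [Finset.mul_sum]
      have h6 : ∑ n ∈ Finset.range Q, b (n : ℤ) * b ((n : ℤ) - d') * b ((n : ℤ) - d) =
          ∑ n ∈ Finset.range N, b (n : ℤ) * b ((n : ℤ) - d') * b ((n : ℤ) - d) := by
        have h7 := hsumQ (fun n => b ((n : ℤ) - d') * b ((n : ℤ) - d))
        simp only [← mul_assoc] at h7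
        exact h7
      rw [h2, h6, h4, h5]
      generalize ∑ c ∈ Jset, ∑ c' ∈ Jset, ((t c c').re * Real.cos (2 * Real.pi * (α c * d' + α c' * d)) +
            (t c c').im * Real.sin (2 * Real.pi * (α c * d' + α c' * d))) = X
      generalize ∑ n ∈ Finset.range N, b (n : ℤ) * b ((n : ℤ) - d') * b ((n : ℤ) - d) = S
      have h8 : S - Q * X = Q * (1 / (Q : ℝ) * S - X) := by
        field_simp
      rw [h8, abs_mul, abs_of_pos hQr]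
    have h9 : ∑ d' ∈ Finset.Icc 1 (H : ℤ), ∑ d ∈ Finset.Icc 1 (H : ℤ), |∑ n ∈ Finset.range N, b (n : ℤ) * b ((n : ℤ) - d') * b ((n : ℤ) - d)
          - (N : ℝ) * ∑ j, ∑ l, ((R * (t (e j) (e l)).re) *
            Real.cos (2 * Real.pi * (α (e j) * d' + α (e l) * d)) +
          (R * (t (e j) (e l)).im) *
            Real.sin (2 * Real.pi * (α (e j) * d' + α (e l) * d)))| =
        (Q : ℝ) * ∑ d' ∈ Finset.Icc 1 (H : ℤ), ∑ d ∈ Finset.Icc 1 (H : ℤ), |(1 / (Q : ℝ)) * ∑ n ∈ Finset.range Q, b (n : ℤ) * b ((n : ℤ) - d') * b ((n : ℤ) - d)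
        - (∑ c ∈ Jset, ∑ c' ∈ Jset, Pool.Agent.H12.DN.ee (-(α c * (d' : ℝ))) * Pool.Agent.H12.DN.ee (-(α c' * (d : ℝ))) *
            ((1 / (Q : ℂ)) * ∑ n ∈ Finset.range Q, (b (n : ℤ) : ℂ) * pj Q b (A c) n * pj Q b (A c') n)).re| := by
      rw [Finset.mul_sum]
      refine Finset.sum_congr rfl fun d' _ => ?_
      rw [Finset.mul_sum]
      exact Finset.sum_congr rfl fun d _ => hpt d' d
    refine (le_of_eq h9).trans ?_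
    have h10 : (0 : ℝ) ≤ ∑ d' ∈ Finset.Icc 1 (H : ℤ), ∑ d ∈ Finset.Icc 1 (H : ℤ), |(1 / (Q : ℝ)) * ∑ n ∈ Finset.range Q, b (n : ℤ) * b ((n : ℤ) - d') * b ((n : ℤ) - d)
        - (∑ c ∈ Jset, ∑ c' ∈ Jset, Pool.Agent.H12.DN.ee (-(α c * (d' : ℝ))) * Pool.Agent.H12.DN.ee (-(α c' * (d : ℝ))) *
            ((1 / (Q : ℂ)) * ∑ n ∈ Finset.range Q, (b (n : ℤ) : ℂ) * pj Q b (A c) n * pj Q b (A c') n)).re| :=
      Finset.sum_nonneg fun _ _ => Finset.sum_nonneg fun _ _ => abs_nonneg _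
    calc _ ≤ (4 * (N : ℝ)) * (2 * B ^ 2 * ρ * (H : ℝ) ^ 2) :=
          mul_le_mul hQ4 htri h10 (by positivity)
      _ = 8 * (B ^ 2 * ρ) * (N * H ^ 2) := by ring
      _ ≤ ε * (N * H ^ 2) := mul_le_mul_of_nonneg_right hρ2 (by positivity)
      _ = ε * N * H ^ 2 := by ring

private theorem Ps3_hE (k i : ℕ) (hi : i ≤ k) (b : ℤ → ℝ) (B : ℝ)
    (hs : ∑ r ∈ range (2 ^ k), ‖fc (2 ^ k) b r‖ ^ 2 ≤ B ^ 2) (Jset : Finset ℕ)
    (hJ : ∀ c ∈ Jset, c < 2 ^ i) (z : ℕ → ℂ) (hz : ∀ c, ‖z c‖ ≤ 1) :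
    (1 / ((2 ^ k : ℕ) : ℝ)) * ∑ n ∈ Finset.range (2 ^ k),
      ‖∑ c ∈ Jset, z c * pj (2 ^ k) b (arc k i c) n‖ ^ 2 ≤ B ^ 2 := by
  classical
  have hQ : 0 < 2 ^ k := by positivity
  have hL : 0 < 2 ^ (k - i) := by positivity
  have harc : ∀ r c : ℕ, r ∈ arc k i c ↔ r / 2 ^ (k - i) = c := by
    intro r c
    unfold arc
    rw [Finset.mem_Ico, Nat.div_eq_iff hL]
    constructor
    · rintro ⟨h1, h2⟩
      rw [add_mul, one_mul] at h2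
      constructor <;> omega
    · rintro ⟨h1, h2⟩
      rw [add_mul, one_mul]
      constructor <;> omega
  obtain ⟨v, hv⟩ : ∃ v : ℕ → ℂ, ∀ r, v r =
      if r / 2 ^ (k - i) ∈ Jset then z (r / 2 ^ (k - i)) * fc (2 ^ k) b r else 0 := ⟨_, fun _ => rfl⟩
  have h1 : ∀ n : ℕ, ∑ c ∈ Jset, z c * pj (2 ^ k) b (arc k i c) n =
      ∑ r ∈ range (2 ^ k), v r * Pool.Agent.H12.DN.ee ((r : ℝ) * (n : ℝ) / ((2 ^ k : ℕ) : ℝ)) := by
    intro n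
    have h2 : ∑ r ∈ range (2 ^ k), v r * Pool.Agent.H12.DN.ee ((r : ℝ) * (n : ℝ) / ((2 ^ k : ℕ) : ℝ)) =
        ∑ r ∈ (range (2 ^ k)).filter (fun r => r / 2 ^ (k - i) ∈ Jset),
          z (r / 2 ^ (k - i)) * (fc (2 ^ k) b r * Pool.Agent.H12.DN.ee ((r : ℝ) * (n : ℝ) / ((2 ^ k : ℕ) : ℝ))) := by
      rw [Finset.sum_filter]
      refine Finset.sum_congr rfl fun r _ => ?_
      rw [hv]
      split_ifs
      · ring
      · ring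
    rw [h2, ← Finset.sum_fiberwise_of_maps_to (t := Jset) (g := fun r => r / 2 ^ (k - i))
      (fun r hr => (Finset.mem_filter.1 hr).2)]
    refine Finset.sum_congr rfl fun c hc => ?_
    unfold pj
    rw [Finset.mul_sum]
    have h3 : ((range (2 ^ k)).filter (fun r => r / 2 ^ (k - i) ∈ Jset)).filter
        (fun r => r / 2 ^ (k - i) = c) = arc k i c := by
      ext r
      rw [Finset.mem_filter, Finset.mem_filter, harc]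
      constructor
      · rintro ⟨-, h⟩
        exact h
      · intro h
        refine ⟨⟨Ps3_arc_range hi (hJ c hc) ((harc r c).2 h), ?_⟩, h⟩
        rw [h]
        exact hc
    rw [h3]
    refine Finset.sum_congr rfl fun r hr => ?_
    rw [(harc r c).1 hr]
  simp only [h1]
  rw [Pf4 (2 ^ k) hQ v]
  refine le_trans (Finset.sum_le_sum fun r _ => ?_) hs
  rw [hv]
  split_ifs
  · rw [norm_mul, mul_pow]
    have h2 : ‖z (r / 2 ^ (k - i))‖ ^ 2 ≤ 1 := pow_le_one₀ (norm_nonneg _) (hz _)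
    have h3 : 0 ≤ ‖fc (2 ^ k) b r‖ ^ 2 := by positivity
    nlinarith
  · rw [norm_zero, zero_pow two_ne_zero]
    positivity

private theorem Ps3_main (ε B : ℝ) (hε : 0 < ε) (hε1 : ε ≤ 1) (hB : 1 ≤ B) : ∃ m : ℕ, ∀ δ : ℝ, 0 < δ → ∀ s : ℕ, ∃ J N₀ : ℕ, ∀ N : ℕ, N₀ ≤ N → ∀ b : ℤ → ℝ,
    (∀ n, |b n| ≤ B) → (∀ n : ℤ, n < 0 ∨ (N : ℤ) ≤ n → b n = 0) → ∀ β : Fin s → ℝ,
    ∃ bad : Finset ℕ, bad.card ≤ J ∧ ∀ i : ℕ, i ∉ bad → 4 ^ i ≤ N →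
    ∃ (n₁ : ℕ) (α τ : Fin n₁ → ℝ) (p q : Fin n₁ → Fin n₁ → ℝ), n₁ ≤ m ∧
      (∀ j, 0 ≤ τ j ∧ τ j ≤ m) ∧ (∀ j l, |p j l| ≤ m ∧ |q j l| ≤ m) ∧
      (∀ (j : Fin n₁) (l : Fin s), (∃ z : ℤ, |α j - β l - z| ≤ δ / (2 : ℝ) ^ i) ∨
        (∀ z : ℤ, 1 / (δ * (2 : ℝ) ^ i) ≤ |α j - β l - z|)) ∧
      (∀ w : ℤ → ℝ, (∀ d, |w d| ≤ 1) →
        |∑ n ∈ Finset.range N, b (n : ℤ) * wf (2 ^ i) w b (n : ℤ)
          - (N : ℝ) * ∑ d ∈ Finset.Icc 1 (((2 ^ i : ℕ)) : ℤ), w d * ∑ j, τ j * Real.cos (2 * Real.pi * (α j * d))|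
          ≤ ε * (N : ℝ) * ((2 ^ i : ℕ) : ℝ)) ∧
      ∑ d' ∈ Finset.Icc 1 (((2 ^ i : ℕ)) : ℤ), ∑ d ∈ Finset.Icc 1 (((2 ^ i : ℕ)) : ℤ),
        |∑ n ∈ Finset.range N, b (n : ℤ) * b ((n : ℤ) - d') * b ((n : ℤ) - d)
          - (N : ℝ) * ∑ j, ∑ l, (p j l * Real.cos (2 * Real.pi * (α j * d' + α l * d))
              + q j l * Real.sin (2 * Real.pi * (α j * d' + α l * d)))|
        ≤ ε * (N : ℝ) * ((2 ^ i : ℕ) : ℝ) ^ 2 := by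
  have hB0 : 0 < B := by linarith
  obtain ⟨ρ, hρdef⟩ : ∃ ρ : ℝ, ρ = ε / (100 * B ^ 2) := ⟨_, rfl⟩
  have hρ : 0 < ρ := by rw [hρdef]; positivity
  have hρB : 100 * (B ^ 2 * ρ) = ε := by
    rw [hρdef]
    field_simp
  have hBB : B ≤ B ^ 2 := by nlinarith
  have hB1 : 1 ≤ B ^ 2 := by nlinarith
  have hρle : ρ ≤ B ^ 2 * ρ := by nlinarith
  have hBρ : B * ρ ≤ B ^ 2 * ρ := mul_le_mul_of_nonneg_right hBB hρ.le
  have hρ1 : 4 * (B * ρ) ≤ ε := by nlinarith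
  have hρle1 : ρ ≤ 1 := by nlinarith
  have hρ2 : 8 * (B ^ 2 * ρ) ≤ ε := by nlinarith [mul_nonneg (by positivity : (0:ℝ) ≤ B ^ 2) hρ.le]
  obtain ⟨ε₁, hε₁def⟩ : ∃ ε₁ : ℝ, ε₁ = ρ ^ 2 / 64 := ⟨_, rfl⟩
  have hε₁ : 0 < ε₁ := by rw [hε₁def]; positivity
  refine ⟨max (⌈B ^ 2 / (2 * ε₁)⌉₊ + 1) ⌈8 * (B + 1) ^ 3⌉₊, fun δ hδ s => ?_⟩
  obtain ⟨a, ha⟩ : ∃ a : ℕ, max (80 * B ^ 2 / ρ ^ 2) (2 / δ + 2) < (2 : ℝ) ^ a :=
    pow_unbounded_of_one_lt _ one_lt_two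
  have ha1 : 80 * B ^ 2 / ρ ^ 2 < (2 : ℝ) ^ a := (le_max_left _ _).trans_lt ha
  have ha2 : 2 / δ + 2 ≤ (2 : ℝ) ^ a := ((le_max_right _ _).trans_lt ha).le
  have ha3 : 40 * B ^ 2 / ((4 ^ a : ℕ) : ℝ) ≤ ρ ^ 2 / 2 := by
    have h1 : (2 : ℝ) ^ a ≤ ((4 ^ a : ℕ) : ℝ) := by
      push_cast
      exact pow_le_pow_left₀ (by norm_num) (by norm_num) a
    have h2 : (0 : ℝ) < ((4 ^ a : ℕ) : ℝ) := by positivity
    rw [div_lt_iff₀ (by positivity)] at ha1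
    rw [div_le_iff₀ h2]
    have h3 : (2 : ℝ) ^ a * ρ ^ 2 ≤ ((4 ^ a : ℕ) : ℝ) * ρ ^ 2 :=
      mul_le_mul_of_nonneg_right h1 (by positivity)
    nlinarith
  obtain ⟨J₁, hJ₁⟩ := Pa2 (B ^ 2) ε₁ (ε₁ / 2) a s (by positivity) (by positivity) (by linarith)
  refine ⟨J₁, 4 ^ (a + 2), fun N hN b hbB hb β => ?_⟩
  have hN1 : 1 ≤ N := (Nat.one_le_pow _ _ (by norm_num)).trans hN
  obtain ⟨k, hk1, hk2⟩ : ∃ k : ℕ, 2 * N ≤ 2 ^ k ∧ 2 ^ k ≤ 4 * N := by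
    refine ⟨Nat.clog 2 (2 * N), Nat.le_pow_clog (by norm_num) _, ?_⟩
    have h1 : 2 ^ (Nat.clog 2 (2 * N) - 1) < 2 * N := Nat.pow_pred_clog_lt_self (by norm_num) (by omega)
    have h2 : 1 ≤ Nat.clog 2 (2 * N) := Nat.clog_pos (by norm_num) (by omega)
    have h3 : 2 ^ Nat.clog 2 (2 * N) = 2 ^ (Nat.clog 2 (2 * N) - 1) * 2 := by
      rw [← pow_succ, Nat.sub_add_cancel h2]
    rw [h3]
    omega
  have hQpos : 0 < 2 ^ k := by positivity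
  have hs : ∑ r ∈ range (2 ^ k), ‖fc (2 ^ k) b r‖ ^ 2 ≤ B ^ 2 := by
    rw [Pf1 (2 ^ k) hQpos b]
    have h1 : ∑ n ∈ range (2 ^ k), (b (n : ℤ)) ^ 2 ≤ ((2 ^ k : ℕ) : ℝ) * B ^ 2 := by
      have h2 : ∑ n ∈ range (2 ^ k), (b (n : ℤ)) ^ 2 ≤ ∑ n ∈ range (2 ^ k), B ^ 2 :=
        Finset.sum_le_sum fun n _ => sq_le_sq' (by linarith [abs_le.1 (hbB (n : ℤ))]) (abs_le.1 (hbB (n : ℤ))).2
      rwa [Finset.sum_const, Finset.card_range, nsmul_eq_mul] at h2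
    have h3 : (0 : ℝ) < ((2 ^ k : ℕ) : ℝ) := by positivity
    rw [one_div, inv_mul_le_iff₀ h3]
    exact h1
  obtain ⟨bad, hb1, hb2⟩ := hJ₁ k β (fun r => ‖fc (2 ^ k) b r‖ ^ 2) (fun r => by positivity) hs
  refine ⟨bad, hb1, fun i hi hiN => ?_⟩
  have hia : i + a ≤ k := by
    have h1 : 4 ^ (i + a) ≤ N ^ 2 := by
      calc 4 ^ (i + a) = 4 ^ i * 4 ^ a := pow_add 4 i a
        _ ≤ N * 4 ^ (a + 2) := Nat.mul_le_mul hiN (Nat.pow_le_pow_right (by norm_num) (by omega))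
        _ ≤ N * N := Nat.mul_le_mul_left _ hN
        _ = N ^ 2 := by ring
    have h2 : (2 ^ (i + a)) ^ 2 ≤ (2 ^ k) ^ 2 := by
      calc (2 ^ (i + a)) ^ 2 = 4 ^ (i + a) := by rw [← pow_mul, mul_comm, pow_mul]; norm_num
        _ ≤ N ^ 2 := h1
        _ ≤ (2 ^ k) ^ 2 := Nat.pow_le_pow_left (by omega) 2
    have h3 : 2 ^ (i + a) ≤ 2 ^ k := (Nat.pow_le_pow_iff_left two_ne_zero).1 h2
    exact (Nat.pow_le_pow_iff_right (by norm_num)).1 h3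
  have hi1 : 2 ^ i ≤ N := (Nat.pow_le_pow_left (by norm_num) i).trans hiN
  obtain ⟨hb3, hb4⟩ := hb2 i hi hia
  obtain ⟨Jset, hc1, hc2, hc3, hc4⟩ := Ps3_Jset k i a hia (fun r => ‖fc (2 ^ k) b r‖ ^ 2)
    (fun r => by positivity) ε₁ (ε₁ / 2) (B ^ 2) (by linarith) hs hb3 hε₁
  obtain ⟨α, hαdef⟩ : ∃ α : ℕ → ℝ, ∀ c, α c = (c : ℝ) / (2 : ℝ) ^ (i + a) := ⟨_, fun _ => rfl⟩
  have hα1 : ∀ c ∈ Jset, ∀ r ∈ arc k (i + a) c, ∃ z : ℤ,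
      |(r : ℝ) / ((2 ^ k : ℕ) : ℝ) - α c - (z : ℝ)| ≤ 1 / ((2 ^ (i + a) : ℕ) : ℝ) := by
    intro c _ r hr
    rw [hαdef]
    exact Ps3_alpha k i a hia c r hr
  have hα2 : ∀ c ∈ Jset, ∀ l : Fin s, (∃ z : ℤ, |α c - β l - z| ≤ δ / (2 : ℝ) ^ i) ∨
        (∀ z : ℤ, 1 / (δ * (2 : ℝ) ^ i) ≤ |α c - β l - z|) := by
    intro c hc l
    rw [hαdef]
    exact Ps3_near k i a hia (fun r => ‖fc (2 ^ k) b r‖ ^ 2) δ (ε₁ / 2)
      (2 * ε₁ - ε₁ / 2) (β l) hδ ha2 (fun r => by positivity) (by linarith) (hb4 l) c (hc2 c hc) (hc3 c hc)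
  have hPb := Pb N k i a ε₁ B (by omega) hia b hbB hb Jset hc2 hc4 α hα1
  have hPb2 : ∀ w : ℤ → ℝ, (∀ d, |w d| ≤ 1) →
      (1 / ((2 ^ k : ℕ) : ℝ)) * ∑ n ∈ Finset.range (2 ^ k),
        ‖((wf (2 ^ i) w b (n : ℤ) : ℝ) : ℂ) - ∑ c ∈ Jset, Fw (2 ^ i) w (α c) *
          (fun c => pj (2 ^ k) b (arc k (i + a) c)) c n‖ ^ 2 ≤ ρ ^ 2 * ((2 ^ i : ℕ) : ℝ) ^ 2 := by
    intro w hw
    refine (hPb w hw).trans ?_
    apply mul_le_mul_of_nonneg_right _ (by positivity)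
    rw [hε₁def]
    linarith
  obtain ⟨hc5, -⟩ := Pc (2 ^ k) (2 ^ i) hQpos b B ρ hρ.le hbB Jset α
    (fun c => pj (2 ^ k) b (arc k (i + a) c)) hPb2
  have hc6 := Pc3 (2 ^ k) (2 ^ i) hQpos b B ρ hρ.le hbB Jset α
    (fun c => pj (2 ^ k) b (arc k (i + a) c))
    (fun z hz => Ps3_hE k (i + a) hia b B hs Jset hc2 z hz) hPb2
  have hcard : Jset.card ≤ max (⌈B ^ 2 / (2 * ε₁)⌉₊ + 1) ⌈8 * (B + 1) ^ 3⌉₊ := by
    have h1 : (Jset.card : ℝ) ≤ B ^ 2 / (2 * ε₁) := by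
      rw [le_div_iff₀ (by positivity)]
      exact hc1
    have h2 : (Jset.card : ℝ) ≤ (⌈B ^ 2 / (2 * ε₁)⌉₊ : ℝ) := h1.trans (Nat.le_ceil _)
    have h3 : Jset.card ≤ ⌈B ^ 2 / (2 * ε₁)⌉₊ := by exact_mod_cast h2
    exact (h3.trans (Nat.le_succ _)).trans (le_max_left _ _)
  have hm : 8 * (B + 1) ^ 3 ≤
      ((max (⌈B ^ 2 / (2 * ε₁)⌉₊ + 1) ⌈8 * (B + 1) ^ 3⌉₊ : ℕ) : ℝ) := by
    have h1 : 8 * (B + 1) ^ 3 ≤ (⌈8 * (B + 1) ^ 3⌉₊ : ℝ) := Nat.le_ceil _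
    have h2 : (⌈8 * (B + 1) ^ 3⌉₊ : ℝ) ≤
        ((max (⌈B ^ 2 / (2 * ε₁)⌉₊ + 1) ⌈8 * (B + 1) ^ 3⌉₊ : ℕ) : ℝ) := by
      exact_mod_cast le_max_right _ _
    exact h1.trans h2
  obtain ⟨e, he, hsum⟩ := Ps3_idx Jset
  obtain ⟨τ, p, q, h1, h2, h3, h4⟩ := Ps3_fin N (2 ^ k) (2 ^ i) _ ε B ρ hN1 hρ.le hρ1 hρ2 hB0.le (by omega) hk2 b hbB hb Jset
    Jset.card e he hsum hm (fun c => arc k (i + a) c) (fun c hc => Ps3_arc_range hia (hc2 c hc)) hs α hc5 hc6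
  exact ⟨Jset.card, fun j => α (e j), τ, p, q, hcard, h1, h2, fun j l => hα2 _ (he j) l, h3, h4⟩

theorem Ps3 (ε B : ℝ) (hε : 0 < ε) (hB : 0 < B) : ∃ m : ℕ, ∀ δ : ℝ, 0 < δ → ∀ s : ℕ, ∃ J N₀ : ℕ, ∀ N : ℕ, N₀ ≤ N → ∀ b : ℤ → ℝ,
    (∀ n, |b n| ≤ B) → (∀ n : ℤ, n < 0 ∨ (N : ℤ) ≤ n → b n = 0) → ∀ β : Fin s → ℝ,
    ∃ bad : Finset ℕ, bad.card ≤ J ∧ ∀ i : ℕ, i ∉ bad → 4 ^ i ≤ N →
    ∃ (n₁ : ℕ) (α τ : Fin n₁ → ℝ) (p q : Fin n₁ → Fin n₁ → ℝ), n₁ ≤ m ∧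
      (∀ j, 0 ≤ τ j ∧ τ j ≤ m) ∧ (∀ j l, |p j l| ≤ m ∧ |q j l| ≤ m) ∧
      (∀ (j : Fin n₁) (l : Fin s), (∃ z : ℤ, |α j - β l - z| ≤ δ / (2 : ℝ) ^ i) ∨
        (∀ z : ℤ, 1 / (δ * (2 : ℝ) ^ i) ≤ |α j - β l - z|)) ∧
      (∀ w : ℤ → ℝ, (∀ d, |w d| ≤ 1) →
        |∑ n ∈ Finset.range N, b (n : ℤ) * wf (2 ^ i) w b (n : ℤ)
          - (N : ℝ) * ∑ d ∈ Finset.Icc 1 (((2 ^ i : ℕ)) : ℤ), w d * ∑ j, τ j * Real.cos (2 * Real.pi * (α j * d))|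
          ≤ ε * (N : ℝ) * ((2 ^ i : ℕ) : ℝ)) ∧
      ∑ d' ∈ Finset.Icc 1 (((2 ^ i : ℕ)) : ℤ), ∑ d ∈ Finset.Icc 1 (((2 ^ i : ℕ)) : ℤ),
        |∑ n ∈ Finset.range N, b (n : ℤ) * b ((n : ℤ) - d') * b ((n : ℤ) - d)
          - (N : ℝ) * ∑ j, ∑ l, (p j l * Real.cos (2 * Real.pi * (α j * d' + α l * d))
              + q j l * Real.sin (2 * Real.pi * (α j * d' + α l * d)))|
        ≤ ε * (N : ℝ) * ((2 ^ i : ℕ) : ℝ) ^ 2 := by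
  obtain ⟨m, hm⟩ := Ps3_main (min ε 1) (max B 1) (lt_min hε one_pos) (min_le_right _ _)
    (le_max_right _ _)
  refine ⟨m, fun δ hδ s => ?_⟩
  obtain ⟨J, N₀, h⟩ := hm δ hδ s
  refine ⟨J, N₀, fun N hN b hbB hb β => ?_⟩
  obtain ⟨bad, h1, h2⟩ := h N hN b (fun n => (hbB n).trans (le_max_left _ _)) hb β
  refine ⟨bad, h1, fun i hi hiN => ?_⟩
  obtain ⟨n₁, α, τ, p, q, h0, h3, h4, h5, h6, h7⟩ := h2 i hi hiN
  have hle : min ε 1 ≤ ε := min_le_left _ _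
  refine ⟨n₁, α, τ, p, q, h0, h3, h4, h5, fun w hw => (h6 w hw).trans ?_, h7.trans ?_⟩
  · gcongr
  · gcongr

end Pool.Agent.H39.AE
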