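import Pool.Agent.H39.AE.In

/-!
# Pw: ordered pairs and two-element sets

* `Pw`: every two-element subset of `Icc 1 H ⊆ ℤ` is `{d', d}` for exactly two ordered pairs `(d', d)` of distinct elements of `Icc 1 H ⊆ ℕ` (cast to `ℤ`). Proof e.g.: `{(d' : ℤ), (d : ℤ)}`, `d ≠ d'`; the map `(d', d) ↦ {d', d}` from the
  off-diagonal (`Finset.sum_sigma'`, `Finset.sum_fiberwise_of_maps_to`) has fibres of size two (`Finset.card_eq_two`). Or split into `d' < d` and `d < d'` (symmetric since `{d', d} = {d, d'}`, `Finset.pair_comm`) and use the bijection of `d' < d` with `powersetCard 2` (`(min D, max D)`).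
* `Pw_sing`: from `Sgm 2` (`Pool/Agent/H6/AE/Sgm.lean`; only its STATEMENT) with `C/√y₀ ≤ ε/2` and `Pw` with `F D = |Sy y' (insert 0 D) - sing (insert 0 D)|`.
* `Pw_up`: from `UP_in (ε/2)` and `Pw`, `tc Q d' d ≤ cnt x {0, d', d}` for `1 ≤ d', d` and a set `Q` of primes `≤ x` (an element `p` of `Q` with `p - d', p - d ∈ Q` (natural subtraction, so `p - d` is prime, hence positive, hence `d < p`) is an `n = p < ⌊x⌋₊ + 1` with `n, n - d', n - d` prime;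
  definitions of `tc` in `Pool/Agent/H12/DM/Fin.lean`, of `cnt`, `isP` in `Pool/Agent/H6/MF/Defs.lean`; compare `Qg_tc` in `Pool/Agent/H12/DN/Qg.lean`, which is the case of all primes).
-/


set_option autoImplicit false

namespace Pool.Agent.H39.AE

open Finset Pool.Agent.H17 Pool.Agent.H6.MF Pool.Agent.H6.MB Pool.Agent.H12.DM Pool.Agent.H12.DN Pool.Agent.H96.AE Pool.Agent.H6.AE

lemma Pw_isP (n d : ℕ) : isP ((n : ℤ) - (d : ℤ)) ↔ (n - d).Prime := by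
  unfold isP
  rw [show ((n : ℤ) - (d : ℤ)).toNat = n - d by omega]

lemma Pw_isP0 (n : ℕ) : isP ((n : ℤ) - 0) ↔ n.Prime := by
  have h := Pw_isP n 0
  rw [Nat.cast_zero, Nat.sub_zero] at h
  exact h

lemma Pw_ioc (v : ℕ) : Finset.Ioc 0 (v + 1) = insert (v + 1) (Finset.Ioc 0 v) := by
  ext n
  rw [Finset.mem_insert, Finset.mem_Ioc, Finset.mem_Ioc]
  omega

lemma Pw_not (v : ℕ) : v + 1 ∉ Finset.Ioc 0 v := by
  rw [Finset.mem_Ioc]
  omega

lemma Pw_sym (t : ℕ → ℕ → ℝ) (ht : ∀ a b, t a b = t b a) (v : ℕ) :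
    ∑ d' ∈ Finset.Ioc 0 v, ∑ d ∈ (Finset.Ioc 0 v).erase d', t d' d
      = 2 * ∑ d ∈ Finset.Ioc 0 v, ∑ d' ∈ Finset.Ico 1 d, t d' d := by
  induction v with
  | zero => simp
  | succ v ih =>
    have e3 : Finset.Ico 1 (v + 1) = Finset.Ioc 0 v := by
      ext n
      rw [Finset.mem_Ioc, Finset.mem_Ico]
      omega
    rw [Pw_ioc, Finset.sum_insert (Pw_not v), Finset.sum_insert (Pw_not v), e3, Finset.erase_insert (Pw_not v)]
    have e1 : ∑ d' ∈ Finset.Ioc 0 v, ∑ d ∈ (insert (v + 1) (Finset.Ioc 0 v)).erase d', t d' d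
        = ∑ d' ∈ Finset.Ioc 0 v, (t d' (v + 1) + ∑ d ∈ (Finset.Ioc 0 v).erase d', t d' d) := by
      refine Finset.sum_congr rfl fun d' hd' => ?_
      have hne : v + 1 ≠ d' := by
        rw [Finset.mem_Ioc] at hd'
        omega
      rw [Finset.erase_insert_of_ne hne, Finset.sum_insert]
      intro h
      exact Pw_not v (Finset.mem_of_mem_erase h)
    rw [e1, Finset.sum_add_distrib, ih]
    have e2 : ∑ d ∈ Finset.Ioc 0 v, t (v + 1) d = ∑ d ∈ Finset.Ioc 0 v, t d (v + 1) :=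
      Finset.sum_congr rfl fun d _ => ht _ _
    rw [e2]
    ring

lemma Pw_ps (H : ℕ) (F : Finset ℤ → ℝ) :
    ∑ D ∈ Finset.powersetCard 2 (Finset.Icc 1 (H : ℤ)), F D =
      ∑ d ∈ Finset.Ioc 0 H, ∑ d' ∈ Finset.Ico 1 d, F {(d' : ℤ), (d : ℤ)} := by
  induction H with
  | zero =>
    simp [Finset.powersetCard_eq_empty.mpr]
  | succ H ih =>
    have h0 : Finset.Icc 1 (((H + 1 : ℕ) : ℤ)) = insert (((H + 1 : ℕ) : ℤ)) (Finset.Icc 1 (H : ℤ)) := by
      ext a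
      rw [Finset.mem_insert, Finset.mem_Icc, Finset.mem_Icc]
      push_cast
      omega
    have h1 : (((H + 1 : ℕ) : ℤ)) ∉ Finset.Icc 1 (H : ℤ) := by
      rw [Finset.mem_Icc]
      push_cast
      omega
    have h2 : Finset.Ioc 0 (H + 1) = insert (H + 1) (Finset.Ioc 0 H) := by
      ext a
      rw [Finset.mem_insert, Finset.mem_Ioc, Finset.mem_Ioc]
      omega
    have h3 : H + 1 ∉ Finset.Ioc 0 H := by
      rw [Finset.mem_Ioc]
      omega
    rw [h0, Finset.powersetCard_succ_insert h1, Finset.sum_union, ih, h2, Finset.sum_insert h3, add_comm]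
    · congr 1
      rw [Finset.sum_image, Finset.powersetCard_one, Finset.sum_map]
      · refine Finset.sum_nbij' (fun a => a.toNat) (fun d => (d : ℤ)) ?_ ?_ ?_ ?_ ?_
        · intro a ha
          rw [Finset.mem_Icc] at ha
          rw [Finset.mem_Ico]
          omega
        · intro a ha
          rw [Finset.mem_Ico] at ha
          rw [Finset.mem_Icc]
          omega
        · intro a ha
          rw [Finset.mem_Icc] at ha
          omega
        · intro a _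
          simp
        · intro a ha
          rw [Finset.mem_Icc] at ha
          have h4 : ((a.toNat : ℕ) : ℤ) = a := by omega
          rw [h4]
          show F (insert (((H + 1 : ℕ) : ℤ)) {a}) = _
          rw [Finset.pair_comm]
      · intro s hs t ht hst
        rw [Finset.mem_coe, Finset.mem_powersetCard] at hs ht
        have h5 : (((H + 1 : ℕ) : ℤ)) ∉ s := fun h => h1 (hs.1 h)
        have h6 : (((H + 1 : ℕ) : ℤ)) ∉ t := fun h => h1 (ht.1 h)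
        have h7 := congrArg (fun r => Finset.erase r (((H + 1 : ℕ) : ℤ))) hst
        simp only [Finset.erase_insert h5, Finset.erase_insert h6] at h7
        exact h7
    · rw [Finset.disjoint_left]
      intro s hs hs'
      rw [Finset.mem_powersetCard] at hs
      rw [Finset.mem_image] at hs'
      obtain ⟨t, _, rfl⟩ := hs'
      exact h1 (hs.1 (Finset.mem_insert_self _ _))

theorem Pw (H : ℕ) (F : Finset ℤ → ℝ) :
    ∑ d' ∈ Finset.Icc 1 H, ∑ d ∈ (Finset.Icc 1 H).erase d', F {(d' : ℤ), (d : ℤ)} =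
      2 * ∑ D ∈ Finset.powersetCard 2 (Finset.Icc 1 (H : ℤ)), F D := by
  rw [Pw_ps, ← Pw_sym (fun a b => F {(a : ℤ), (b : ℤ)}) (fun a b => by rw [Finset.pair_comm])]
  have h : Finset.Icc 1 H = Finset.Ioc 0 H := by
    ext a
    rw [Finset.mem_Icc, Finset.mem_Ioc]
    omega
  rw [h]

theorem Pw_sing (ε : ℝ) (hε : 0 < ε) : ∃ (y₀ : ℕ) (X : ℝ), 1 ≤ y₀ ∧ ∀ x : ℝ, X ≤ x → ∀ H : ℕ, Real.log x ≤ (H : ℝ) → (H : ℝ) ≤ (Real.log x) ^ 2 →
    ∀ y : ℕ, y₀ ≤ y → ∑ d' ∈ Finset.Icc 1 H, ∑ d ∈ (Finset.Icc 1 H).erase d',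
      |sing {0, (d' : ℤ), (d : ℤ)} - Sy y {0, (d' : ℤ), (d : ℤ)}| ≤ ε * (H : ℝ) ^ 2 := by
  obtain ⟨C, hC, hmain⟩ := Sgm 2
  obtain ⟨y₀, hy₀⟩ := exists_nat_ge ((2 * C / ε) ^ 2 + 1)
  have hy1 : 1 ≤ y₀ := by
    have : (1 : ℝ) ≤ y₀ := le_trans (by nlinarith [sq_nonneg (2 * C / ε)]) hy₀
    exact_mod_cast this
  obtain ⟨X, hX⟩ := hmain y₀ hy1
  refine ⟨y₀, X, hy1, fun x hx H hH1 hH2 y hy => ?_⟩
  have h1 := hX x hx H hH1 (by nlinarith [sq_nonneg (Real.log x)]) y hy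
  have h2 : ∑ d' ∈ Finset.Icc 1 H, ∑ d ∈ (Finset.Icc 1 H).erase d',
      |sing {0, (d' : ℤ), (d : ℤ)} - Sy y {0, (d' : ℤ), (d : ℤ)}| =
      2 * ∑ D ∈ Finset.powersetCard 2 (Finset.Icc 1 (H : ℤ)), |Sy y (insert 0 D) - sing (insert 0 D)| := by
    rw [← Pw H (fun D => |Sy y (insert 0 D) - sing (insert 0 D)|)]
    refine Finset.sum_congr rfl fun d' _ => Finset.sum_congr rfl fun d _ => ?_
    exact abs_sub_comm _ _
  rw [h2]
  have h3 : 2 * C / ε ≤ Real.sqrt y₀ := by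
    apply Real.le_sqrt_of_sq_le
    linarith
  have h4 : 0 < Real.sqrt (y₀ : ℝ) := lt_of_lt_of_le (by positivity) h3
  have h5 : 2 * (C / Real.sqrt (y₀ : ℝ)) ≤ ε := by
    rw [div_le_iff₀ hε] at h3
    rw [← mul_div_assoc, div_le_iff₀ h4]
    linarith
  calc 2 * ∑ D ∈ Finset.powersetCard 2 (Finset.Icc 1 (H : ℤ)), |Sy y (insert 0 D) - sing (insert 0 D)|
      ≤ 2 * (C / Real.sqrt (y₀ : ℝ) * (H : ℝ) ^ 2) := by linarith
    _ = 2 * (C / Real.sqrt (y₀ : ℝ)) * (H : ℝ) ^ 2 := by ring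
    _ ≤ ε * (H : ℝ) ^ 2 := mul_le_mul_of_nonneg_right h5 (sq_nonneg _)

lemma Pw_tc {x : ℝ} {Q : Finset ℕ} (h1 : ∀ p ∈ Q, p.Prime ∧ (p : ℝ) ≤ x) (d' d : ℕ) :
    tc Q d' d ≤ cnt x {0, (d' : ℤ), (d : ℤ)} := by
  unfold tc cnt
  apply Finset.card_le_card
  intro n hn
  rw [Finset.mem_filter] at hn
  obtain ⟨a, b, c⟩ := hn
  rw [Finset.mem_filter, Finset.mem_range, Nat.lt_succ_iff]
  refine ⟨Nat.le_floor (h1 n a).2, ?_⟩
  simp only [Finset.mem_insert, Finset.mem_singleton, forall_eq_or_imp, forall_eq]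
  rw [Pw_isP, Pw_isP, Pw_isP0]
  exact ⟨(h1 n a).1, (h1 _ b).1, (h1 _ c).1⟩

theorem Pw_up (ε : ℝ) (hε : 0 < ε) : ∃ K X : ℝ, ∀ x : ℝ, X ≤ x → ∀ Q : Finset ℕ, (∀ p ∈ Q, p.Prime ∧ (p : ℝ) ≤ x) →
    ∀ H : ℕ, K * Real.log x ≤ (H : ℝ) → (H : ℝ) ≤ (Real.log x) ^ 2 →
    ∑ d' ∈ Finset.Icc 1 H, ∑ d ∈ (Finset.Icc 1 H).erase d',
      max 0 ((tc Q d' d : ℝ) * (Real.log x) ^ 3 / x - 16 * sing {0, (d' : ℤ), (d : ℤ)}) ≤ ε * (H : ℝ) ^ 2 := by
  obtain ⟨K, X, hX⟩ := UP_in (ε / 2) (by positivity)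
  refine ⟨K, max X 1, fun x hx Q hQ H hH1 hH2 => ?_⟩
  have hx1 : 1 ≤ x := le_trans (le_max_right _ _) hx
  have hx0 : 0 < x := by linarith
  have hL : 0 ≤ Real.log x := Real.log_nonneg hx1
  have h1 := hX x (le_trans (le_max_left _ _) hx) H hH1 hH2
  calc ∑ d' ∈ Finset.Icc 1 H, ∑ d ∈ (Finset.Icc 1 H).erase d',
        max 0 ((tc Q d' d : ℝ) * (Real.log x) ^ 3 / x - 16 * sing {0, (d' : ℤ), (d : ℤ)})
      ≤ ∑ d' ∈ Finset.Icc 1 H, ∑ d ∈ (Finset.Icc 1 H).erase d',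
        (fun D => max 0 ((cnt x (insert 0 D) : ℝ) * (Real.log x) ^ 3 / x - 16 * sing (insert 0 D))) {(d' : ℤ), (d : ℤ)} := by
        refine Finset.sum_le_sum fun d' _ => Finset.sum_le_sum fun d _ => ?_
        apply max_le_max le_rfl
        have h2 : ((tc Q d' d : ℕ) : ℝ) ≤ (cnt x {0, (d' : ℤ), (d : ℤ)} : ℝ) := by exact_mod_cast Pw_tc hQ d' d
        have h3 : (tc Q d' d : ℝ) * (Real.log x) ^ 3 / x ≤ (cnt x {0, (d' : ℤ), (d : ℤ)} : ℝ) * (Real.log x) ^ 3 / x := by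
          gcongr
        linarith
    _ = 2 * ∑ D ∈ Finset.powersetCard 2 (Finset.Icc 1 (H : ℤ)),
        max 0 ((cnt x (insert 0 D) : ℝ) * (Real.log x) ^ 3 / x - 16 * sing (insert 0 D)) :=
        Pw H (fun D => max 0 ((cnt x (insert 0 D) : ℝ) * (Real.log x) ^ 3 / x - 16 * sing (insert 0 D)))
    _ ≤ ε * (H : ℝ) ^ 2 := by linarith

end Pool.Agent.H39.AE
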