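import Pool.Agent.H39.AE.T8L
import Pool.Agent.H39.AE.Ps3

/-!
# Qf3: almost periodicity of pairs and triples, triples in `L¹` over all pairs of differences

COPY the proof of `Qf2` (`Pool/Agent/H12/DN/Qf2.lean`) and modify it: use `T8L (e/100) hc0 0` instead of `T8 (e/100) hc0` and `Ps3` instead of `Ps2` (only their STATEMENTS).
* Pairs (`PairsAP`, for all `D ⊆ Icc 1 H`): the sum over `D` of the `L¹` bound of `T8L` gives the bound for `|∑_{d∈D} …|` used there (`h1`); the rest is unchanged.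
* Triples: by the triangle inequality, for each pair `(d', d)`, `S = ∑_{n<N} b(n) b(n-d') b(n-d)`, `P = ∑_j ∑_l (p cos + q sin)` at `α'`, `|P| ≤ 2 m³` (`Qf2_S3`):
  `|tc L³/x - P| ≤ |tc L³ - S|/x + |S - N P|/x + |N/x - 1| |P|`, `|N/x - 1| ≤ 1/x`. Sum over `d' ∈ Icc 1 H`, `d ∈ (Icc 1 H).erase d'`: `≤ (e/100) H² + 2 (e/100) H² + H² 2 m³/x ≤ 8 (e/100) H²` (for the second term the sum over all `d, d' ∈ Icc 1 (H : ℤ)` of
  nonnegative terms is larger; pass from `ℕ` to `ℤ` by the injection `d ↦ (d : ℤ)`, `Finset.sum_image` / `Nat.image_cast_int_Icc`; `hmx : 2 m³ ≤ (e/100) x`). Then replace `α'` by `α` (`Qf2_move`, `Qf2_m3` pointwise: `≤ 4 (e/100)` each). Total `≤ 12 (e/100) H² ≤ e H²`.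
  `S3` (`Pool/Agent/H12/DN/Qh1.lean`) and `TripL` (`Pool/Agent/H39/AE/In.lean`) are exactly of this form (`unfold`).
-/

set_option autoImplicit false

namespace Pool.Agent.H39.AE

open Finset Pool.Agent.H17 Pool.Agent.H6.MF Pool.Agent.H6.MB Pool.Agent.H12.DM Pool.Agent.H12.DN Pool.Agent.H96.AE Pool.Agent.H6.AE

lemma Qf3_cast (H : ℕ) (F : ℤ → ℤ → ℝ) :
    ∑ d' ∈ Finset.Icc 1 (H : ℤ), ∑ d ∈ Finset.Icc 1 (H : ℤ), F d' d =
      ∑ d' ∈ Finset.Icc 1 H, ∑ d ∈ Finset.Icc 1 H, F (d' : ℤ) (d : ℤ) := by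
  have h1 : ∀ G : ℤ → ℝ, ∑ d ∈ Finset.Icc 1 (H : ℤ), G d = ∑ d ∈ Finset.Icc 1 H, G (d : ℤ) := by
    intro G
    have h2 : (Finset.Icc 1 H).image (fun d : ℕ => (d : ℤ)) = Finset.Icc 1 (H : ℤ) := by
      ext z
      simp only [Finset.mem_image, Finset.mem_Icc]
      constructor
      · rintro ⟨d, hd, rfl⟩
        omega
      · intro hz
        exact ⟨z.toNat, by omega, by omega⟩
    rw [← h2, Finset.sum_image (fun a _ b _ h => Int.natCast_inj.mp h)]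
  rw [h1]
  exact Finset.sum_congr rfl fun d' _ => h1 _

lemma Qf3_alg {x e N M : ℝ} {H : ℕ} {D' : Finset ℕ} {D : ℕ → Finset ℕ} {A S P : ℕ → ℕ → ℝ}
    (hx : 0 < x) (he : 0 ≤ e) (hN : |N - x| ≤ 1) (hN2 : N ≤ 2 * x)
    (hD' : (D'.card : ℝ) ≤ H) (hD : ∀ d', ((D d').card : ℝ) ≤ H) (hP : ∀ d' d, |P d' d| ≤ M)
    (h1 : ∑ d' ∈ D', ∑ d ∈ D d', |A d' d - S d' d| ≤ e * (H : ℝ) ^ 2 * x)
    (h2 : ∑ d' ∈ D', ∑ d ∈ D d', |S d' d - N * P d' d| ≤ e * N * (H : ℝ) ^ 2) (hM : M ≤ e * x) :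
    ∑ d' ∈ D', ∑ d ∈ D d', |A d' d / x - P d' d| ≤ 4 * e * (H : ℝ) ^ 2 := by
  have hH0 : (0 : ℝ) ≤ H := Nat.cast_nonneg H
  have hM0 : 0 ≤ M := (abs_nonneg _).trans (hP 0 0)
  have h3 : ∀ d' d, |A d' d / x - P d' d| ≤
      (|A d' d - S d' d| + |S d' d - N * P d' d| + M) / x := by
    intro d' d
    have h4 : A d' d / x - P d' d = ((A d' d - S d' d) + (S d' d - N * P d' d) +
        (N - x) * P d' d) / x := by
      field_simp
      ring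
    rw [h4, abs_div, abs_of_pos hx]
    refine div_le_div_of_nonneg_right ?_ hx.le
    refine (abs_add_three _ _ _).trans ?_
    have h5 : |(N - x) * P d' d| ≤ M := by
      rw [abs_mul]
      calc |N - x| * |P d' d| ≤ 1 * M := mul_le_mul hN (hP _ _) (abs_nonneg _) zero_le_one
        _ = M := one_mul _
    linarith
  refine (Finset.sum_le_sum fun d' _ => Finset.sum_le_sum fun d _ => h3 d' d).trans ?_
  simp only [← Finset.sum_div, Finset.sum_add_distrib]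
  rw [div_le_iff₀ hx]
  have h6 : ∑ d' ∈ D', ∑ _d ∈ D d', M ≤ H * (H * M) := by
    have h7 : ∀ d' ∈ D', ∑ _d ∈ D d', M ≤ H * M := by
      intro d' _
      rw [Finset.sum_const, nsmul_eq_mul]
      exact mul_le_mul_of_nonneg_right (hD d') hM0
    refine (Finset.sum_le_sum h7).trans ?_
    rw [Finset.sum_const, nsmul_eq_mul]
    exact mul_le_mul_of_nonneg_right hD' (by positivity)
  have h8 : (H : ℝ) * (H * M) ≤ e * (H : ℝ) ^ 2 * x := by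
    calc (H : ℝ) * (H * M) ≤ H * (H * (e * x)) := by gcongr
      _ = e * (H : ℝ) ^ 2 * x := by ring
  have h9 : e * N * (H : ℝ) ^ 2 ≤ 2 * (e * (H : ℝ) ^ 2 * x) := by
    calc e * N * (H : ℝ) ^ 2 ≤ e * (2 * x) * (H : ℝ) ^ 2 := by gcongr
      _ = _ := by ring
  linarith

theorem Qf3 (ε : ℝ) (hε : 0 < ε) : ∃ m : ℕ, ∀ Y : ℕ, 1 ≤ Y → ∀ δ : ℝ, 0 < δ → ∃ (J : ℕ) (K X : ℝ), ∀ x : ℝ, X ≤ x →
    ∀ Q : Finset ℕ, (∀ p ∈ Q, p.Prime ∧ (p : ℝ) ≤ x) →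
    ∃ bad : Finset ℕ, bad.card ≤ J ∧ ∀ i : ℕ, i ∉ bad → K * Real.log x ≤ ((2 ^ i : ℕ) : ℝ) →
      ((2 ^ i : ℕ) : ℝ) ≤ (Real.log x) ^ 2 →
    ∃ (n : ℕ) (α τ : Fin n → ℝ) (p q : Fin n → Fin n → ℝ), n ≤ m ∧
      (∀ j, 0 ≤ τ j ∧ τ j ≤ m) ∧ (∀ j l, |p j l| ≤ m ∧ |q j l| ≤ m) ∧ NF Y (2 ^ i) δ α ∧
      PairsAP x Q i ε α τ ∧ TripL x Q i ε α p q := by
  obtain ⟨e, he⟩ : ∃ e : ℝ, e = min ε 1 := ⟨_, rfl⟩
  have he0 : 0 < e := by rw [he]; exact lt_min hε one_pos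
  have he1 : e ≤ 1 := by rw [he]; exact min_le_right _ _
  have heε : e ≤ ε := by rw [he]; exact min_le_left _ _
  have hc0 : 0 < e / 100 := by positivity
  obtain ⟨y, K, X1, _, hK, hT⟩ := T8L (e / 100) hc0 0
  obtain ⟨B, hB⟩ : ∃ B : ℝ, B = 5 * wp y := ⟨_, rfl⟩
  have hwp := wp_pos y
  have hB0 : 0 < B := by rw [hB]; positivity
  obtain ⟨m, hm⟩ := Ps3 (e / 100) B hc0 hB0
  refine ⟨m, fun Y hY δ hδ => ?_⟩
  have hmp : (0 : ℝ) < ((m : ℝ) + 1) ^ 3 := by positivity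
  obtain ⟨δ', hδ'0, hδ'δ, hδ'e⟩ : ∃ δ' : ℝ, 0 < δ' ∧ δ' ≤ δ ∧
      δ' ≤ e / (1000 * ((m : ℝ) + 1) ^ 3) :=
    ⟨min δ (e / (1000 * ((m : ℝ) + 1) ^ 3)), lt_min hδ (by positivity), min_le_left _ _,
      min_le_right _ _⟩
  obtain ⟨J, N₀, hPs⟩ := hm δ' hδ'0 Y
  obtain ⟨X, hX⟩ := Qf_event X1 (B ^ 3 / (e / 100)) (2 * ((m : ℝ) + 1) ^ 3 / (e / 100)) (N₀ : ℝ)
  have hm1 : (m : ℝ) ^ 2 ≤ ((m : ℝ) + 1) ^ 3 := by
    have : (0 : ℝ) ≤ m := Nat.cast_nonneg m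
    nlinarith [sq_nonneg (m : ℝ), mul_nonneg this (sq_nonneg (m : ℝ))]
  have hm2 : (m : ℝ) ^ 3 ≤ ((m : ℝ) + 1) ^ 3 :=
    pow_le_pow_left₀ (Nat.cast_nonneg m) (by linarith) 3
  have hδM : δ' * ((m : ℝ) + 1) ^ 3 ≤ e / 1000 := by
    rw [le_div_iff₀ (by positivity)] at hδ'e
    linarith
  have hδ1 : 8 * (m : ℝ) ^ 2 * δ' ≤ e / 100 := by
    have h1 : (m : ℝ) ^ 2 * δ' ≤ ((m : ℝ) + 1) ^ 3 * δ' :=
      mul_le_mul_of_nonneg_right hm1 hδ'0.le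
    linarith
  have hδ2 : 32 * (m : ℝ) ^ 3 * δ' ≤ 4 * (e / 100) := by
    have h1 : (m : ℝ) ^ 3 * δ' ≤ ((m : ℝ) + 1) ^ 3 * δ' :=
      mul_le_mul_of_nonneg_right hm2 hδ'0.le
    linarith
  refine ⟨J, K, X, fun x hx Q hQ => ?_⟩
  obtain ⟨hx1, hx2, hx3, hx4, hx5, hx6, hx7, hx8⟩ := hX x hx
  have hx0 : 0 < x := by linarith
  obtain ⟨g, hg, hg0, hTH⟩ := hT x hx1 Q hQ
  obtain ⟨b, hb⟩ : ∃ b : ℤ → ℝ, b = fun n => Mm y n * g n := ⟨_, rfl⟩
  have hbn : ∀ n, b n = Mm y n * g n := fun n => by rw [hb]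
  obtain ⟨N, hN⟩ : ∃ N : ℕ, N = ⌊x⌋₊ + 1 := ⟨_, rfl⟩
  have hNr : (N : ℝ) = (⌊x⌋₊ : ℝ) + 1 := by rw [hN, Nat.cast_add, Nat.cast_one]
  have hf1 := Nat.floor_le hx0.le
  have hf2 := Nat.lt_floor_add_one x
  have hNx : |(N : ℝ) - x| ≤ 1 := by
    rw [hNr, abs_le]
    constructor <;> linarith
  have hN2 : (N : ℝ) ≤ 2 * x := by rw [hNr]; linarith
  have hNN : x ≤ (N : ℝ) := by rw [hNr]; exact hf2.le
  have hN0 : (0 : ℝ) ≤ N := Nat.cast_nonneg N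
  have hbB : ∀ n, |b n| ≤ B := by
    intro n
    rw [hbn, hB, abs_mul, abs_of_nonneg (Mm_nonneg y n), abs_of_nonneg (hg n).1]
    have h1 : g n ≤ 5 := by have := (hg n).2; linarith
    calc Mm y n * g n ≤ wp y * 5 := mul_le_mul (Mm_le y n) h1 (hg n).1 hwp.le
      _ = 5 * wp y := mul_comm _ _
  have hb0 : ∀ n : ℤ, n < 0 ∨ (N : ℤ) ≤ n → b n = 0 := by
    intro n hn
    rw [hbn, hg0 n (by rw [← hN]; exact hn), mul_zero]
  have hNN0 : N₀ ≤ N := by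
    have : (N₀ : ℝ) ≤ (N : ℝ) := hx8.trans hNN
    exact_mod_cast this
  obtain ⟨bad, hbad, hbi⟩ := hPs N hNN0 b hbB hb0 (fun l : Fin Y => ((l : ℕ) : ℝ) / (Y : ℝ))
  refine ⟨bad, hbad, fun i hi hi1 hi2 => ?_⟩
  have h4i : 4 ^ i ≤ N := by
    have h1 : ((4 ^ i : ℕ) : ℝ) ≤ (N : ℝ) := by
      have h2 : ((4 ^ i : ℕ) : ℝ) = ((2 ^ i : ℕ) : ℝ) ^ 2 := by
        push_cast
        rw [← pow_mul, mul_comm i 2, pow_mul]
        norm_num
      rw [h2]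
      calc ((2 ^ i : ℕ) : ℝ) ^ 2 ≤ ((Real.log x) ^ 2) ^ 2 :=
            pow_le_pow_left₀ (Nat.cast_nonneg _) hi2 2
        _ = (Real.log x) ^ 4 := by ring
        _ ≤ x := hx5
        _ ≤ N := hNN
    exact_mod_cast h1
  obtain ⟨n, α', τ, p, q, hnm, hτ, hpq, hsep, hP, hTt⟩ := hbi i hi h4i
  obtain ⟨hTP, hTT⟩ := hTH (2 ^ i) hi1 hi2
  have hHpow : ((2 ^ i : ℕ) : ℝ) = (2 : ℝ) ^ i := by push_cast; rfl
  rw [← hHpow] at hsep
  unfold PairsAP TripL NF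
  obtain ⟨H, hH⟩ : ∃ H : ℕ, H = 2 ^ i := ⟨_, rfl⟩
  rw [← hH] at hi1 hi2 hP hTt hsep hTP hTT ⊢
  have hHL : Real.log x ≤ (H : ℝ) := by
    refine le_trans ?_ hi1
    have : 0 ≤ Real.log x := by linarith
    nlinarith
  have hH0 : (0 : ℝ) < H := by linarith
  have hHx : (1 : ℝ) ≤ H := by linarith
  obtain ⟨α, hα1, hα2⟩ := Qf2_move hY hδ'0 hδ'δ hH0 α' hsep
  have hκ0 : 0 ≤ δ' / H := by positivity
  have hκH : δ' / H * H = δ' := by field_simp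
  have hB3 : B ^ 3 ≤ e / 100 * H := by
    rw [div_le_iff₀ hc0] at hx6
    nlinarith
  have hmH : 2 * ((m : ℝ) + 1) ^ 3 ≤ e / 100 * Real.log x := by
    rw [div_le_iff₀ hc0] at hx7
    linarith
  have hmH' : 2 * (m : ℝ) ^ 3 ≤ e / 100 * H := by nlinarith
  have hmx : 2 * (m : ℝ) ^ 3 ≤ e / 100 * x := by nlinarith
  have hmx2 : (m : ℝ) ^ 2 ≤ e / 100 * x := by nlinarith
  have hcard : ∀ D : Finset ℕ, D ⊆ Finset.Icc 1 H → (D.card : ℝ) ≤ H := by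
    intro D hD
    have h2 := Finset.card_le_card hD
    rw [Nat.card_Icc, Nat.add_sub_cancel] at h2
    exact_mod_cast h2
  have hle : ∀ D : Finset ℕ, D ⊆ Finset.Icc 1 H → ∀ d ∈ D, d ≤ H := fun D hD d hd =>
    (Finset.mem_Icc.1 (hD hd)).2
  -- pairs
  have hC1 : ∀ D : Finset ℕ, D ⊆ Finset.Icc 1 H →
      |∑ d ∈ D, ((pc Q d : ℝ) * (Real.log x) ^ 2 / x -
        ∑ j, τ j * Real.cos (2 * Real.pi * (α' j * d)))| ≤ 4 * (e / 100) * H := by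
    intro D hD
    have h1 : |(∑ d ∈ D, (pc Q d : ℝ)) * (Real.log x) ^ 2
        - ∑ d ∈ D, ∑ n ∈ Finset.range (⌊x⌋₊ + 1),
            (Mm y (n : ℤ) * g (n : ℤ)) * (Mm y ((n : ℤ) - d) * g ((n : ℤ) - d))| ≤
        e / 100 * (H : ℝ) * x := by
      rw [Finset.sum_mul, ← Finset.sum_sub_distrib]
      refine (Finset.abs_sum_le_sum_abs _ _).trans (le_trans ?_ hTP)
      exact Finset.sum_le_sum_of_subset_of_nonneg hD (fun _ _ _ => abs_nonneg _)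
    have h2 := hP (Qf_ind D) (Qf_ind_abs D)
    rw [Qf_P1 hD, Qf_w hD (fun d => ∑ j, τ j * Real.cos (2 * Real.pi * (α' j * d)))] at h2
    simp only [Int.cast_natCast] at h2
    simp only [← hbn, ← hN] at h1
    have h3 : |∑ d ∈ D, ∑ j, τ j * Real.cos (2 * Real.pi * (α' j * (d : ℝ)))| ≤
        H * (m : ℝ) ^ 2 := by
      refine (Finset.abs_sum_le_sum_abs _ _).trans ?_
      refine (Finset.sum_le_sum (fun (d : ℕ) _ => Qf2_S2 hnm (α := α') hτ (d : ℝ))).trans ?_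
      rw [Finset.sum_const, nsmul_eq_mul]
      exact mul_le_mul_of_nonneg_right (hcard D hD) (by positivity)
    have h4 := Qf_alg1 hx0 hH0.le hc0.le hNx hN2 h1 h2 h3 hmx2
    rw [Finset.sum_sub_distrib, ← Finset.sum_div, ← Finset.sum_mul]
    exact h4
  -- triples
  have hC2 : ∑ d' ∈ Finset.Icc 1 H, ∑ d ∈ (Finset.Icc 1 H).erase d',
      |(tc Q d' d : ℝ) * (Real.log x) ^ 3 / x - S3 α' p q d' d| ≤ 4 * (e / 100) * (H : ℝ) ^ 2 := by
    have h2 : ∑ d' ∈ Finset.Icc 1 H, ∑ d ∈ (Finset.Icc 1 H).erase d',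
        |∑ n ∈ Finset.range N, b (n : ℤ) * b ((n : ℤ) - (d' : ℤ)) * b ((n : ℤ) - (d : ℤ)) -
          (N : ℝ) * S3 α' p q d' d| ≤ e / 100 * (N : ℝ) * (H : ℝ) ^ 2 := by
      refine (Finset.sum_le_sum (fun d' _ => Finset.sum_le_sum_of_subset_of_nonneg
        (Finset.erase_subset d' (Finset.Icc 1 H)) (fun _ _ _ => abs_nonneg _))).trans ?_
      refine le_trans (le_of_eq ?_) hTt
      rw [Qf3_cast H (fun d' d : ℤ => |∑ n ∈ Finset.range N, b (n : ℤ) * b ((n : ℤ) - d') *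
        b ((n : ℤ) - d) - (N : ℝ) * ∑ j, ∑ l, (p j l * Real.cos (2 * Real.pi * (α' j * d' + α' l * d))
          + q j l * Real.sin (2 * Real.pi * (α' j * d' + α' l * d)))|)]
      refine Finset.sum_congr rfl fun d' _ => Finset.sum_congr rfl fun d _ => ?_
      simp only [S3, Int.cast_natCast]
    have h1 := hTT
    simp only [← hbn, ← hN] at h1
    exact Qf3_alg hx0 hc0.le hNx hN2 (hcard _ subset_rfl)
      (fun d' => hcard _ (Finset.erase_subset _ _)) (fun d' d => Qf2_S3 hnm hpq (d' : ℝ) (d : ℝ)) h1 h2 hmx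
  refine ⟨n, α, τ, p, q, hnm, hτ, hpq, hα2, ?_, ?_⟩
  · intro D hD
    have h1 := hC1 D hD
    have h2 : |∑ d ∈ D, (∑ j, τ j * Real.cos (2 * Real.pi * (α' j * (d : ℝ))) -
        ∑ j, τ j * Real.cos (2 * Real.pi * (α j * (d : ℝ))))| ≤ H * (e / 100) := by
      refine (Finset.abs_sum_le_sum_abs _ _).trans ?_
      have h3 : ∀ d ∈ D, |∑ j, τ j * Real.cos (2 * Real.pi * (α' j * (d : ℝ))) -
          ∑ j, τ j * Real.cos (2 * Real.pi * (α j * (d : ℝ)))| ≤ e / 100 := by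
        intro d hd
        refine (Qf2_m2 hnm hτ hα1 (hle D hD d hd) hκ0).trans ?_
        rw [hκH]
        exact hδ1
      refine (Finset.sum_le_sum h3).trans ?_
      rw [Finset.sum_const, nsmul_eq_mul]
      exact mul_le_mul_of_nonneg_right (hcard D hD) hc0.le
    have h3 : ∑ d ∈ D, ((pc Q d : ℝ) * (Real.log x) ^ 2 / x -
          ∑ j, τ j * Real.cos (2 * Real.pi * (α j * d))) =
        ∑ d ∈ D, ((pc Q d : ℝ) * (Real.log x) ^ 2 / x -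
          ∑ j, τ j * Real.cos (2 * Real.pi * (α' j * d))) +
        ∑ d ∈ D, (∑ j, τ j * Real.cos (2 * Real.pi * (α' j * (d : ℝ))) -
          ∑ j, τ j * Real.cos (2 * Real.pi * (α j * (d : ℝ)))) := by
      rw [← Finset.sum_add_distrib]
      refine Finset.sum_congr rfl fun d _ => ?_
      ring
    rw [h3]
    refine (abs_add_le _ _).trans ?_
    have h9 : e * (H : ℝ) ≤ ε * (H : ℝ) := mul_le_mul_of_nonneg_right heε hH0.le
    have h10 : (0 : ℝ) ≤ e * (H : ℝ) := by positivity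
    linarith
  · have h1 : ∀ d' ∈ Finset.Icc 1 H, ∀ d ∈ (Finset.Icc 1 H).erase d',
        |(tc Q d' d : ℝ) * (Real.log x) ^ 3 / x - S3 α p q d' d| ≤
          |(tc Q d' d : ℝ) * (Real.log x) ^ 3 / x - S3 α' p q d' d| + 4 * (e / 100) := by
      intro d' hd' d hd
      have h2 := Qf2_m3 hnm hpq hα1 (hle _ subset_rfl d' hd')
        (hle _ subset_rfl d (Finset.mem_of_mem_erase hd)) hκ0
      rw [hκH] at h2
      have h3 : |S3 α' p q d' d - S3 α p q d' d| ≤ 4 * (e / 100) := h2.trans hδ2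
      have h4 : (tc Q d' d : ℝ) * (Real.log x) ^ 3 / x - S3 α p q d' d =
          ((tc Q d' d : ℝ) * (Real.log x) ^ 3 / x - S3 α' p q d' d) +
            (S3 α' p q d' d - S3 α p q d' d) := by ring
      rw [h4]
      exact (abs_add_le _ _).trans (add_le_add_right h3 _)
    have h5 : ∑ d' ∈ Finset.Icc 1 H, ∑ d ∈ (Finset.Icc 1 H).erase d', (4 * (e / 100)) ≤
        H * (H * (4 * (e / 100))) := by
      have h6 : ∀ d' ∈ Finset.Icc 1 H, ∑ d ∈ (Finset.Icc 1 H).erase d', (4 * (e / 100)) ≤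
          H * (4 * (e / 100)) := by
        intro d' _
        rw [Finset.sum_const, nsmul_eq_mul]
        exact mul_le_mul_of_nonneg_right (hcard _ (Finset.erase_subset _ _)) (by positivity)
      refine (Finset.sum_le_sum h6).trans ?_
      rw [Finset.sum_const, nsmul_eq_mul]
      exact mul_le_mul_of_nonneg_right (hcard _ subset_rfl) (by positivity)
    refine (Finset.sum_le_sum fun d' hd' => Finset.sum_le_sum fun d hd => h1 d' hd' d hd).trans ?_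
    simp only [Finset.sum_add_distrib]
    have h9 : e * (H : ℝ) ^ 2 ≤ ε * (H : ℝ) ^ 2 :=
      mul_le_mul_of_nonneg_right heε (by positivity)
    have h10 : (0 : ℝ) ≤ e * (H : ℝ) ^ 2 := by positivity
    have h11 : (H : ℝ) * (H * (4 * (e / 100))) = 4 * (e / 100) * (H : ℝ) ^ 2 := by ring
    rw [h11] at h5
    linarith

end Pool.Agent.H39.AE
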