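import Pool.Agent.H39.AE.Qf3

/-!
# Qi3: almost periodicity, with the clause for the set of all primes

COPY the proof of `Qi` (`Pool/Agent/H12/DN/Qi.lean`) and modify it: use `Qf3` instead of `Qf2` (only its STATEMENT; `NF Y (2^i) δ α` is by definition the dichotomy there), drop `r₂`, `r₃`, `Qh1`, `hbox`. `Qh3` is needed only for its first part
(`c1`: if `Q` is the set of all primes `≤ x` then `pc Q d L²/x = cnt x {0,d} L²/x` for `d ≥ 1`; or use `Qg_pc`). `e₁ = min (ε/(40 WW y₁)) (ε/8)`. The clause for the triples is the one of `Qf3` (`e₁ ≤ ε`, unfold `TripL`).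
-/

set_option autoImplicit false

namespace Pool.Agent.H39.AE

open Finset Pool.Agent.H17 Pool.Agent.H6.MF Pool.Agent.H6.MB Pool.Agent.H12.DM Pool.Agent.H12.DN Pool.Agent.H96.AE Pool.Agent.H6.AE

theorem Qi3 (ε : ℝ) (hε : 0 < ε) : ∃ m Y : ℕ, 1 ≤ Y ∧ ∀ δ : ℝ, 0 < δ → ∃ (J : ℕ) (K X : ℝ), ∀ x : ℝ, X ≤ x →
    ∀ Q : Finset ℕ, (∀ p ∈ Q, p.Prime ∧ (p : ℝ) ≤ x) →
    ∃ bad : Finset ℕ, bad.card ≤ J ∧ ∀ i : ℕ, i ∉ bad → K * Real.log x ≤ ((2 ^ i : ℕ) : ℝ) →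
      ((2 ^ i : ℕ) : ℝ) ≤ (Real.log x) ^ 2 →
    ∃ (n : ℕ) (α τ : Fin n → ℝ) (p q : Fin n → Fin n → ℝ), n ≤ m ∧
      (∀ j, 0 ≤ τ j ∧ τ j ≤ m) ∧ (∀ j l, |p j l| ≤ m ∧ |q j l| ≤ m) ∧ NF Y (2 ^ i) δ α ∧
      (∑ d ∈ Finset.Icc 1 (2 ^ i), |(pc Q d : ℝ) * (Real.log x) ^ 2 / x - S2 α τ d| ≤ ε * ((2 ^ i : ℕ) : ℝ)) ∧
      (∑ d' ∈ Finset.Icc 1 (2 ^ i), ∑ d ∈ (Finset.Icc 1 (2 ^ i)).erase d',
        |(tc Q d' d : ℝ) * (Real.log x) ^ 3 / x - S3 α p q d' d| ≤ ε * ((2 ^ i : ℕ) : ℝ) ^ 2) ∧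
      ((∀ p : ℕ, p.Prime → (p : ℝ) ≤ x → p ∈ Q) → ∃ τ' : Fin n → ℝ, (∀ j, 0 ≤ τ' j ∧ τ' j ≤ τ j) ∧
        ∑ d ∈ Finset.Icc 1 (2 ^ i), |(pc Q d : ℝ) * (Real.log x) ^ 2 / x - sing {0, (d : ℤ)} - S2 α τ' d|
          ≤ ε * ((2 ^ i : ℕ) : ℝ)) := by
  obtain ⟨δ₃, K₃, X₃, hδ₃, h3⟩ := Qh3 ε hε
  obtain ⟨y₁, Xs, hs⟩ := Qs (ε / 4) (by positivity)
  have hY : 1 ≤ WW y₁ := WW_pos y₁
  have hYr : (1 : ℝ) ≤ (WW y₁ : ℝ) := by exact_mod_cast hY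
  obtain ⟨e₁, he₁⟩ : ∃ e₁ : ℝ, e₁ = min (ε / (40 * (WW y₁ : ℝ))) (ε / 8) := ⟨_, rfl⟩
  have he0 : 0 < e₁ := by rw [he₁]; positivity
  have hea : 40 * (WW y₁ : ℝ) * e₁ ≤ ε := by
    have h1 : e₁ ≤ ε / (40 * (WW y₁ : ℝ)) := by rw [he₁]; exact min_le_left _ _
    rw [le_div_iff₀ (by positivity)] at h1
    linarith
  have hec : e₁ ≤ ε / 8 := by
    rw [he₁]; exact min_le_right _ _
  obtain ⟨m, hm⟩ := Qf3 e₁ he0
  obtain ⟨δb, hδb, Hb, h2⟩ := Qh2 (2 * e₁) (by positivity) m (WW y₁) hY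
  obtain ⟨Kr, Xr, hr⟩ := Qr (2 * e₁) (by positivity) y₁
  refine ⟨m, WW y₁, hY, fun δ hδ => ?_⟩
  obtain ⟨δc, hδc, hδc1, hδc3⟩ : ∃ δc : ℝ, 0 < δc ∧ δc ≤ δ ∧ δc ≤ δb :=
    ⟨min δ δb, lt_min hδ hδb, min_le_left _ _, min_le_right _ _⟩
  obtain ⟨J, Kf, Xf, hf⟩ := hm (WW y₁) hY δc hδc
  refine ⟨J, max (max Kf K₃) (max Kr 1), max (max (max Xf X₃) (max Xs Xr)) (Real.exp ((Hb : ℝ) + 1)), ?_⟩
  intro x hx Q hQ
  have hx1 : max (max Xf X₃) (max Xs Xr) ≤ x := (le_max_left _ _).trans hx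
  have hxf : Xf ≤ x := ((le_max_left _ _).trans (le_max_left _ _)).trans hx1
  have hx3 : X₃ ≤ x := ((le_max_right _ _).trans (le_max_left _ _)).trans hx1
  have hxs : Xs ≤ x := ((le_max_left _ _).trans (le_max_right _ _)).trans hx1
  have hxr : Xr ≤ x := ((le_max_right _ _).trans (le_max_right _ _)).trans hx1
  have hxe : Real.exp ((Hb : ℝ) + 1) ≤ x := (le_max_right _ _).trans hx
  have hx0 : 0 < x := (Real.exp_pos _).trans_le hxe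
  have hL : (Hb : ℝ) + 1 ≤ Real.log x := by
    rw [Real.le_log_iff_exp_le hx0]
    exact hxe
  have hHb0 : (0 : ℝ) ≤ Hb := Nat.cast_nonneg _
  have hL0 : 0 ≤ Real.log x := by linarith
  obtain ⟨bad, hbad, hb⟩ := hf x hxf Q hQ
  refine ⟨bad, hbad, ?_⟩
  intro i hi hKH hH2
  have hK : ∀ K' : ℝ, K' ≤ max (max Kf K₃) (max Kr 1) → K' * Real.log x ≤ ((2 ^ i : ℕ) : ℝ) :=
    fun K' hK' => (mul_le_mul_of_nonneg_right hK' hL0).trans hKH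
  have hKf := hK Kf ((le_max_left _ _).trans (le_max_left _ _))
  have hK3 := hK K₃ ((le_max_right _ _).trans (le_max_left _ _))
  have hKr := hK Kr ((le_max_left _ _).trans (le_max_right _ _))
  have hK1 := hK 1 ((le_max_right _ _).trans (le_max_right _ _))
  rw [one_mul] at hK1
  have hHb : Hb ≤ 2 ^ i := by
    have : (Hb : ℝ) ≤ ((2 ^ i : ℕ) : ℝ) := by linarith
    exact_mod_cast this
  obtain ⟨n, α, τ, p, q, hn, hτ, hpq, hdich, hP, hT⟩ := hb i hi hKf hH2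
  have hNF : NF (WW y₁) (2 ^ i) δc α := hdich
  have hH0 : (0 : ℝ) ≤ ((2 ^ i : ℕ) : ℝ) := Nat.cast_nonneg _
  have hNFδ : NF (WW y₁) (2 ^ i) δ α := by
    intro j
    rcases hNF j with h9 | h9
    · exact Or.inl h9
    · refine Or.inr fun b => le_trans ?_ (h9 b)
      have hHpos : (0 : ℝ) < ((2 ^ i : ℕ) : ℝ) := by
        have h9 : 0 < 2 ^ i := by positivity
        exact_mod_cast h9
      exact one_div_le_one_div_of_le (by positivity) (mul_le_mul_of_nonneg_right hδc1 hH0)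
  have hH20 : (0 : ℝ) ≤ ((2 ^ i : ℕ) : ℝ) ^ 2 := by positivity
  -- pairs
  have hpairs : ∑ d ∈ Finset.Icc 1 (2 ^ i), |(pc Q d : ℝ) * (Real.log x) ^ 2 / x - S2 α τ d| ≤
      2 * (e₁ * ((2 ^ i : ℕ) : ℝ)) := Qh_abs _ _ _ hP
  refine ⟨n, α, τ, p, q, hn, hτ, hpq, hNFδ, ?_, ?_, ?_⟩
  · have := mul_le_mul_of_nonneg_right (by linarith : 2 * e₁ ≤ ε) hH0
    linarith
  · unfold TripL at hT
    exact hT.trans (mul_le_mul_of_nonneg_right (by linarith) hH20)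
  · intro hall
    obtain ⟨c1, _⟩ := h3 x hx3 (2 ^ i) hK3 hH2 Q hQ hall
    have hd1 : ∑ d ∈ Finset.Icc 1 (2 ^ i), |(fun d : ℕ => (pc Q d : ℝ) * (Real.log x) ^ 2 / x) d - S2 α τ d| ≤
        2 * e₁ * ((2 ^ i : ℕ) : ℝ) := by
      have := hpairs
      linarith
    have hd2 : ∀ b : ℕ, b < WW y₁ → kap y₁ b - 2 * e₁ ≤ 2 / ((2 ^ i : ℕ) : ℝ) ^ 2 *
        ∑ d ∈ (Finset.Icc 1 (2 ^ i) : Finset ℕ), (((2 ^ i : ℕ) : ℝ) - (d : ℝ)) *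
          Real.cos (2 * Real.pi * ((b : ℝ) / (WW y₁ : ℝ) * (d : ℝ))) *
          (fun d : ℕ => (pc Q d : ℝ) * (Real.log x) ^ 2 / x) d := by
      intro b hb
      refine (hr x hxr (2 ^ i) hKr hH2 b hb).trans (le_of_eq ?_)
      congr 1
      refine Finset.sum_congr rfl fun d hd => ?_
      rw [Finset.mem_Icc] at hd
      simp only
      rw [c1 d hd.1]
    obtain ⟨τ', hτ', hfin⟩ := h2 (2 ^ i) hHb δc hδc hδc3 n α τ hn hτ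
      hNF (fun d : ℕ => (pc Q d : ℝ) * (Real.log x) ^ 2 / x) (kap y₁) (Qh_kap0 y₁) (Qh_kap y₁) hd1 hd2
    refine ⟨τ', hτ', ?_⟩
    have hsing := hs x hxs (2 ^ i) hK1 hH2
    have hptw : ∀ d ∈ Finset.Icc 1 (2 ^ i),
        |(pc Q d : ℝ) * (Real.log x) ^ 2 / x - sing {0, (d : ℤ)} - S2 α τ' d| ≤
        |(fun d : ℕ => (pc Q d : ℝ) * (Real.log x) ^ 2 / x) d - ∑ b ∈ Finset.range (WW y₁),
          kap y₁ b * Real.cos (2 * Real.pi * ((b : ℝ) / (WW y₁ : ℝ) * d)) - S2 α τ' d| +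
        |sing {0, (d : ℤ)} - ∑ b ∈ Finset.range (WW y₁),
          kap y₁ b * Real.cos (2 * Real.pi * ((b : ℝ) / (WW y₁ : ℝ) * d))| := by
      intro d _
      refine le_trans (le_of_eq ?_) (abs_sub _ _)
      congr 1
      ring
    refine (Finset.sum_le_sum hptw).trans ?_
    rw [Finset.sum_add_distrib]
    have hlast : 5 * (WW y₁ : ℝ) * (2 * e₁) * ((2 ^ i : ℕ) : ℝ) ≤ ε / 4 * ((2 ^ i : ℕ) : ℝ) :=
      mul_le_mul_of_nonneg_right (by linarith) hH0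
    have hε4 : 0 ≤ ε * ((2 ^ i : ℕ) : ℝ) := by positivity
    linarith

end Pool.Agent.H39.AE
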