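import Pool.Agent.H39.AE.Pw

/-!
# T8L: the dense model for all scales, correlations in `L¹` over all differences

`N = ⌊x⌋₊ + 1`, `L = log x`, `f = Fin_f x Q` (`0 ≤ f ≤ La x`, `Fin_f_bd`; `f` is supported on primes `p ∈ Q`, `p > x^(1/4)`, with value `L`), `b n = Mm y n * g n`. We may assume `ε ≤ 1`.
Let `(y₂, δ₂, K₂)`, `(y₃, δ₃, K₃)` be from `L1_in 1 _ (ε/16)`, `L1_in 2 _ (ε/16)`, and apply `T8w` (`Pool/Agent/H12/DN/T8w.lean`) with `ε' = min (ε/16) (min δ₂ δ₃)` and `y₀' = max y₀ (max y₂ y₃)`: `y`, `K'`, `X'`. `K = max K' (max K₂ K₃)` (and `≥ 1`), `X` = maximum of `X'` and the `X` of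
`L1_in` for this `y`. `|f n| ≤ La x n ≤ Bm y x n`, `|b n| ≤ 5 Mm y n ≤ Bm y x n` (definition of `Bm` in `Pool/Agent/H96/AE/Df.lean`), `Sp x f` (`La` vanishes outside `[0,N)`: `Lf_La_zero` or `La_out`), `Sp x b`. `Win x H ε' f b` for every `H` in the range; `Win` is monotone in its constant.
* Pairs: `cf x f {d} = ∑_{n<N} f(n) f(n-d)`; `powersetCard 1 (Icc 1 H)` is the set of the singletons (`Finset.powersetCard_one`). `L² pc Q d` and `cf x f {d}` differ by at most `L² (x^(1/4) + H + 2)` or so: see the treatment of `pc`, `tc` in the proof of `T8` (`Pool/Agent/H12/DN/T8.lean`: `Fin_c2`, `Fin_c3`, `Fin_grow`, and there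
  `f(n) f(n-d) = L² χ(n) χ(n-d)` with `χ = Fin_chi x Q`), which is `≤ (ε/8) x` for large `x`.
* Triples: `L1_in 2` and `Pw` with `F D = |cf x f D - cf x b D|` (`cf x f {d', d} = ∑_n f(n) f(n-d') f(n-d)` for `d' ≠ d`, `Finset.prod_pair`); `Fin_c3` as before.
The total errors: pairs `(ε/16) N H + H (ε/8) x ≤ ε H x`; triples `2 (ε/16) N H² + H² (ε/8) x ≤ ε H² x` (`N ≤ 2x`).
-/

set_option autoImplicit false

namespace Pool.Agent.H39.AE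

open Finset Pool.Agent.H17 Pool.Agent.H6.MF Pool.Agent.H6.MB Pool.Agent.H12.DM Pool.Agent.H12.DN Pool.Agent.H96.AE Pool.Agent.H6.AE

lemma T8L_mono {x : ℝ} {H : ℕ} {δ δ' : ℝ} {f g : ℤ → ℝ} (h : Win x H δ f g) (hδ : δ ≤ δ') : Win x H δ' f g := by
  intro D hD
  refine (h D hD).trans ?_
  have hN : (0 : ℝ) ≤ (⌊x⌋₊ : ℝ) + 1 := by positivity
  exact mul_le_mul_of_nonneg_right (mul_le_mul_of_nonneg_right hδ hN) (sq_nonneg _)

lemma T8L_cf1 (x : ℝ) (f : ℤ → ℝ) (d : ℕ) :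
    cf x f {(d : ℤ)} = ∑ n ∈ Finset.range (⌊x⌋₊ + 1), f (n : ℤ) * f ((n : ℤ) - d) := by
  unfold Pool.Agent.H96.AE.cf
  refine Finset.sum_congr rfl fun n _ => ?_
  rw [Finset.prod_singleton]

lemma T8L_cf2 (x : ℝ) (f : ℤ → ℝ) {d' d : ℕ} (h : d ≠ d') :
    cf x f {(d' : ℤ), (d : ℤ)} = ∑ n ∈ Finset.range (⌊x⌋₊ + 1), f (n : ℤ) * f ((n : ℤ) - d') * f ((n : ℤ) - d) := by
  unfold Pool.Agent.H96.AE.cf
  refine Finset.sum_congr rfl fun n _ => ?_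
  rw [Finset.prod_pair, mul_assoc]
  intro h1
  exact h (by exact_mod_cast h1.symm)

/-- sum over singletons -/
lemma T8L_sum1 (H : ℕ) (F : Finset ℤ → ℝ) (hF : ∀ D, 0 ≤ F D) :
    ∑ d ∈ Finset.Icc 1 H, F {(d : ℤ)} ≤ ∑ D ∈ Finset.powersetCard 1 (Finset.Icc 1 (H : ℤ)), F D := by
  rw [Finset.powersetCard_one, Finset.sum_map]
  have h1 : ∑ d ∈ Finset.Icc 1 H, F {(d : ℤ)} = ∑ a ∈ Fin_Z (Finset.Icc 1 H), F {a} := by
    unfold Fin_Z
    rw [Finset.sum_map]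
    rfl
  rw [h1]
  exact Finset.sum_le_sum_of_subset_of_nonneg (Fin_Z_sub subset_rfl) fun a _ _ => hF _

lemma T8L_bd {U k S T E : ℝ} (hk : 0 ≤ k) (hE : |U - S| ≤ E) : |U * k - T| ≤ k * E + |k * S - T| := by
  have e2 : U * k - T = k * (U - S) + (k * S - T) := by ring
  rw [e2]
  refine (abs_add_le _ _).trans ?_
  rw [abs_mul, abs_of_nonneg hk]
  have := mul_le_mul_of_nonneg_left hE hk
  linarith

theorem T8L (ε : ℝ) (hε : 0 < ε) (y₀ : ℕ) : ∃ (y : ℕ) (K X : ℝ), y₀ ≤ y ∧ 1 ≤ K ∧ ∀ x : ℝ, X ≤ x → ∀ Q : Finset ℕ, (∀ p ∈ Q, p.Prime ∧ (p : ℝ) ≤ x) →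
    ∃ g : ℤ → ℝ, (∀ n, 0 ≤ g n ∧ g n ≤ 4 + ε) ∧ (∀ n : ℤ, n < 0 ∨ ((⌊x⌋₊ + 1 : ℕ) : ℤ) ≤ n → g n = 0) ∧
      ∀ H : ℕ, K * Real.log x ≤ (H : ℝ) → (H : ℝ) ≤ (Real.log x) ^ 2 →
      (∑ d ∈ Finset.Icc 1 H, |(pc Q d : ℝ) * (Real.log x) ^ 2 -
          ∑ n ∈ Finset.range (⌊x⌋₊ + 1), (Mm y (n : ℤ) * g (n : ℤ)) * (Mm y ((n : ℤ) - d) * g ((n : ℤ) - d))| ≤ ε * (H : ℝ) * x) ∧
      (∑ d' ∈ Finset.Icc 1 H, ∑ d ∈ (Finset.Icc 1 H).erase d', |(tc Q d' d : ℝ) * (Real.log x) ^ 3 -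
          ∑ n ∈ Finset.range (⌊x⌋₊ + 1), (Mm y (n : ℤ) * g (n : ℤ)) * (Mm y ((n : ℤ) - d') * g ((n : ℤ) - d')) *
            (Mm y ((n : ℤ) - d) * g ((n : ℤ) - d))| ≤ ε * (H : ℝ) ^ 2 * x) := by
  obtain ⟨e, he0, he1, heε⟩ : ∃ e : ℝ, 0 < e ∧ e ≤ 1 ∧ e ≤ ε :=
    ⟨min ε 1, lt_min hε one_pos, min_le_right _ _, min_le_left _ _⟩
  obtain ⟨y₂, δ₂, K₂, hδ₂, h2⟩ := L1_in 1 le_rfl (e / 16) (by positivity)
  obtain ⟨y₃, δ₃, K₃, hδ₃, h3⟩ := L1_in 2 (by norm_num) (e / 16) (by positivity)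
  obtain ⟨e', he'0, he'1, he'2, he'3⟩ : ∃ e' : ℝ, 0 < e' ∧ e' ≤ e / 16 ∧ e' ≤ δ₂ ∧ e' ≤ δ₃ :=
    ⟨min (e / 16) (min δ₂ δ₃), lt_min (by positivity) (lt_min hδ₂ hδ₃), min_le_left _ _,
      (min_le_right _ _).trans (min_le_left _ _), (min_le_right _ _).trans (min_le_right _ _)⟩
  obtain ⟨y, hy0, -, K', X', hK', hT⟩ := T8w e' he'0 (max y₀ (max y₂ y₃))
  simp only [max_le_iff] at hy0
  obtain ⟨hy00, hy2, hy3⟩ := hy0
  obtain ⟨X₂, h2⟩ := h2 y hy2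
  obtain ⟨X₃, h3⟩ := h3 y hy3
  obtain ⟨X0, h0⟩ := Fin_grow (e / 8) (by positivity)
  obtain ⟨K, hKa, hKb, hKc⟩ : ∃ K : ℝ, K' ≤ K ∧ K₂ ≤ K ∧ K₃ ≤ K :=
    ⟨max K' (max K₂ K₃), le_max_left _ _, (le_max_left _ _).trans (le_max_right _ _),
      (le_max_right _ _).trans (le_max_right _ _)⟩
  refine ⟨y, K, max X' (max X₂ (max X₃ (max X0 1))), hy00, hK'.trans hKa, fun x hx Q hQ => ?_⟩
  simp only [max_le_iff] at hx
  obtain ⟨hx', hx2, hx3, hx0, hx1⟩ := hx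
  obtain ⟨hL, hgr⟩ := h0 x hx0
  obtain ⟨g, hg1, hg2, -, hgH⟩ := hT x hx' Q hQ
  obtain ⟨b, hbd⟩ : ∃ b : ℤ → ℝ, b = fun n => Mm y n * g n := ⟨_, rfl⟩
  have hbn : ∀ n, b n = Mm y n * g n := fun n => by rw [hbd]
  rw [← hbd] at hgH
  refine ⟨g, fun n => ⟨(hg1 n).1, (hg1 n).2.trans (by linarith)⟩, hg2, fun H hH1 hH2 => ?_⟩
  simp only [← hbn]
  have hf := Fin_f_bd hx1 Q
  have hfB : ∀ n, |Fin_f x Q n| ≤ Bm y x n := fun n => by
    rw [abs_of_nonneg (hf n).1]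
    refine (hf n).2.trans ?_
    unfold Bm
    have k1 := Mm_nonneg (yy x) n
    have k2 := Mm_nonneg y n
    linarith
  have hbB : ∀ n, |b n| ≤ Bm y x n := fun n => by
    rw [hbn, abs_of_nonneg (mul_nonneg (Mm_nonneg _ _) (hg1 n).1)]
    have k1 := Mm_nonneg (yy x) n
    have k2 := Mm_nonneg y n
    have k3 := La_nonneg hx1 n
    have k4 : Mm y n * g n ≤ Mm y n * 5 := mul_le_mul_of_nonneg_left ((hg1 n).2.trans (by linarith)) k2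
    unfold Bm
    linarith
  have hfS : Sp x (Fin_f x Q) := fun n hn => by
    have k1 := hf n
    have k2 : La x n = 0 := Pool.Agent.H12.DM.La_out (by linarith) hn
    rw [k2] at k1
    exact le_antisymm k1.2 k1.1
  have hbS : Sp x b := fun n hn => by rw [hbn, hg2 n hn, mul_zero]
  have hL0 : 0 ≤ Real.log x := by linarith
  have hWin := hgH H ((mul_le_mul_of_nonneg_right hKa hL0).trans hH1) hH2
  have hp := h2 x hx2 (Fin_f x Q) b hfB hbB hfS hbS H ((mul_le_mul_of_nonneg_right hKb hL0).trans hH1) hH2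
    (T8L_mono hWin he'2)
  have ht := h3 x hx3 (Fin_f x Q) b hfB hbB hfS hbS H ((mul_le_mul_of_nonneg_right hKc hL0).trans hH1) hH2
    (T8L_mono hWin he'3)
  have hp' := (T8L_sum1 H (fun D => |cf x (Fin_f x Q) D - cf x b D|) fun D => abs_nonneg _).trans hp
  have ht' := Pw H (fun D => |cf x (Fin_f x Q) D - cf x b D|)
  obtain ⟨N, hN⟩ : ∃ N : ℕ, N = ⌊x⌋₊ + 1 := ⟨_, rfl⟩
  have hx00 : 0 ≤ x := by linarith
  have hNx : (⌊x⌋₊ : ℝ) + 1 ≤ 2 * x := by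
    have := Nat.floor_le hx00
    linarith
  have hQN : ∀ p ∈ Q, p < N := by
    intro p hp
    rw [hN]
    exact Nat.lt_succ_of_le (Nat.le_floor (hQ p hp).2)
  obtain ⟨L, hLd⟩ : ∃ L, L = Real.log x := ⟨_, rfl⟩
  have hfL : ∀ n, Fin_f x Q n = L * Fin_chi x Q n := by
    rw [hLd]
    exact Fin_f_eq hQ
  rw [← hLd] at hL hgr hL0 hH2
  rw [← hLd, ← hN]
  obtain ⟨E0, hE0⟩ : ∃ E0 : ℝ, E0 = x ^ (1 / 4 : ℝ) + H + 1 := ⟨_, rfl⟩
  have hE0p : 0 ≤ E0 := by rw [hE0]; positivity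
  have hEL : L ^ 3 * E0 ≤ e / 8 * x := by
    refine (mul_le_mul_of_nonneg_left ?_ (by positivity)).trans hgr
    rw [hE0]
    linarith
  have hE2 : L ^ 2 * E0 ≤ e / 8 * x := by
    refine (mul_le_mul_of_nonneg_right ?_ hE0p).trans hEL
    exact pow_le_pow_right₀ hL (by norm_num)
  have hH0 : (0 : ℝ) ≤ H := Nat.cast_nonneg _
  have he2 : e / 16 * ((⌊x⌋₊ : ℝ) + 1) ≤ e / 8 * x := by nlinarith
  have hex : e * x ≤ ε * x := mul_le_mul_of_nonneg_right heε hx00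
  have hex0 : 0 ≤ e * x := mul_nonneg he0.le hx00
  constructor
  · -- pairs
    have hterm : ∀ d ∈ Finset.Icc 1 H, |(pc Q d : ℝ) * L ^ 2 - ∑ n ∈ Finset.range N, b (n : ℤ) * b ((n : ℤ) - d)| ≤
        e / 8 * x + |cf x (Fin_f x Q) {(d : ℤ)} - cf x b {(d : ℤ)}| := by
      intro d hd
      have c2 := Fin_c2 hx00 N hQN (d := d) (H := H) (Finset.mem_Icc.1 hd).2
      rw [← hE0] at c2
      have k1 := T8L_bd (T := ∑ n ∈ Finset.range N, b (n : ℤ) * b ((n : ℤ) - d)) (by positivity : 0 ≤ L ^ 2) c2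
      have e1 : L ^ 2 * ∑ n ∈ Finset.range N, Fin_chi x Q (n : ℤ) * Fin_chi x Q ((n : ℤ) - d) =
          cf x (Fin_f x Q) {(d : ℤ)} := by
        rw [T8L_cf1, ← hN, Finset.mul_sum]
        refine Finset.sum_congr rfl fun n _ => ?_
        rw [hfL, hfL]
        ring
      rw [e1] at k1
      rw [T8L_cf1 x b d, ← hN]
      linarith
    refine (Finset.sum_le_sum hterm).trans ?_
    rw [Finset.sum_add_distrib, Finset.sum_const, Nat.card_Icc, Nat.add_sub_cancel, nsmul_eq_mul]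
    have k1 : e / 16 * ((⌊x⌋₊ : ℝ) + 1) * (H : ℝ) ^ 1 ≤ e / 8 * x * H := by
      rw [pow_one]
      exact mul_le_mul_of_nonneg_right he2 hH0
    have k2 := mul_le_mul_of_nonneg_left hex hH0
    have k3 := mul_nonneg hH0 hex0
    have k4 := hp'.trans k1
    calc (H : ℝ) * (e / 8 * x) + ∑ d ∈ Finset.Icc 1 H, |cf x (Fin_f x Q) {(d : ℤ)} - cf x b {(d : ℤ)}|
        ≤ (H : ℝ) * (e / 8 * x) + e / 8 * x * H := by linarith
      _ ≤ ε * H * x := by linarith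
  · -- triples
    have hterm : ∀ d' ∈ Finset.Icc 1 H, ∀ d ∈ (Finset.Icc 1 H).erase d',
        |(tc Q d' d : ℝ) * L ^ 3 - ∑ n ∈ Finset.range N, b (n : ℤ) * b ((n : ℤ) - d') * b ((n : ℤ) - d)| ≤
        e / 8 * x + |cf x (Fin_f x Q) {(d' : ℤ), (d : ℤ)} - cf x b {(d' : ℤ), (d : ℤ)}| := by
      intro d' hd' d hd
      have hne : d ≠ d' := Finset.ne_of_mem_erase hd
      have c3 := Fin_c3 hx00 N hQN (d' := d') (d := d) (H := H) (Finset.mem_Icc.1 hd').2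
        (Finset.mem_Icc.1 (Finset.mem_of_mem_erase hd)).2
      rw [← hE0] at c3
      have k1 := T8L_bd (T := ∑ n ∈ Finset.range N, b (n : ℤ) * b ((n : ℤ) - d') * b ((n : ℤ) - d))
        (by positivity : 0 ≤ L ^ 3) c3
      have e1 : L ^ 3 * ∑ n ∈ Finset.range N, Fin_chi x Q (n : ℤ) * Fin_chi x Q ((n : ℤ) - d') *
          Fin_chi x Q ((n : ℤ) - d) = cf x (Fin_f x Q) {(d' : ℤ), (d : ℤ)} := by
        rw [T8L_cf2 x _ hne, ← hN, Finset.mul_sum]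
        refine Finset.sum_congr rfl fun n _ => ?_
        rw [hfL, hfL, hfL]
        ring
      rw [e1] at k1
      rw [T8L_cf2 x b hne, ← hN]
      linarith
    refine (Finset.sum_le_sum fun d' hd' => Finset.sum_le_sum (hterm d' hd')).trans ?_
    have k0 : ∑ d' ∈ Finset.Icc 1 H, ∑ d ∈ (Finset.Icc 1 H).erase d',
        (e / 8 * x + |cf x (Fin_f x Q) {(d' : ℤ), (d : ℤ)} - cf x b {(d' : ℤ), (d : ℤ)}|) ≤
        (H : ℝ) * (H * (e / 8 * x)) + ∑ d' ∈ Finset.Icc 1 H, ∑ d ∈ (Finset.Icc 1 H).erase d',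
          |cf x (Fin_f x Q) {(d' : ℤ), (d : ℤ)} - cf x b {(d' : ℤ), (d : ℤ)}| := by
      have k5 : ∀ d' ∈ Finset.Icc 1 H, ∑ d ∈ (Finset.Icc 1 H).erase d',
          (e / 8 * x + |cf x (Fin_f x Q) {(d' : ℤ), (d : ℤ)} - cf x b {(d' : ℤ), (d : ℤ)}|) ≤
          (H * (e / 8 * x)) + ∑ d ∈ (Finset.Icc 1 H).erase d',
            |cf x (Fin_f x Q) {(d' : ℤ), (d : ℤ)} - cf x b {(d' : ℤ), (d : ℤ)}| := by
        intro d' hd'
        rw [Finset.sum_add_distrib, Finset.sum_const, nsmul_eq_mul]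
        have k6 : ((Finset.Icc 1 H).erase d').card ≤ H := by
          refine (Finset.card_le_card (Finset.erase_subset _ _)).trans ?_
          rw [Nat.card_Icc, Nat.add_sub_cancel]
        have k7 : (((Finset.Icc 1 H).erase d').card : ℝ) ≤ H := by exact_mod_cast k6
        have k8 := mul_le_mul_of_nonneg_right k7 (by positivity : 0 ≤ e / 8 * x)
        linarith
      refine (Finset.sum_le_sum k5).trans ?_
      rw [Finset.sum_add_distrib, Finset.sum_const, Nat.card_Icc, Nat.add_sub_cancel, nsmul_eq_mul]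
    refine k0.trans ?_
    have k1 : e / 16 * ((⌊x⌋₊ : ℝ) + 1) * (H : ℝ) ^ 2 ≤ e / 8 * x * H ^ 2 :=
      mul_le_mul_of_nonneg_right he2 (by positivity)
    have k2 := mul_le_mul_of_nonneg_left hex (by positivity : 0 ≤ (H : ℝ) ^ 2)
    have k3 := mul_nonneg (by positivity : 0 ≤ (H : ℝ) ^ 2) hex0
    have k4 := ht.trans k1
    rw [ht']
    calc (H : ℝ) * (H * (e / 8 * x)) + 2 * ∑ D ∈ Finset.powersetCard 2 (Finset.Icc 1 (H : ℤ)), |cf x (Fin_f x Q) D - cf x b D|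
        ≤ (H : ℝ) * (H * (e / 8 * x)) + 2 * (e / 8 * x * H ^ 2) := by linarith
      _ ≤ ε * H ^ 2 * x := by linarith

end Pool.Agent.H39.AE
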